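import Pool.Agent.H74.CD.Stm

set_option autoImplicit false

namespace Pool.Agent.H74.CD.T.BDL

open MeasureTheory Filter Topology Set intervalIntegral Pool.Agent.H74.CD

/-- A mode is at most `1` in absolute value. -/
theorem abs_md_le (m : ℕ) (p q x : ℝ) : |md m p q x| ≤ 1 := Real.abs_sin_le_one _

/-- The bound of one of the two integrals of the boundary term. -/
theorem one_side (k m : ℕ) (a b p q η : ℝ) (f g : ℝ → ℝ) (hab : a ≤ b) (h0 : 0 ≤ η)
    (hf : ∀ y, a < y → y ≤ b → |f y| ≤ η) (hg : ∀ y, a < y → y ≤ b → |g y| ≤ η) :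
    |∫ y in a..b, ((-1) ^ k * f y - g y) * md m p q y| ≤ 2 * η * (b - a) := by
  have h1 := intervalIntegral.norm_integral_le_of_norm_le_const (a := a) (b := b) (C := 2 * η)
    (f := fun y => ((-1) ^ k * f y - g y) * md m p q y) (by
      intro y hy
      rw [uIoc_of_le hab] at hy
      have h2 := hf y hy.1 hy.2
      have h3 := hg y hy.1 hy.2
      rw [Real.norm_eq_abs, abs_mul]
      have h4 : |(-1) ^ k * f y - g y| ≤ 2 * η := by
        have h5 : |(-1 : ℝ) ^ k * f y| = |f y| := by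
          rw [abs_mul, abs_pow, abs_neg, abs_one, one_pow, one_mul]
        have h6 : |(-1) ^ k * f y - g y| ≤ |(-1 : ℝ) ^ k * f y| + |g y| := abs_sub _ _
        rw [h5] at h6
        linarith
      calc |(-1) ^ k * f y - g y| * |md m p q y| ≤ 2 * η * 1 :=
            mul_le_mul h4 (abs_md_le m p q y) (abs_nonneg _) (by linarith)
        _ = 2 * η := mul_one _)
  rw [Real.norm_eq_abs, abs_of_nonneg (sub_nonneg.2 hab)] at h1
  exact h1

theorem main : S_BDL := by
  intro A B s₁ s₂ w hA hB hw hwall m n δ hδ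
  have hK : IsCompact (Icc s₁ s₂ ×ˢ (Icc 0 A ×ˢ Icc 0 B) : Set (ℝ × ℝ × ℝ)) :=
    isCompact_Icc.prod (isCompact_Icc.prod isCompact_Icc)
  have huc := hK.uniformContinuousOn_of_continuous hw
  rw [Metric.uniformContinuousOn_iff] at huc
  set M : ℝ := 2 * (m * Real.pi / A) * (2 * B) + 2 * (n * Real.pi / B) * (2 * A) + 1 with hM
  have hMpos : 0 < M := by
    have := Real.pi_pos
    positivity
  obtain ⟨r, hr, hrr⟩ := huc (δ / M) (div_pos hδ hMpos)
  set η : ℝ := δ / M with hη
  have hηpos : 0 < η := div_pos hδ hMpos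
  refine ⟨min r (min (A / 4) (B / 4)), by positivity, ?_, ?_, ?_⟩
  · have : min r (min (A / 4) (B / 4)) ≤ A / 4 := (min_le_right _ _).trans (min_le_left _ _)
    linarith
  · have : min r (min (A / 4) (B / 4)) ≤ B / 4 := (min_le_right _ _).trans (min_le_right _ _)
    linarith
  intro ε hε hε' t ht
  have h1 : ε < r := lt_of_lt_of_le hε' (min_le_left _ _)
  have h2 : ε < A / 4 := lt_of_lt_of_le hε' ((min_le_right _ _).trans (min_le_left _ _))
  have h3 : ε < B / 4 := lt_of_lt_of_le hε' ((min_le_right _ _).trans (min_le_right _ _))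
  -- comparison in the direction `x`
  have hx : ∀ x ∈ Icc (0 : ℝ) A, ∀ x' ∈ Icc (0 : ℝ) A, ∀ y ∈ Icc (0 : ℝ) B, |x - x'| < r →
      (x' = 0 ∨ x' = A) → |w t x y| ≤ η := by
    intro x hx x' hx' y hy hxx hz
    have h4 := hrr (t, x, y) ⟨ht, hx, hy⟩ (t, x', y) ⟨ht, hx', hy⟩ (by
      rw [Prod.dist_eq, Prod.dist_eq]
      simp only [dist_self]
      rw [Real.dist_eq]
      exact max_lt hr (max_lt hxx hr))
    have h5 : w t x' y = 0 := hwall t ht x' hx' y hy (by
      rcases hz with hz | hz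
      · exact Or.inl hz
      · exact Or.inr (Or.inl hz))
    rw [Real.dist_eq] at h4
    simp only [h5, sub_zero] at h4
    exact h4.le
  have hy : ∀ y ∈ Icc (0 : ℝ) B, ∀ y' ∈ Icc (0 : ℝ) B, ∀ x ∈ Icc (0 : ℝ) A, |y - y'| < r →
      (y' = 0 ∨ y' = B) → |w t x y| ≤ η := by
    intro y hy y' hy' x hx hyy hz
    have h4 := hrr (t, x, y) ⟨ht, hx, hy⟩ (t, x, y') ⟨ht, hx, hy'⟩ (by
      rw [Prod.dist_eq, Prod.dist_eq]
      simp only [dist_self]
      rw [Real.dist_eq]
      exact max_lt hr (max_lt hr hyy))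
    have h5 : w t x y' = 0 := hwall t ht x hx y' hy' (by
      rcases hz with hz | hz
      · exact Or.inr (Or.inr (Or.inl hz))
      · exact Or.inr (Or.inr (Or.inr hz)))
    rw [Real.dist_eq] at h4
    simp only [h5, sub_zero] at h4
    exact h4.le
  have e1 : |A - ε - A| < r := by
    rw [show A - ε - A = -ε by ring, abs_neg, abs_of_pos hε]; exact h1
  have e2 : |ε - 0| < r := by rw [sub_zero, abs_of_pos hε]; exact h1
  have e3 : |B - ε - B| < r := by
    rw [show B - ε - B = -ε by ring, abs_neg, abs_of_pos hε]; exact h1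
  have i1 : |∫ y in ε..(B - ε), ((-1) ^ m * w t (A - ε) y - w t ε y) * md n ε (B - ε) y| ≤
      2 * η * (B - ε - ε) := by
    refine one_side m n ε (B - ε) ε (B - ε) η (fun y => w t (A - ε) y) (fun y => w t ε y)
      (by linarith) hηpos.le ?_ ?_
    · intro y hy1 hy2
      exact hx (A - ε) ⟨by linarith, by linarith⟩ A ⟨hA.le, le_rfl⟩ y ⟨by linarith, by linarith⟩
        e1 (Or.inr rfl)
    · intro y hy1 hy2
      exact hx ε ⟨by linarith, by linarith⟩ 0 ⟨le_rfl, hA.le⟩ y ⟨by linarith, by linarith⟩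
        e2 (Or.inl rfl)
  have i2 : |∫ x in ε..(A - ε), ((-1) ^ n * w t x (B - ε) - w t x ε) * md m ε (A - ε) x| ≤
      2 * η * (A - ε - ε) := by
    refine one_side n m ε (A - ε) ε (A - ε) η (fun x => w t x (B - ε)) (fun x => w t x ε)
      (by linarith) hηpos.le ?_ ?_
    · intro x hx1 hx2
      exact hy (B - ε) ⟨by linarith, by linarith⟩ B ⟨hB.le, le_rfl⟩ x ⟨by linarith, by linarith⟩
        e3 (Or.inr rfl)
    · intro x hx1 hx2
      exact hy ε ⟨by linarith, by linarith⟩ 0 ⟨le_rfl, hB.le⟩ x ⟨by linarith, by linarith⟩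
        e2 (Or.inl rfl)
  have hpi := Real.pi_pos
  have c1 : |m * Real.pi / (A - 2 * ε)| ≤ 2 * (m * Real.pi / A) := by
    rw [abs_of_nonneg (div_nonneg (by positivity) (by linarith))]
    rw [div_le_iff₀ (by linarith)]
    have h6 : (m * Real.pi / A) * A = m * Real.pi := div_mul_cancel₀ _ hA.ne'
    have h7 : 0 ≤ m * Real.pi / A := by positivity
    nlinarith
  have c2 : |n * Real.pi / (B - 2 * ε)| ≤ 2 * (n * Real.pi / B) := by
    rw [abs_of_nonneg (div_nonneg (by positivity) (by linarith))]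
    rw [div_le_iff₀ (by linarith)]
    have h6 : (n * Real.pi / B) * B = n * Real.pi := div_mul_cancel₀ _ hB.ne'
    have h7 : 0 ≤ n * Real.pi / B := by positivity
    nlinarith
  unfold bd
  refine (abs_add_le _ _).trans ?_
  rw [abs_mul, abs_mul]
  have j1 := mul_le_mul c1 i1 (abs_nonneg _) (by positivity)
  have j2 := mul_le_mul c2 i2 (abs_nonneg _) (by positivity)
  refine (add_le_add j1 j2).trans ?_
  have k1 : 2 * (m * Real.pi / A) * (2 * η * (B - ε - ε)) ≤ 2 * (m * Real.pi / A) * (2 * η * B) := by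
    apply mul_le_mul_of_nonneg_left _ (by positivity)
    apply mul_le_mul_of_nonneg_left _ (by positivity)
    linarith
  have k2 : 2 * (n * Real.pi / B) * (2 * η * (A - ε - ε)) ≤ 2 * (n * Real.pi / B) * (2 * η * A) := by
    apply mul_le_mul_of_nonneg_left _ (by positivity)
    apply mul_le_mul_of_nonneg_left _ (by positivity)
    linarith
  have k3 : η * M = δ := by rw [hη]; exact div_mul_cancel₀ _ hMpos.ne'
  have k4 : 2 * (m * Real.pi / A) * (2 * η * B) + 2 * (n * Real.pi / B) * (2 * η * A) = η * (M - 1) := by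
    rw [hM]; ring
  nlinarith

end Pool.Agent.H74.CD.T.BDL
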