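import Pool.Agent.H74.CD.Stm

/-! CD-CEL: the coefficients on the smaller rectangle. -/

set_option autoImplicit false

namespace Pool.Agent.H74.CD.T.CEL

open MeasureTheory Filter Topology Set intervalIntegral

theorem L1 {A ε K η : ℝ} {f g : ℝ → ℝ} (hε : 0 < ε) (hA : 2 * ε < A) (hf : Continuous f) (hg : Continuous g)
    (hK : ∀ x, |f x| ≤ K) (hη : ∀ x ∈ Icc ε (A - ε), |f x - g x| ≤ η) (hη0 : 0 ≤ η) :
    |(∫ x in (0 : ℝ)..A, f x) - ∫ x in ε..(A - ε), g x| ≤ 2 * ε * K + A * η := by
  have e1 : (∫ x in (0 : ℝ)..A, f x) - ∫ x in ε..(A - ε), g x =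
      (∫ x in (0 : ℝ)..ε, f x) + (∫ x in (A - ε)..A, f x) + ∫ x in ε..(A - ε), (f x - g x) := by
    rw [intervalIntegral.integral_sub (hf.intervalIntegrable _ _) (hg.intervalIntegrable _ _),
      ← intervalIntegral.integral_add_adjacent_intervals (hf.intervalIntegrable 0 ε) (hf.intervalIntegrable ε A),
      ← intervalIntegral.integral_add_adjacent_intervals (hf.intervalIntegrable ε (A - ε)) (hf.intervalIntegrable (A - ε) A)]
    ring
  have h1 : |∫ x in (0 : ℝ)..ε, f x| ≤ K * ε := by
    have := intervalIntegral.norm_integral_le_of_norm_le_const (a := 0) (b := ε) (f := f) (C := K) (fun x _ => hK x)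
    rwa [Real.norm_eq_abs, sub_zero, abs_of_pos hε] at this
  have h2 : |∫ x in (A - ε)..A, f x| ≤ K * ε := by
    have := intervalIntegral.norm_integral_le_of_norm_le_const (a := A - ε) (b := A) (f := f) (C := K) (fun x _ => hK x)
    rwa [Real.norm_eq_abs, sub_sub_cancel, abs_of_pos hε] at this
  have h3 : |∫ x in ε..(A - ε), (f x - g x)| ≤ η * A := by
    have := intervalIntegral.norm_integral_le_of_norm_le_const (a := ε) (b := A - ε) (f := fun x => f x - g x) (C := η)
      (fun x hx => by
        rw [uIoc_of_le (by linarith)] at hx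
        exact hη x ⟨hx.1.le, hx.2⟩)
    rw [Real.norm_eq_abs, abs_of_pos (by linarith : 0 < A - ε - ε)] at this
    refine this.trans (mul_le_mul_of_nonneg_left (by linarith) hη0)
  rw [e1]
  refine (abs_add_le _ _).trans ?_
  have := abs_add_le (∫ x in (0 : ℝ)..ε, f x) (∫ x in (A - ε)..A, f x)
  linarith

theorem md_le (m : ℕ) (p q x : ℝ) : |md m p q x| ≤ 1 := Real.abs_sin_le_one _

theorem md_cont (m : ℕ) (p q : ℝ) : Continuous (md m p q) := by
  unfold md
  fun_prop

theorem md_diff {A ε x : ℝ} (m : ℕ) (hε : 0 < ε) (hA : 4 * ε < A) (hx : x ∈ Icc ε (A - ε)) :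
    |md m 0 A x - md m ε (A - ε) x| ≤ 2 * (m * Real.pi) * ε / A := by
  have hA0 : 0 < A := by linarith
  unfold md
  have h1 : ∀ a b : ℝ, |Real.sin a - Real.sin b| ≤ |a - b| := by
    intro a b
    have := Real.lipschitzWith_sin.dist_le_mul a b
    simpa [Real.dist_eq] using this
  refine (h1 _ _).trans ?_
  have hA2 : 0 < A - ε - ε := by linarith
  have e1 : m * Real.pi * (x - 0) / (A - 0) - m * Real.pi * (x - ε) / (A - ε - ε) =
      m * Real.pi * (ε * (A - 2 * x)) / (A * (A - ε - ε)) := by
    rw [sub_zero, sub_zero]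
    field_simp
    ring
  rw [e1, abs_div, abs_of_pos (by positivity : 0 < A * (A - ε - ε)), abs_mul,
    abs_of_nonneg (by positivity : 0 ≤ (m : ℝ) * Real.pi), abs_mul, abs_of_pos hε]
  have h2 : |A - 2 * x| ≤ A := by
    rw [abs_le]
    constructor <;> linarith [hx.1, hx.2]
  rw [div_le_div_iff₀ (by positivity) hA0]
  have h3 : 0 ≤ (m : ℝ) * Real.pi * ε := by positivity
  calc m * Real.pi * (ε * |A - 2 * x|) * A ≤ m * Real.pi * (ε * A) * A := by gcongr
    _ = (m * Real.pi * ε) * A * A := by ring
    _ ≤ (m * Real.pi * ε) * A * (2 * (A - ε - ε)) := mul_le_mul_of_nonneg_left (by linarith) (by positivity)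
    _ = _ := by ring

/-- clamp -/
noncomputable def cl (A x : ℝ) : ℝ := max 0 (min x A)

theorem cl_mem {A : ℝ} (hA : 0 < A) (x : ℝ) : cl A x ∈ Icc 0 A :=
  ⟨le_max_left _ _, max_le hA.le (min_le_right _ _)⟩

theorem cl_eq {A x : ℝ} (hx : x ∈ Icc 0 A) : cl A x = x := by
  unfold cl
  rw [min_eq_left hx.2, max_eq_right hx.1]

theorem cl_cont (A : ℝ) : Continuous (cl A) := by
  unfold cl
  fun_prop

theorem core {A B ε M : ℝ} (V : ℝ → ℝ → ℝ) (hV : Continuous fun q : ℝ × ℝ => V q.1 q.2) (hM : ∀ x y, |V x y| ≤ M)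
    (hε : 0 < ε) (hA : 4 * ε < A) (hB : 4 * ε < B) (m n : ℕ) :
    |coefE A B ε m n V - coef A B m n V| ≤
      2 * ε * (M * B) + A * (2 * ε * M + B * (M * (2 * (m * Real.pi) * ε / A + 2 * (n * Real.pi) * ε / B))) := by
  have hA0 : 0 < A := by linarith
  have hB0 : 0 < B := by linarith
  have hM0 : 0 ≤ M := (abs_nonneg _).trans (hM 0 0)
  have hη : 0 ≤ M * (2 * (m * Real.pi) * ε / A + 2 * (n * Real.pi) * ε / B) := by positivity
  rw [abs_sub_comm]
  unfold coef coefE
  refine L1 hε (by linarith) ?_ ?_ (fun x => ?_) (fun x hx => ?_) (by positivity)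
  · refine intervalIntegral.continuous_parametric_intervalIntegral_of_continuous' ?_ _ _
    exact hV.mul (((md_cont m 0 A).comp continuous_fst).mul ((md_cont n 0 B).comp continuous_snd))
  · refine intervalIntegral.continuous_parametric_intervalIntegral_of_continuous' ?_ _ _
    exact hV.mul (((md_cont m ε (A - ε)).comp continuous_fst).mul ((md_cont n ε (B - ε)).comp continuous_snd))
  · have h1 := intervalIntegral.norm_integral_le_of_norm_le_const (a := 0) (b := B)
      (f := fun y => V x y * (md m 0 A x * md n 0 B y)) (C := M) (fun y _ => by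
        rw [Real.norm_eq_abs, abs_mul, abs_mul]
        have h2 := md_le m 0 A x
        have h3 := md_le n 0 B y
        calc |V x y| * (|md m 0 A x| * |md n 0 B y|) ≤ M * (1 * 1) := by
              gcongr
              exact hM x y
          _ = M := by ring)
    rwa [Real.norm_eq_abs, sub_zero, abs_of_pos hB0] at h1
  · have hVx : Continuous (V x) := hV.comp (by fun_prop : Continuous fun y : ℝ => (x, y))
    refine L1 hε (by linarith) ?_ ?_ (fun y => ?_) (fun y hy => ?_) hη
    · exact hVx.mul (continuous_const.mul (md_cont n 0 B))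
    · exact hVx.mul (continuous_const.mul (md_cont n ε (B - ε)))
    · rw [abs_mul, abs_mul]
      have h2 := md_le m 0 A x
      have h3 := md_le n 0 B y
      calc |V x y| * (|md m 0 A x| * |md n 0 B y|) ≤ M * (1 * 1) := by
            gcongr
            exact hM x y
        _ = M := by ring
    · have h2 := md_diff m hε hA hx
      have h3 := md_diff n hε hB hy
      have h4 := md_le n 0 B y
      have h5 := md_le m ε (A - ε) x
      have e1 : V x y * (md m 0 A x * md n 0 B y) - V x y * (md m ε (A - ε) x * md n ε (B - ε) y) =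
          V x y * ((md m 0 A x - md m ε (A - ε) x) * md n 0 B y +
            md m ε (A - ε) x * (md n 0 B y - md n ε (B - ε) y)) := by ring
      rw [e1, abs_mul]
      refine mul_le_mul (hM x y) ?_ (abs_nonneg _) hM0
      refine (abs_add_le _ _).trans ?_
      rw [abs_mul, abs_mul]
      refine add_le_add ?_ ?_
      · calc _ ≤ (2 * (m * Real.pi) * ε / A) * 1 := mul_le_mul h2 h4 (abs_nonneg _) (by positivity)
          _ = _ := mul_one _
      · calc _ ≤ 1 * (2 * (n * Real.pi) * ε / B) := mul_le_mul h5 h3 (abs_nonneg _) zero_le_one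
          _ = _ := one_mul _

theorem main : S_CEL := by
  intro A B s₁ s₂ w hA hB hw m n δ hδ
  have hcomp : IsCompact (Icc s₁ s₂ ×ˢ (Icc 0 A ×ˢ Icc 0 B) : Set (ℝ × ℝ × ℝ)) :=
    isCompact_Icc.prod (isCompact_Icc.prod isCompact_Icc)
  obtain ⟨M', hM'⟩ := hcomp.exists_bound_of_continuousOn hw
  set M := max M' 0 with hM
  have hM0 : 0 ≤ M := le_max_right _ _
  set C : ℝ := 2 * (M * B) + A * (2 * M + B * (M * (2 * (m * Real.pi) / A + 2 * (n * Real.pi) / B))) with hC
  have hC0 : 0 ≤ C := by positivity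
  refine ⟨min (min (A / 4) (B / 4)) (δ / (C + 1)), by positivity, ?_, ?_, ?_⟩
  · have : min (min (A / 4) (B / 4)) (δ / (C + 1)) ≤ A / 4 := (min_le_left _ _).trans (min_le_left _ _)
    linarith
  · have : min (min (A / 4) (B / 4)) (δ / (C + 1)) ≤ B / 4 := (min_le_left _ _).trans (min_le_right _ _)
    linarith
  · intro ε hε hε0 t ht
    have h1 : ε < A / 4 := hε0.trans_le ((min_le_left _ _).trans (min_le_left _ _))
    have h2 : ε < B / 4 := hε0.trans_le ((min_le_left _ _).trans (min_le_right _ _))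
    have h3 : ε < δ / (C + 1) := hε0.trans_le (min_le_right _ _)
    set V : ℝ → ℝ → ℝ := fun x y => w t (cl A x) (cl B y) with hV
    have hVc : Continuous fun q : ℝ × ℝ => V q.1 q.2 := by
      have h4 : Continuous fun q : ℝ × ℝ => (t, cl A q.1, cl B q.2) :=
        continuous_const.prodMk (((cl_cont A).comp continuous_fst).prodMk ((cl_cont B).comp continuous_snd))
      exact hw.comp_continuous h4 fun q => ⟨ht, cl_mem hA _, cl_mem hB _⟩
    have hVM : ∀ x y, |V x y| ≤ M := fun x y =>
      (hM' (t, cl A x, cl B y) ⟨ht, cl_mem hA _, cl_mem hB _⟩).trans (le_max_left _ _)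
    have e1 : coef A B m n (w t) = coef A B m n V := by
      unfold coef
      refine intervalIntegral.integral_congr fun x hx => ?_
      refine intervalIntegral.integral_congr fun y hy => ?_
      rw [uIcc_of_le hA.le] at hx
      rw [uIcc_of_le hB.le] at hy
      simp only [hV]
      rw [cl_eq hx, cl_eq hy]
    have e2 : coefE A B ε m n (w t) = coefE A B ε m n V := by
      unfold coefE
      refine intervalIntegral.integral_congr fun x hx => ?_
      refine intervalIntegral.integral_congr fun y hy => ?_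
      rw [uIcc_of_le (by linarith)] at hx
      rw [uIcc_of_le (by linarith)] at hy
      simp only [hV]
      rw [cl_eq ⟨by linarith [hx.1], by linarith [hx.2]⟩, cl_eq ⟨by linarith [hy.1], by linarith [hy.2]⟩]
    rw [e1, e2]
    refine (core V hVc hVM hε (by linarith) (by linarith) m n).trans ?_
    have e3 : 2 * ε * (M * B) + A * (2 * ε * M + B * (M * (2 * (m * Real.pi) * ε / A + 2 * (n * Real.pi) * ε / B))) =
        ε * C := by
      rw [hC]; ring
    rw [e3]
    rw [lt_div_iff₀ (by positivity)] at h3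
    nlinarith

end Pool.Agent.H74.CD.T.CEL
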