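import Pool.Agent.H74.CD.Stm

/-! # CD-COI: coincidences of the values of `α m² + β n²` (helper56) -/

set_option autoImplicit false

namespace Pool.Agent.H74.CD.T.COI

open Finset Pool.Agent.H74.CD

/-- the solutions -/
noncomputable def Sol (α β : ℝ) (N : ℕ) : Finset (ℕ × ℕ × ℕ × ℕ) :=
  (Finset.Ico N (2 * N) ×ˢ Finset.Ico N (2 * N) ×ˢ Finset.Ico N (2 * N) ×ˢ Finset.Ico N (2 * N)).filter
    (fun v : ℕ × ℕ × ℕ × ℕ => α * (v.1 : ℝ) ^ 2 + β * (v.2.1 : ℝ) ^ 2 =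
      α * (v.2.2.1 : ℝ) ^ 2 + β * (v.2.2.2 : ℝ) ^ 2)

lemma mem_Sol {α β : ℝ} {N : ℕ} {v : ℕ × ℕ × ℕ × ℕ} : v ∈ Sol α β N ↔
    ((N ≤ v.1 ∧ v.1 < 2 * N) ∧ (N ≤ v.2.1 ∧ v.2.1 < 2 * N) ∧ (N ≤ v.2.2.1 ∧ v.2.2.1 < 2 * N) ∧
      (N ≤ v.2.2.2 ∧ v.2.2.2 < 2 * N)) ∧ α * (v.1 : ℝ) ^ 2 + β * (v.2.1 : ℝ) ^ 2 =
      α * (v.2.2.1 : ℝ) ^ 2 + β * (v.2.2.2 : ℝ) ^ 2 := by
  unfold Sol
  simp only [Finset.mem_filter, Finset.mem_product, Finset.mem_Ico]

/-- solutions with `m = m'` -/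
lemma diag {α β : ℝ} (hβ : 0 < β) (N : ℕ) :
    ((Sol α β N).filter (fun v => v.1 = v.2.2.1)).card ≤ N ^ 2 := by
  have hsub : (Sol α β N).filter (fun v => v.1 = v.2.2.1) ⊆
      (Finset.Ico N (2 * N) ×ˢ Finset.Ico N (2 * N)).image (fun w => (w.1, w.2, w.1, w.2)) := by
    intro v hv
    rw [Finset.mem_filter, mem_Sol] at hv
    obtain ⟨⟨⟨h1, h2, h3, h4⟩, he⟩, hd⟩ := hv
    rw [Finset.mem_image]
    refine ⟨(v.1, v.2.1), ?_, ?_⟩
    · simp only [Finset.mem_product, Finset.mem_Ico]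
      exact ⟨h1, h2⟩
    · obtain ⟨m, n, m', n'⟩ := v
      simp only at hd he ⊢
      subst hd
      have h5 : β * ((n : ℝ) ^ 2 - (n' : ℝ) ^ 2) = 0 := by linear_combination he
      have h6 : (n : ℝ) ^ 2 - (n' : ℝ) ^ 2 = 0 := (mul_eq_zero.1 h5).resolve_left hβ.ne'
      have h7 : (n : ℝ) ^ 2 = (n' : ℝ) ^ 2 := by linarith
      have h8 : n ^ 2 = n' ^ 2 := by exact_mod_cast h7
      have h9 : n = n' := Nat.pow_left_injective (n := 2) (by norm_num) h8
      rw [h9]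
  refine (Finset.card_le_card hsub).trans (Finset.card_image_le.trans ?_)
  rw [Finset.card_product, Nat.card_Ico]
  have : 2 * N - N = N := by omega
  rw [this, sq]

/-- the exchange `(m, n) ↔ (m', n')` -/
lemma swap (α β : ℝ) (N : ℕ) : ((Sol α β N).filter (fun v => v.1 < v.2.2.1)).card ≤
    ((Sol α β N).filter (fun v => v.2.2.1 < v.1)).card := by
  apply Finset.card_le_card_of_injOn (fun v => (v.2.2.1, v.2.2.2, v.1, v.2.1))
  · intro v hv
    rw [Finset.mem_coe, Finset.mem_filter, mem_Sol] at hv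
    rw [Finset.mem_coe, Finset.mem_filter, mem_Sol]
    obtain ⟨⟨⟨h1, h2, h3, h4⟩, he⟩, hd⟩ := hv
    exact ⟨⟨⟨h3, h4, h1, h2⟩, he.symm⟩, hd⟩
  · rintro ⟨a, b, c, d⟩ _ ⟨a', b', c', d'⟩ _ h
    simp only [Prod.mk.injEq] at h ⊢
    exact ⟨h.2.2.1, h.2.2.2, h.1, h.2.1⟩

/-- the arithmetic of one solution -/
lemma arith {α β : ℝ} (hβ : 0 < β) {p q : ℕ} (hp : 0 < p) (hq : 0 < q) (h : α * q = β * p)
    {m n m' n' : ℕ} (he : α * (m : ℝ) ^ 2 + β * (n : ℝ) ^ 2 = α * (m' : ℝ) ^ 2 + β * (n' : ℝ) ^ 2)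
    (hm : m' < m) : n < n' ∧ p * (m - m') * (m + m') = q * (n' - n) * (n' + n) := by
  have h1 : β * ((p : ℝ) * ((m : ℝ) ^ 2 - (m' : ℝ) ^ 2) - q * ((n' : ℝ) ^ 2 - (n : ℝ) ^ 2)) = 0 := by
    linear_combination q * he - ((m : ℝ) ^ 2 - (m' : ℝ) ^ 2) * h
  have h2 := (mul_eq_zero.1 h1).resolve_left hβ.ne'
  have h3 : (p : ℝ) * ((m : ℝ) ^ 2 - (m' : ℝ) ^ 2) = q * ((n' : ℝ) ^ 2 - (n : ℝ) ^ 2) := by linarith
  have hp' : (0 : ℝ) < p := by exact_mod_cast hp
  have hq' : (0 : ℝ) < q := by exact_mod_cast hq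
  have hmm : (m' : ℝ) < m := by exact_mod_cast hm
  have hm0 : (0 : ℝ) ≤ m' := by positivity
  have hn0 : (0 : ℝ) ≤ n' := by positivity
  have hn1 : (0 : ℝ) ≤ n := by positivity
  have hnn : n < n' := by
    by_contra hcon
    push Not at hcon
    have h4 : (n' : ℝ) ≤ n := by exact_mod_cast hcon
    have h5 : 0 < (p : ℝ) * ((m : ℝ) ^ 2 - (m' : ℝ) ^ 2) := by
      apply mul_pos hp'
      nlinarith
    have h6 : (q : ℝ) * ((n' : ℝ) ^ 2 - (n : ℝ) ^ 2) ≤ 0 := by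
      apply mul_nonpos_of_nonneg_of_nonpos hq'.le
      nlinarith
    linarith
  refine ⟨hnn, ?_⟩
  have h7 : ((p * (m - m') * (m + m') : ℕ) : ℝ) = ((q * (n' - n) * (n' + n) : ℕ) : ℝ) := by
    push_cast [Nat.cast_sub hm.le, Nat.cast_sub hnn.le]
    linear_combination h3
  exact_mod_cast h7

lemma gt (hE : S_ENE) {α β : ℝ} (hβ : 0 < β) {p q : ℕ} (hp : 0 < p) (hq : 0 < q)
    (h : α * q = β * p) (N : ℕ) (hN : 1 ≤ N) :
    (((Sol α β N).filter (fun v => v.2.2.1 < v.1)).card : ℝ) ≤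
      2 * ((4 * (p + q) * N : ℕ) : ℝ) ^ 2 * (1 + Real.log ((4 * (p + q) * N : ℕ) : ℝ)) := by
  obtain ⟨M, hM⟩ : ∃ M, M = 4 * (p + q) * N := ⟨_, rfl⟩
  rw [← hM]
  have hM1 : 1 ≤ M := by
    rw [hM]
    have : 0 < 4 * (p + q) * N := by positivity
    exact this
  refine le_trans ?_ (hE M hM1)
  rw [Nat.cast_le]
  apply Finset.card_le_card_of_injOn (fun v => (p * (v.1 - v.2.2.1), v.1 + v.2.2.1,
    q * (v.2.2.2 - v.2.1), v.2.2.2 + v.2.1))
  · rintro ⟨m, n, m', n'⟩ hv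
    rw [Finset.mem_coe, Finset.mem_filter, mem_Sol] at hv
    obtain ⟨⟨⟨h1, h2, h3, h4⟩, he⟩, hd⟩ := hv
    simp only at h1 h2 h3 h4 he hd
    obtain ⟨hn, hpr⟩ := arith hβ hp hq h he hd
    rw [Finset.mem_coe, Finset.mem_filter]
    simp only [Finset.mem_product, Finset.mem_Icc]
    have e1 : 4 * N ≤ M := by
      rw [hM]
      calc 4 * N = 4 * 1 * N := by ring
        _ ≤ 4 * (p + q) * N := Nat.mul_le_mul_right _ (Nat.mul_le_mul_left _ (by omega))
    have e2 : p * (m - m') ≤ M := by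
      rw [hM]
      calc p * (m - m') ≤ (p + q) * N := Nat.mul_le_mul (by omega) (by omega)
        _ = 1 * ((p + q) * N) := by ring
        _ ≤ 4 * ((p + q) * N) := Nat.mul_le_mul_right _ (by norm_num)
        _ = 4 * (p + q) * N := by ring
    have e3 : q * (n' - n) ≤ M := by
      rw [hM]
      calc q * (n' - n) ≤ (p + q) * N := Nat.mul_le_mul (by omega) (by omega)
        _ = 1 * ((p + q) * N) := by ring
        _ ≤ 4 * ((p + q) * N) := Nat.mul_le_mul_right _ (by norm_num)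
        _ = 4 * (p + q) * N := by ring
    refine ⟨⟨⟨?_, e2⟩, ⟨by omega, by omega⟩, ⟨?_, e3⟩, ⟨by omega, by omega⟩⟩, hpr⟩
    · exact Nat.mul_pos hp (by omega)
    · exact Nat.mul_pos hq (by omega)
  · rintro ⟨m, n, m', n'⟩ hv ⟨m2, n2, m2', n2'⟩ hv2 heq
    rw [Finset.mem_coe, Finset.mem_filter, mem_Sol] at hv hv2
    obtain ⟨⟨-, he⟩, hd⟩ := hv
    obtain ⟨⟨-, he2⟩, hd2⟩ := hv2
    simp only at he hd he2 hd2
    have hn := (arith hβ hp hq h he hd).1
    have hn2 := (arith hβ hp hq h he2 hd2).1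
    simp only [Prod.mk.injEq] at heq ⊢
    obtain ⟨g1, g2, g3, g4⟩ := heq
    have g5 := Nat.eq_of_mul_eq_mul_left hp g1
    have g6 := Nat.eq_of_mul_eq_mul_left hq g3
    refine ⟨by omega, by omega, by omega, by omega⟩

theorem main (hE : S_ENE) : S_COI := by
  intro α β hα hβ
  by_cases hrat : ∃ p q : ℕ, 0 < p ∧ 0 < q ∧ α * q = β * p
  · obtain ⟨p, q, hp, hq, h⟩ := hrat
    obtain ⟨K, hK⟩ : ∃ K : ℕ, K = 4 * (p + q) := ⟨_, rfl⟩
    have hK1 : (1 : ℝ) ≤ K := by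
      have : 1 ≤ K := by omega
      exact_mod_cast this
    have hlK : 0 ≤ Real.log K := Real.log_nonneg hK1
    refine ⟨1 + 4 * (K : ℝ) ^ 2 * (1 + Real.log K), by positivity, fun N hN => ?_⟩
    change ((Sol α β N).card : ℝ) ≤ _
    have hN1 : (1 : ℝ) ≤ N := by exact_mod_cast hN
    have hlN : 0 ≤ Real.log N := Real.log_nonneg hN1
    have h1 := diag (α := α) hβ N
    have h2 := gt hE hβ hp hq h N hN
    have h3 := swap α β N
    have hsplit : (Sol α β N).card ≤ ((Sol α β N).filter (fun v => v.1 = v.2.2.1)).card +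
        ((Sol α β N).filter (fun v => v.2.2.1 < v.1)).card +
        ((Sol α β N).filter (fun v => v.1 < v.2.2.1)).card := by
      have hsub : Sol α β N ⊆ ((Sol α β N).filter (fun v => v.1 = v.2.2.1) ∪
          (Sol α β N).filter (fun v => v.2.2.1 < v.1)) ∪
          (Sol α β N).filter (fun v => v.1 < v.2.2.1) := by
        intro v hv
        simp only [Finset.mem_union, Finset.mem_filter, hv, true_and]
        omega
      refine (Finset.card_le_card hsub).trans ((Finset.card_union_le _ _).trans ?_)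
      exact Nat.add_le_add_right (Finset.card_union_le _ _) _
    have h4 : ((Sol α β N).card : ℝ) ≤ (N : ℝ) ^ 2 +
        2 * (((Sol α β N).filter (fun v => v.2.2.1 < v.1)).card : ℝ) := by
      have : (Sol α β N).card ≤ N ^ 2 + 2 * ((Sol α β N).filter (fun v => v.2.2.1 < v.1)).card := by
        omega
      exact_mod_cast this
    have h5 : ((4 * (p + q) * N : ℕ) : ℝ) = K * N := by rw [hK]; push_cast; ring
    rw [h5, Real.log_mul (by positivity) (by positivity)] at h2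
    have h6 : 1 + (Real.log K + Real.log N) ≤ (1 + Real.log K) * (1 + Real.log N) := by
      nlinarith [mul_nonneg hlK hlN]
    have h7 : 2 * ((K : ℝ) * N) ^ 2 * (1 + (Real.log K + Real.log N)) ≤
        2 * ((K : ℝ) * N) ^ 2 * ((1 + Real.log K) * (1 + Real.log N)) :=
      mul_le_mul_of_nonneg_left h6 (by positivity)
    have h8 : (N : ℝ) ^ 2 ≤ (N : ℝ) ^ 2 * (1 + Real.log N) := by
      have : 0 ≤ (N : ℝ) ^ 2 * Real.log N := by positivity
      linarith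
    calc ((Sol α β N).card : ℝ) ≤ (N : ℝ) ^ 2 +
          2 * (((Sol α β N).filter (fun v => v.2.2.1 < v.1)).card : ℝ) := h4
      _ ≤ (N : ℝ) ^ 2 * (1 + Real.log N) +
          2 * (2 * ((K : ℝ) * N) ^ 2 * ((1 + Real.log K) * (1 + Real.log N))) := by linarith
      _ = _ := by ring
  · refine ⟨1, one_pos, fun N hN => ?_⟩
    change ((Sol α β N).card : ℝ) ≤ _
    have hN1 : (1 : ℝ) ≤ N := by exact_mod_cast hN
    have hlN : 0 ≤ Real.log N := Real.log_nonneg hN1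
    have hall : Sol α β N = (Sol α β N).filter (fun v => v.1 = v.2.2.1) := by
      symm
      rw [Finset.filter_eq_self]
      rintro ⟨m, n, m', n'⟩ hv
      rw [mem_Sol] at hv
      obtain ⟨-, he⟩ := hv
      simp only at he ⊢
      by_contra hne
      apply hrat
      have h1 : α * (((m : ℝ)) ^ 2 - (m' : ℝ) ^ 2) = β * ((n' : ℝ) ^ 2 - (n : ℝ) ^ 2) := by
        linear_combination he
      have h2 : ((m : ℝ)) ^ 2 - (m' : ℝ) ^ 2 ≠ 0 := by
        intro h0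
        apply hne
        have h3 : ((m : ℝ)) ^ 2 = (m' : ℝ) ^ 2 := by linarith
        have h4 : m ^ 2 = m' ^ 2 := by exact_mod_cast h3
        exact Nat.pow_left_injective (n := 2) (by norm_num) h4
      refine ⟨((n' : ℤ) ^ 2 - (n : ℤ) ^ 2).natAbs, ((m : ℤ) ^ 2 - (m' : ℤ) ^ 2).natAbs, ?_, ?_, ?_⟩
      · rw [Int.natAbs_pos]
        intro h0
        have h5 : (n' : ℝ) ^ 2 - (n : ℝ) ^ 2 = 0 := by exact_mod_cast h0
        rw [h5, mul_zero, mul_eq_zero] at h1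
        rcases h1 with h1 | h1
        · exact hα.ne' h1
        · exact h2 h1
      · rw [Int.natAbs_pos]
        intro h0
        apply h2
        exact_mod_cast h0
      · rw [Nat.cast_natAbs, Nat.cast_natAbs]
        push_cast
        rw [← abs_of_pos hα, ← abs_of_pos hβ, ← abs_mul, ← abs_mul, h1]
    rw [hall]
    have h1 := diag (α := α) hβ N
    have h2 : (((Sol α β N).filter (fun v => v.1 = v.2.2.1)).card : ℝ) ≤ (N : ℝ) ^ 2 := by
      exact_mod_cast h1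
    have : 0 ≤ (N : ℝ) ^ 2 * Real.log N := by positivity
    linarith

end Pool.Agent.H74.CD.T.COI
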