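import Pool.Agent.H74.CD.Stm

/-!
# Project CD: completeness in two variables (CPL)
-/

set_option autoImplicit false

namespace Pool.Agent.H74.CD.T.CPL

open MeasureTheory Filter Topology Set intervalIntegral

open Pool.Agent.H74.CD

theorem continuous_md (m : ℕ) (p q : ℝ) : Continuous (md m p q) := by
  unfold md
  fun_prop

theorem main (h : S_CPL1) : S_CPL := by
  intro A B v hA hB hv hc
  -- the extension by projection
  set V : ℝ → ℝ → ℝ := fun x y => v (projIcc 0 A hA.le x) (projIcc 0 B hB.le y) with hV
  have hVc : Continuous (Function.uncurry V) := by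
    have h1 : Continuous (fun q : ℝ × ℝ => (((projIcc 0 A hA.le q.1 : Icc (0:ℝ) A) : ℝ),
        ((projIcc 0 B hB.le q.2 : Icc (0:ℝ) B) : ℝ))) := by
      refine Continuous.prodMk ?_ ?_
      · exact continuous_subtype_val.comp (continuous_projIcc.comp continuous_fst)
      · exact continuous_subtype_val.comp (continuous_projIcc.comp continuous_snd)
    have h2 := hv.comp_continuous h1 (fun q => ⟨Subtype.mem _, Subtype.mem _⟩)
    exact h2
  have hVe : ∀ x ∈ Icc 0 A, ∀ y ∈ Icc 0 B, V x y = v x y := by
    intro x hx y hy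
    simp only [hV]
    rw [projIcc_of_mem hA.le hx, projIcc_of_mem hB.le hy]
  have hF : ∀ n : ℕ, 1 ≤ n → ∀ x ∈ Ioo 0 A, ∫ y in (0 : ℝ)..B, V x y * md n 0 B y = 0 := by
    intro n hn
    refine h A hA (fun x => ∫ y in (0 : ℝ)..B, V x y * md n 0 B y) ?_ ?_
    · refine Continuous.continuousOn ?_
      refine intervalIntegral.continuous_parametric_intervalIntegral_of_continuous' ?_ 0 B
      exact hVc.mul ((continuous_md n 0 B).comp continuous_snd)
    · intro m hm
      have h3 := hc m n hm hn
      unfold coef at h3
      refine Eq.trans ?_ h3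
      refine intervalIntegral.integral_congr ?_
      intro x hx
      rw [uIcc_of_le hA.le] at hx
      have h5 : (∫ y in (0 : ℝ)..B, V x y * md n 0 B y) * md m 0 A x =
          ∫ y in (0 : ℝ)..B, V x y * md n 0 B y * md m 0 A x :=
        (intervalIntegral.integral_mul_const (md m 0 A x) (fun y => V x y * md n 0 B y)).symm
      have h6 : (∫ y in (0 : ℝ)..B, V x y * md n 0 B y * md m 0 A x) =
          ∫ y in (0 : ℝ)..B, v x y * (md m 0 A x * md n 0 B y) := by
        refine intervalIntegral.integral_congr ?_
        intro y hy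
        rw [uIcc_of_le hB.le] at hy
        have h7 := hVe x hx y hy
        show V x y * md n 0 B y * md m 0 A x = v x y * (md m 0 A x * md n 0 B y)
        rw [h7]
        ring
      exact h5.trans h6
  intro x hx y hy
  have h4 := h B hB (fun y => V x y) ?_ (fun n hn => hF n hn x hx) y hy
  · rw [← hVe x ⟨hx.1.le, hx.2.le⟩ y ⟨hy.1.le, hy.2.le⟩]
    exact h4
  · exact (hVc.comp (Continuous.prodMk_right x)).continuousOn

end Pool.Agent.H74.CD.T.CPL
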