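import Pool.Agent.H74.CD.Stm

/-! CD-CPL1 (helper86): completeness of the sines. -/

set_option autoImplicit false

namespace Pool.Agent.H74.CD.T.CPL1

open Pool.Agent.H74.CD MeasureTheory Set Polynomial

/-- the angle -/
noncomputable def th (A x : ℝ) : ℝ := Real.pi * x / A

lemma th_cont (A : ℝ) : Continuous (th A) := by unfold th; fun_prop

lemma md_eq (m : ℕ) (A x : ℝ) : md m 0 A x = Real.sin (m * th A x) := by
  unfold md th
  congr 1
  rw [sub_zero, sub_zero]
  ring

lemma int_all {A : ℝ} (hA : 0 < A) {f : ℝ → ℝ} (hf : ContinuousOn f (Icc 0 A)) {g : ℝ → ℝ}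
    (hg : Continuous g) : IntervalIntegrable (fun x => f x * g x) volume 0 A := by
  apply ContinuousOn.intervalIntegrable
  rw [uIcc_of_le hA.le]
  exact hf.mul hg.continuousOn

lemma powers {A : ℝ} (hA : 0 < A) {f : ℝ → ℝ} (hf : ContinuousOn f (Icc 0 A))
    (h : ∀ m : ℕ, 1 ≤ m → ∫ x in (0 : ℝ)..A, f x * md m 0 A x = 0) (k : ℕ) :
    ∀ m : ℕ, ∫ x in (0 : ℝ)..A, f x * (Real.cos (th A x) ^ k * Real.sin (m * th A x)) = 0 := by
  have hth := th_cont A
  induction k with
  | zero =>
    intro m
    rcases Nat.eq_zero_or_pos m with rfl | hm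
    · simp
    · refine Eq.trans ?_ (h m hm)
      refine intervalIntegral.integral_congr fun x _ => ?_
      simp only [pow_zero, one_mul]
      rw [md_eq]
  | succ k ih =>
    intro m
    rcases m with _ | m
    · simp
    · have h1 := ih (m + 2)
      have h2 := ih m
      have e : ∀ x, f x * (Real.cos (th A x) ^ (k + 1) * Real.sin ((m + 1 : ℕ) * th A x)) =
          (1 / 2) * (f x * (Real.cos (th A x) ^ k * Real.sin ((m + 2 : ℕ) * th A x))) +
          (1 / 2) * (f x * (Real.cos (th A x) ^ k * Real.sin ((m : ℕ) * th A x))) := by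
        intro x
        have e1 : Real.sin ((m + 2 : ℕ) * th A x) = Real.sin ((m + 1 : ℕ) * th A x) * Real.cos (th A x) +
            Real.cos ((m + 1 : ℕ) * th A x) * Real.sin (th A x) := by
          rw [← Real.sin_add]
          congr 1
          push_cast
          ring
        have e2 : Real.sin ((m : ℕ) * th A x) = Real.sin ((m + 1 : ℕ) * th A x) * Real.cos (th A x) -
            Real.cos ((m + 1 : ℕ) * th A x) * Real.sin (th A x) := by
          rw [← Real.sin_sub]
          congr 1
          push_cast
          ring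
        rw [e1, e2, pow_succ]
        ring
      rw [intervalIntegral.integral_congr (fun x _ => e x), intervalIntegral.integral_add,
        intervalIntegral.integral_const_mul, intervalIntegral.integral_const_mul, h1, h2]
      · ring
      · exact (int_all hA hf (by fun_prop)).const_mul _
      · exact (int_all hA hf (by fun_prop)).const_mul _

lemma polys {A : ℝ} (hA : 0 < A) {f : ℝ → ℝ} (hf : ContinuousOn f (Icc 0 A))
    (h : ∀ m : ℕ, 1 ≤ m → ∫ x in (0 : ℝ)..A, f x * md m 0 A x = 0) (q : ℝ[X]) :
    ∫ x in (0 : ℝ)..A, f x * (q.eval (Real.cos (th A x)) * Real.sin (th A x)) = 0 := by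
  have hth := th_cont A
  induction q using Polynomial.induction_on' with
  | add p q hp hq =>
    have e : ∀ x, f x * ((p + q).eval (Real.cos (th A x)) * Real.sin (th A x)) =
        f x * (p.eval (Real.cos (th A x)) * Real.sin (th A x)) +
        f x * (q.eval (Real.cos (th A x)) * Real.sin (th A x)) := by
      intro x
      rw [Polynomial.eval_add]
      ring
    rw [intervalIntegral.integral_congr (fun x _ => e x), intervalIntegral.integral_add, hp, hq, add_zero]
    · exact int_all hA hf (by fun_prop)
    · exact int_all hA hf (by fun_prop)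
  | monomial n a =>
    have h1 := powers hA hf h n 1
    have e : ∀ x, f x * ((Polynomial.monomial n a).eval (Real.cos (th A x)) * Real.sin (th A x)) =
        a * (f x * (Real.cos (th A x) ^ n * Real.sin ((1 : ℕ) * th A x))) := by
      intro x
      rw [Polynomial.eval_monomial, Nat.cast_one, one_mul]
      ring
    rw [intervalIntegral.integral_congr (fun x _ => e x), intervalIntegral.integral_const_mul, h1, mul_zero]

theorem main : S_CPL1 := by
  intro A hA f hf h x0 hx0
  by_contra hne
  have hth := th_cont A
  have hx0' : x0 ∈ Icc 0 A := Ioo_subset_Icc_self hx0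
  -- the bound of `f`
  obtain ⟨M, hM⟩ := isCompact_Icc.exists_bound_of_continuousOn hf
  have hM0 : 0 < M := by
    have h1 := hM x0 hx0'
    rw [Real.norm_eq_abs] at h1
    exact (abs_pos.mpr hne).trans_le h1
  have hthm : ∀ x ∈ Icc 0 A, th A x ∈ Icc 0 Real.pi := by
    intro x hx
    unfold th
    refine ⟨div_nonneg (mul_nonneg Real.pi_pos.le hx.1) hA.le, ?_⟩
    rw [div_le_iff₀ hA]
    exact mul_le_mul_of_nonneg_left hx.2 Real.pi_pos.le
  have hI : 0 < ∫ x in (0 : ℝ)..A, f x * (f x * Real.sin (th A x)) := by
    apply intervalIntegral.integral_pos hA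
    · exact hf.mul (hf.mul (by fun_prop))
    · intro x hx
      have h1 := hthm x (Ioc_subset_Icc_self hx)
      have h2 := Real.sin_nonneg_of_nonneg_of_le_pi h1.1 h1.2
      nlinarith [mul_self_nonneg (f x), mul_nonneg (mul_self_nonneg (f x)) h2]
    · refine ⟨x0, hx0', ?_⟩
      have h1 : 0 < Real.sin (th A x0) := by
        apply Real.sin_pos_of_pos_of_lt_pi
        · unfold th
          exact div_pos (mul_pos Real.pi_pos hx0.1) hA
        · unfold th
          rw [div_lt_iff₀ hA]
          exact mul_lt_mul_of_pos_left hx0.2 Real.pi_pos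
      have h2 : 0 < f x0 * f x0 := mul_self_pos.mpr hne
      nlinarith [mul_pos h2 h1]
  set I := ∫ x in (0 : ℝ)..A, f x * (f x * Real.sin (th A x)) with hIdef
  have hψ : ContinuousOn (fun t => f (A * Real.arccos t / Real.pi)) (Icc (-1) 1) := by
    refine hf.comp (Continuous.continuousOn (by fun_prop)) ?_
    intro t _
    have h1 := Real.arccos_nonneg t
    have h2 := Real.arccos_le_pi t
    refine ⟨by positivity, ?_⟩
    show A * Real.arccos t / Real.pi ≤ A
    rw [div_le_iff₀ Real.pi_pos]
    exact mul_le_mul_of_nonneg_left h2 hA.le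
  obtain ⟨q, hq⟩ := exists_polynomial_near_of_continuousOn (-1) 1 _ hψ (I / (2 * M * A)) (by positivity)
  have h0 := polys hA hf h q
  have hsub : I = ∫ x in (0 : ℝ)..A,
      (f x * (f x * Real.sin (th A x)) - f x * (q.eval (Real.cos (th A x)) * Real.sin (th A x))) := by
    rw [intervalIntegral.integral_sub, h0, sub_zero]
    · apply ContinuousOn.intervalIntegrable
      rw [uIcc_of_le hA.le]
      exact hf.mul (hf.mul (by fun_prop))
    · exact int_all hA hf (by fun_prop)
  have hb : ‖∫ x in (0 : ℝ)..A, (f x * (f x * Real.sin (th A x)) -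
      f x * (q.eval (Real.cos (th A x)) * Real.sin (th A x)))‖ ≤ M * (I / (2 * M * A)) * |A - 0| := by
    apply intervalIntegral.norm_integral_le_of_norm_le_const
    intro x hx
    rw [uIoc_of_le hA.le] at hx
    have hx' := Ioc_subset_Icc_self hx
    have h1 := hthm x hx'
    have h2 := hM x hx'
    have h3 := hq (Real.cos (th A x)) ⟨Real.neg_one_le_cos _, Real.cos_le_one _⟩
    rw [Real.arccos_cos h1.1 h1.2, show A * th A x / Real.pi = x by
      unfold th; field_simp] at h3
    have h4 := Real.abs_sin_le_one (th A x)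
    rw [show f x * (f x * Real.sin (th A x)) - f x * (q.eval (Real.cos (th A x)) * Real.sin (th A x)) =
      f x * (-(q.eval (Real.cos (th A x)) - f x) * Real.sin (th A x)) by ring, norm_mul, norm_mul, norm_neg,
      Real.norm_eq_abs (Real.sin _), Real.norm_eq_abs (_ - _)]
    apply mul_le_mul h2 _ (by positivity) hM0.le
    calc |q.eval (Real.cos (th A x)) - f x| * |Real.sin (th A x)|
        ≤ |q.eval (Real.cos (th A x)) - f x| * 1 := mul_le_mul_of_nonneg_left h4 (abs_nonneg _)
      _ ≤ _ := by rw [mul_one]; exact h3.le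
  rw [← hsub, Real.norm_eq_abs, abs_of_pos hI, sub_zero, abs_of_pos hA, show M * (I / (2 * M * A)) * A = I / 2 by field_simp] at hb
  linarith

end Pool.Agent.H74.CD.T.CPL1
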