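import Pool.Agent.H74.CD.Stm

/-! # CD-CSQ (helper61) -/

set_option autoImplicit false

namespace Pool.Agent.H74.CD.T.CSQ

open Finset

theorem main : S_CSQ := by
  intro X f
  classical
  have h1 : X.card = ∑ y ∈ X.image f, (X.filter (fun a => f a = y)).card :=
    Finset.card_eq_sum_card_image f X
  have h2 : ((X ×ˢ X).filter (fun v => f v.1 = f v.2)).card =
      ∑ y ∈ X.image f, (X.filter (fun a => f a = y)).card ^ 2 := by
    rw [Finset.card_eq_sum_card_fiberwise (f := fun v : (ℕ × ℕ) × (ℕ × ℕ) => f v.1)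
      (t := X.image f)]
    · refine Finset.sum_congr rfl fun y _ => ?_
      rw [sq, ← Finset.card_product]
      congr 1
      ext ⟨a, b⟩
      simp only [mem_filter, mem_product]
      constructor
      · rintro ⟨⟨⟨ha, hb⟩, h⟩, hy⟩
        exact ⟨⟨ha, hy⟩, hb, h ▸ hy⟩
      · rintro ⟨⟨ha, hy⟩, hb, hy'⟩
        exact ⟨⟨⟨ha, hb⟩, hy.trans hy'.symm⟩, hy⟩
    · rintro ⟨a, b⟩ hv
      rw [mem_coe, mem_filter, mem_product] at hv
      exact mem_coe.2 (mem_image_of_mem f hv.1.1)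
  have h3 := sq_sum_le_card_mul_sum_sq (s := X.image f)
    (f := fun y => ((X.filter (fun a => f a = y)).card : ℝ))
  have h4 : (X.card : ℝ) = ∑ y ∈ X.image f, ((X.filter (fun a => f a = y)).card : ℝ) := by
    exact_mod_cast h1
  have h5 : ((((X ×ˢ X).filter (fun v => f v.1 = f v.2)).card : ℕ) : ℝ) =
      ∑ y ∈ X.image f, ((X.filter (fun a => f a = y)).card : ℝ) ^ 2 := by
    rw [h2]
    push_cast
    rfl
  rw [h4]
  refine h3.trans (le_of_eq ?_)
  rw [← h5]

end Pool.Agent.H74.CD.T.CSQ
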