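import Pool.Agent.H74.CD.Stm

/-! CD-DIV (helper86): the sum over the distinct eigenvalues diverges. -/

set_option autoImplicit false

namespace Pool.Agent.H74.CD.T.DIV

open Pool.Agent.H74.CD Finset

noncomputable def vl (A B : ℝ) (v : ℕ × ℕ) : ℝ :=
  (Real.pi / A) ^ 2 * (v.1 : ℝ) ^ 2 + (Real.pi / B) ^ 2 * (v.2 : ℝ) ^ 2

def OO (i : ℕ) : Finset ℕ := (Finset.Ico (2 ^ i) (2 ^ (i + 1))).image (fun k => 2 * k + 1)

lemma card_OO (i : ℕ) : (OO i).card = 2 ^ i := by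
  rw [OO, Finset.card_image_of_injective _ (fun a b h => by simpa using h), Nat.card_Ico, pow_succ]
  omega

lemma mem_OO {i m : ℕ} (h : m ∈ OO i) : Odd m ∧ 2 ^ (i + 1) ≤ m ∧ m < 2 * 2 ^ (i + 1) := by
  obtain ⟨k, hk, rfl⟩ := Finset.mem_image.mp h
  rw [Finset.mem_Ico, pow_succ] at hk
  refine ⟨⟨k, rfl⟩, ?_, ?_⟩ <;> rw [pow_succ] <;> omega

/-- the values in the dyadic box -/
noncomputable def SS (A B : ℝ) (i : ℕ) : Finset ℝ := (OO i ×ˢ OO i).image (vl A B)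

lemma vl_bounds {A B : ℝ} {i : ℕ} {a : ℝ} (h : a ∈ SS A B i) :
    ((Real.pi / A) ^ 2 + (Real.pi / B) ^ 2) * 4 ^ (i + 1) ≤ a ∧
    (a < ((Real.pi / A) ^ 2 + (Real.pi / B) ^ 2) * 4 ^ (i + 2) ∨
      (Real.pi / A) ^ 2 + (Real.pi / B) ^ 2 = 0) ∧ a ∈ Lam A B := by
  obtain ⟨⟨m, n⟩, hv, rfl⟩ := Finset.mem_image.mp h
  rw [Finset.mem_product] at hv
  obtain ⟨h1, h2, h3⟩ := mem_OO hv.1
  obtain ⟨k1, k2, k3⟩ := mem_OO hv.2
  dsimp only at *
  have hm : ((2 : ℝ) ^ (i + 1)) ^ 2 ≤ (m : ℝ) ^ 2 := by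
    apply pow_le_pow_left₀ (by positivity)
    exact_mod_cast h2
  have hn : ((2 : ℝ) ^ (i + 1)) ^ 2 ≤ (n : ℝ) ^ 2 := by
    apply pow_le_pow_left₀ (by positivity)
    exact_mod_cast k2
  have hm' : (m : ℝ) ^ 2 < (2 * (2 : ℝ) ^ (i + 1)) ^ 2 := by
    apply pow_lt_pow_left₀ _ (by positivity) (by norm_num)
    exact_mod_cast h3
  have hn' : (n : ℝ) ^ 2 < (2 * (2 : ℝ) ^ (i + 1)) ^ 2 := by
    apply pow_lt_pow_left₀ _ (by positivity) (by norm_num)
    exact_mod_cast k3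
  have e1 : ((2 : ℝ) ^ (i + 1)) ^ 2 = 4 ^ (i + 1) := by
    rw [← pow_mul, mul_comm, pow_mul]; norm_num
  have e2 : (2 * (2 : ℝ) ^ (i + 1)) ^ 2 = 4 ^ (i + 2) := by
    rw [mul_pow, e1, pow_succ (4 : ℝ) (i + 1)]; ring
  rw [e1] at hm hn
  rw [e2] at hm' hn'
  have ha : 0 ≤ (Real.pi / A) ^ 2 := sq_nonneg _
  have hb : 0 ≤ (Real.pi / B) ^ 2 := sq_nonneg _
  refine ⟨?_, ?_, m, n, h1, k1, ?_⟩
  · unfold vl
    dsimp only
    nlinarith [mul_le_mul_of_nonneg_left hm ha, mul_le_mul_of_nonneg_left hn hb]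
  · rcases eq_or_lt_of_le ha with h0 | h0
    · rcases eq_or_lt_of_le hb with h0' | h0'
      · right
        rw [← h0, ← h0']
        ring
      · left
        unfold vl
        dsimp only
        nlinarith [mul_le_mul_of_nonneg_left hm'.le ha, mul_lt_mul_of_pos_left hn' h0']
    · left
      unfold vl
      dsimp only
      nlinarith [mul_lt_mul_of_pos_left hm' h0, mul_le_mul_of_nonneg_left hn'.le hb]
  · unfold vl lam
    dsimp only
    ring

lemma card_bound {A B C : ℝ} (hs : S_CSQ) (hC : 0 < C)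
    (h : ∀ N : ℕ, 1 ≤ N →
  (((Finset.Ico N (2 * N) ×ˢ Finset.Ico N (2 * N) ×ˢ Finset.Ico N (2 * N) ×ˢ Finset.Ico N (2 * N)).filter
    (fun v : ℕ × ℕ × ℕ × ℕ => (Real.pi / A) ^ 2 * (v.1 : ℝ) ^ 2 + (Real.pi / B) ^ 2 * (v.2.1 : ℝ) ^ 2 =
      (Real.pi / A) ^ 2 * (v.2.2.1 : ℝ) ^ 2 + (Real.pi / B) ^ 2 * (v.2.2.2 : ℝ) ^ 2)).card : ℝ) ≤
        C * N ^ 2 * (1 + Real.log N)) (i : ℕ) :
    (4 : ℝ) ^ i ≤ ((SS A B i).card : ℝ) * (4 * C * (i + 2)) := by
  classical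
  have h1 := hs (OO i ×ˢ OO i) (vl A B)
  have h2 := h (2 ^ (i + 1)) Nat.one_le_two_pow
  have h3 : ((((OO i ×ˢ OO i) ×ˢ (OO i ×ˢ OO i)).filter (fun v => vl A B v.1 = vl A B v.2)).card : ℝ) ≤
      C * ((2 ^ (i + 1) : ℕ) : ℝ) ^ 2 * (1 + Real.log ((2 ^ (i + 1) : ℕ) : ℝ)) := by
    refine le_trans ?_ h2
    rw [Nat.cast_le]
    refine Finset.card_le_card_of_injOn (fun v => (v.1.1, v.1.2, v.2.1, v.2.2)) ?_ ?_
    · rintro ⟨⟨m, n⟩, ⟨m', n'⟩⟩ hv
      rw [Finset.mem_coe, Finset.mem_filter, Finset.mem_product, Finset.mem_product,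
        Finset.mem_product] at hv
      obtain ⟨⟨⟨a1, a2⟩, a3, a4⟩, a5⟩ := hv
      have b1 := mem_OO a1
      have b2 := mem_OO a2
      have b3 := mem_OO a3
      have b4 := mem_OO a4
      rw [Finset.mem_coe, Finset.mem_filter, Finset.mem_product, Finset.mem_product,
        Finset.mem_product, Finset.mem_Ico, Finset.mem_Ico, Finset.mem_Ico, Finset.mem_Ico]
      exact ⟨⟨⟨b1.2.1, b1.2.2⟩, ⟨b2.2.1, b2.2.2⟩, ⟨b3.2.1, b3.2.2⟩, b4.2.1, b4.2.2⟩, a5⟩
    · rintro ⟨⟨m, n⟩, ⟨m', n'⟩⟩ _ ⟨⟨k, l⟩, ⟨k', l'⟩⟩ _ hv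
      simp only [Prod.mk.injEq] at hv ⊢
      tauto
  rw [Finset.card_product, card_OO] at h1
  have e1 : (((2 ^ (i + 1) : ℕ) : ℝ)) ^ 2 = 4 * 4 ^ i := by
    push_cast
    rw [← pow_mul, mul_comm, pow_mul, pow_succ]
    norm_num
    ring
  have e2 : (((2 ^ i * 2 ^ i : ℕ) : ℝ)) = 4 ^ i := by
    push_cast
    rw [← mul_pow]
    norm_num
  have e3 : Real.log ((2 ^ (i + 1) : ℕ) : ℝ) ≤ i + 1 := by
    push_cast
    rw [Real.log_pow]
    push_cast
    have := Real.log_two_lt_d9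
    have h5 : (0 : ℝ) ≤ (i : ℝ) + 1 := by positivity
    nlinarith
  rw [e1] at h3
  rw [e2] at h1
  have h4 : (4 : ℝ) ^ i * 4 ^ i ≤ (((SS A B i).card : ℝ) * (4 * C * (i + 2))) * 4 ^ i := by
    calc (4 : ℝ) ^ i * 4 ^ i = ((4 : ℝ) ^ i) ^ 2 := by ring
      _ ≤ _ := h1
      _ ≤ ((SS A B i).card : ℝ) * (C * (4 * 4 ^ i) * (1 + Real.log ((2 ^ (i + 1) : ℕ) : ℝ))) := by
        unfold SS
        exact mul_le_mul_of_nonneg_left h3 (Nat.cast_nonneg _)
      _ ≤ ((SS A B i).card : ℝ) * (C * (4 * 4 ^ i) * (i + 2)) := by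
        apply mul_le_mul_of_nonneg_left _ (Nat.cast_nonneg _)
        apply mul_le_mul_of_nonneg_left _ (by positivity)
        linarith
      _ = _ := by ring
  exact le_of_mul_le_mul_right h4 (by positivity)

theorem main (hc : S_COI) (hs : S_CSQ) : S_DIV := by
  classical
  intro A B hA hB F hsum
  have hα : 0 < (Real.pi / A) ^ 2 := by positivity
  have hβ : 0 < (Real.pi / B) ^ 2 := by positivity
  obtain ⟨C, hC, hcoi⟩ := hc _ _ hα hβ
  set γ : ℝ := (Real.pi / A) ^ 2 + (Real.pi / B) ^ 2 with hγ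
  have hγ0 : 0 < γ := by positivity
  have hcard := card_bound hs hC hcoi
  -- `F` is below the values
  obtain ⟨i0, hi0⟩ : ∃ i0 : ℕ, ∀ a ∈ F, a < γ * 4 ^ (i0 + 1) := by
    obtain ⟨M, hM⟩ : ∃ M : ℝ, ∀ a ∈ F, a ≤ M := by
      obtain ⟨M, hM⟩ := F.bddAbove
      exact ⟨M, fun a ha => hM ha⟩
    obtain ⟨n, hn⟩ := pow_unbounded_of_one_lt (M / γ) (show (1 : ℝ) < 4 by norm_num)
    refine ⟨n, fun a ha => (hM a ha).trans_lt ?_⟩
    rw [div_lt_iff₀ hγ0] at hn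
    have : (4 : ℝ) ^ n ≤ 4 ^ (n + 1) := pow_le_pow_right₀ (by norm_num) (by omega)
    nlinarith
  set g : ℝ → ℝ := (Lam A B \ (F : Set ℝ)).indicator (fun a => 1 / (1 + a)) with hg
  have hgs : Summable g := summable_subtype_iff_indicator.mp hsum
  have hLam : ∀ a ∈ Lam A B, 0 ≤ a := by
    rintro a ⟨m, n, -, -, rfl⟩
    unfold lam
    positivity
  have hg0 : ∀ a, 0 ≤ g a := by
    intro a
    rw [hg]
    apply Set.indicator_nonneg
    intro a ha
    have := hLam a ha.1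
    positivity
  set c : ℝ := 1 / (4 * C * (1 + 16 * γ)) with hcdef
  have hc0 : 0 < c := by positivity
  have hdis : ∀ i j : ℕ, i < j → Disjoint (SS A B i) (SS A B j) := by
    intro i j hij
    rw [Finset.disjoint_left]
    intro a ha hb
    have h1 := (vl_bounds ha).2.1
    have h2 := (vl_bounds hb).1
    rcases h1 with h1 | h1
    · have h3 : (4 : ℝ) ^ (i + 2) ≤ 4 ^ (j + 1) := pow_le_pow_right₀ (by norm_num) (by omega)
      have h4 := mul_le_mul_of_nonneg_left h3 hγ0.le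
      linarith
    · exact hγ0.ne' h1
  have hlow : ∀ i : ℕ, c / ((i + i0 : ℕ) + 2) ≤ ∑ a ∈ SS A B (i + i0), g a := by
    intro i
    set k := i + i0 with hk
    have h1 : ∀ a ∈ SS A B k, 1 / ((4 : ℝ) ^ k * (1 + 16 * γ)) ≤ g a := by
      intro a ha
      obtain ⟨h1, h2, h3⟩ := vl_bounds ha
      have h4 : a ∉ (F : Set ℝ) := by
        intro h
        have h5 := hi0 a (by exact_mod_cast h)
        have h6 : (4 : ℝ) ^ (i0 + 1) ≤ 4 ^ (k + 1) := pow_le_pow_right₀ (by norm_num) (by omega)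
        have h7 := mul_le_mul_of_nonneg_left h6 hγ0.le
        linarith
      have hmem : a ∈ Lam A B \ (F : Set ℝ) := ⟨h3, h4⟩
      rw [hg, Set.indicator_of_mem hmem]
      have h5 := hLam a h3
      apply one_div_le_one_div_of_le (by positivity)
      have h6 : (1 : ℝ) ≤ 4 ^ k := one_le_pow₀ (by norm_num)
      rcases h2 with h2 | h2
      · have h7 : (4 : ℝ) ^ (k + 2) = 16 * 4 ^ k := by rw [pow_add]; ring
        rw [h7] at h2
        nlinarith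
      · exact absurd h2 hγ0.ne'
    calc c / ((k : ℕ) + 2) ≤ ((SS A B k).card : ℝ) * (1 / ((4 : ℝ) ^ k * (1 + 16 * γ))) := by
          have h2 := hcard k
          have h3 : (0 : ℝ) < (k : ℝ) + 2 := by positivity
          rw [hcdef, div_div, mul_one_div, div_le_div_iff₀ (by positivity) (by positivity), one_mul]
          have h4 : (0 : ℝ) ≤ 1 + 16 * γ := by positivity
          calc (4 : ℝ) ^ k * (1 + 16 * γ) ≤ (((SS A B k).card : ℝ) * (4 * C * (k + 2))) * (1 + 16 * γ) :=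
                mul_le_mul_of_nonneg_right h2 h4
            _ = _ := by ring
      _ = ∑ _a ∈ SS A B k, 1 / ((4 : ℝ) ^ k * (1 + 16 * γ)) := by
          rw [Finset.sum_const, nsmul_eq_mul]
      _ ≤ _ := Finset.sum_le_sum h1
  have hpart : ∀ J : ℕ, ∑ i ∈ Finset.range J, c / ((i + i0 : ℕ) + 2) ≤ ∑' a, g a := by
    intro J
    calc ∑ i ∈ Finset.range J, c / ((i + i0 : ℕ) + 2)
        ≤ ∑ i ∈ Finset.range J, ∑ a ∈ SS A B (i + i0), g a := Finset.sum_le_sum fun i _ => hlow i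
      _ = ∑ a ∈ (Finset.range J).biUnion (fun i => SS A B (i + i0)), g a := by
          rw [Finset.sum_biUnion]
          intro i _ j _ hij
          rcases lt_or_gt_of_ne hij with h | h
          · exact hdis _ _ (by omega)
          · exact (hdis _ _ (by omega)).symm
      _ ≤ _ := hgs.sum_le_tsum _ fun a _ => hg0 a
  have hsm : Summable (fun i : ℕ => c / ((i + i0 : ℕ) + 2)) :=
    summable_of_sum_range_le (fun i => by positivity) hpart
  have hsm2 : Summable (fun i : ℕ => 1 / (((i + (i0 + 2) : ℕ)) : ℝ)) := by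
    have h1 := hsm.mul_left (1 / c)
    refine h1.congr fun i => ?_
    push_cast
    field_simp
    ring
  rw [summable_nat_add_iff (f := fun i : ℕ => 1 / (i : ℝ))] at hsm2
  exact Real.not_summable_one_div_natCast hsm2

end Pool.Agent.H74.CD.T.DIV
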