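import Pool.Agent.H74.CD.Stm

/-! # CD-ENE (helper61): multiplicative energy of an interval -/

set_option autoImplicit false

namespace Pool.Agent.H74.CD.T.ENE

open Finset

/-- the parametrization -/
def par (M : ℕ) : Finset (Σ _ : ℕ × ℕ, ℕ × ℕ) :=
  (Icc 1 M ×ˢ Icc 1 M).sigma
    (fun rs => Icc 1 (M / max rs.1 rs.2) ×ˢ Icc 1 (M / max rs.1 rs.2))

lemma surj (M : ℕ) : Set.SurjOn
    (fun v : (Σ _ : ℕ × ℕ, ℕ × ℕ) =>
      ((v.1.1 * v.2.1, v.1.2 * v.2.2, v.1.2 * v.2.1, v.1.1 * v.2.2) : ℕ × ℕ × ℕ × ℕ))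
    (par M : Set (Σ _ : ℕ × ℕ, ℕ × ℕ))
    (((Icc 1 M ×ˢ Icc 1 M ×ˢ Icc 1 M ×ˢ Icc 1 M).filter
    (fun v : ℕ × ℕ × ℕ × ℕ => v.1 * v.2.1 = v.2.2.1 * v.2.2.2) : Finset _) : Set (ℕ × ℕ × ℕ × ℕ)) := by
  rintro ⟨x, y, z, w⟩ hv
  rw [mem_coe, mem_filter] at hv
  simp only [mem_product, mem_Icc] at hv
  obtain ⟨⟨⟨hx1, hx⟩, ⟨hy1, hy⟩, ⟨hz1, hz⟩, hw1, hw⟩, h⟩ := hv
  obtain ⟨r, hr⟩ := Nat.gcd_dvd_left x z
  obtain ⟨s, hs⟩ := Nat.gcd_dvd_right x z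
  have hk : 0 < x.gcd z := Nat.gcd_pos_of_pos_left _ hx1
  have hcop : Nat.Coprime r s := by
    have h1 := Nat.coprime_div_gcd_div_gcd hk
    have h2 : x / x.gcd z = r := by
      conv_lhs => rw [hr]
      rw [← hr]
      exact Nat.div_eq_of_eq_mul_right hk hr
    have h3 : z / x.gcd z = s := Nat.div_eq_of_eq_mul_right hk hs
    rwa [h2, h3] at h1
  generalize x.gcd z = k at hr hs hk
  subst hr hs
  have hr0 : 0 < r := Nat.pos_of_ne_zero (by rintro rfl; simp at hx1)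
  have hs0 : 0 < s := Nat.pos_of_ne_zero (by rintro rfl; simp at hz1)
  have h1 : r * y = s * w := by
    have h2 : k * (r * y) = k * (s * w) := by
      rw [← mul_assoc, ← mul_assoc]
      exact h
    exact Nat.eq_of_mul_eq_mul_left hk h2
  have h2 : s ∣ y := by
    have h3 : s ∣ r * y := ⟨w, h1⟩
    exact (hcop.symm).dvd_of_dvd_mul_left h3
  obtain ⟨l, rfl⟩ := h2
  have h3 : w = r * l := by
    have h4 : s * (r * l) = s * w := by
      rw [← h1]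
      ring
    exact (Nat.eq_of_mul_eq_mul_left hs0 h4).symm
  subst h3
  have hl0 : 0 < l := Nat.pos_of_ne_zero (by rintro rfl; simp at hy1)
  have hmax : 0 < max r s := lt_max_of_lt_left hr0
  refine ⟨⟨(r, s), (k, l)⟩, ?_, ?_⟩
  · rw [mem_coe, par, mem_sigma]
    simp only [mem_product, mem_Icc]
    refine ⟨⟨⟨hr0, ?_⟩, hs0, ?_⟩, ⟨hk, ?_⟩, hl0, ?_⟩
    · exact (Nat.le_mul_of_pos_left r hk).trans hx
    · exact (Nat.le_mul_of_pos_left s hk).trans hz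
    · rw [Nat.le_div_iff_mul_le hmax, ← Nat.mul_max_mul_left]
      exact max_le hx hz
    · rw [Nat.le_div_iff_mul_le hmax, ← Nat.mul_max_mul_left]
      refine max_le ?_ ?_
      · rw [mul_comm]; exact hw
      · rw [mul_comm]; exact hy
  · simp only
    rw [mul_comm r k, mul_comm s k]

lemma card_par (M : ℕ) : ((par M).card : ℝ) ≤
    ∑ r ∈ Icc 1 M, ∑ s ∈ Icc 1 M, ((M : ℝ) / max (r : ℝ) s) ^ 2 := by
  unfold par
  rw [card_sigma, sum_product]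
  push_cast
  refine sum_le_sum fun r _ => sum_le_sum fun s _ => ?_
  rw [card_product, Nat.card_Icc, Nat.add_sub_cancel]
  push_cast
  rw [← sq]
  have h1 : (((M / max r s : ℕ) : ℕ) : ℝ) ≤ (M : ℝ) / max (r : ℝ) s := by
    have := @Nat.cast_div_le ℝ _ _ _ M (max r s)
    rwa [Nat.cast_max] at this
  exact pow_le_pow_left₀ (Nat.cast_nonneg _) h1 2

lemma inner (M r : ℕ) (hr : r ∈ Icc 1 M) :
    ∑ s ∈ Icc 1 M, (if s ≤ r then (1 : ℝ) / (r : ℝ) ^ 2 else 0) = 1 / r := by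
  rw [mem_Icc] at hr
  rw [← sum_filter]
  have h1 : (Icc 1 M).filter (fun s => s ≤ r) = Icc 1 r := by
    ext s
    simp only [mem_filter, mem_Icc]
    omega
  rw [h1, sum_const, Nat.card_Icc, Nat.add_sub_cancel, nsmul_eq_mul]
  have : (r : ℝ) ≠ 0 := by
    have : 0 < r := hr.1
    positivity
  field_simp

theorem main : S_ENE := by
  intro M hM
  have h1 := Finset.card_le_card_of_surjOn _ (surj M)
  have h2 : ((((Finset.Icc 1 M ×ˢ Finset.Icc 1 M ×ˢ Finset.Icc 1 M ×ˢ Finset.Icc 1 M).filter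
    (fun v : ℕ × ℕ × ℕ × ℕ => v.1 * v.2.1 = v.2.2.1 * v.2.2.2)).card : ℕ) : ℝ) ≤
      ((par M).card : ℝ) := by exact_mod_cast h1
  refine h2.trans ((card_par M).trans ?_)
  have h3 : ∀ r ∈ Icc 1 M, ∀ s ∈ Icc 1 M, ((M : ℝ) / max (r : ℝ) s) ^ 2 ≤
      (M : ℝ) ^ 2 * ((if s ≤ r then (1 : ℝ) / (r : ℝ) ^ 2 else 0) +
        (if r ≤ s then (1 : ℝ) / (s : ℝ) ^ 2 else 0)) := by
    intro r hr s hs
    rw [div_pow, div_eq_mul_one_div]
    refine mul_le_mul_of_nonneg_left ?_ (by positivity)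
    rcases le_total s r with h | h
    · have h' : (s : ℝ) ≤ r := by exact_mod_cast h
      rw [max_eq_left h', if_pos h]
      have : (0 : ℝ) ≤ (if r ≤ s then (1 : ℝ) / (s : ℝ) ^ 2 else 0) := by positivity
      linarith
    · have h' : (r : ℝ) ≤ s := by exact_mod_cast h
      rw [max_eq_right h', if_pos h]
      have : (0 : ℝ) ≤ (if s ≤ r then (1 : ℝ) / (r : ℝ) ^ 2 else 0) := by positivity
      linarith
  have h4 : ∑ r ∈ Icc 1 M, ∑ s ∈ Icc 1 M, ((M : ℝ) / max (r : ℝ) s) ^ 2 ≤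
      (M : ℝ) ^ 2 * (∑ r ∈ Icc 1 M, (1 : ℝ) / r + ∑ s ∈ Icc 1 M, (1 : ℝ) / s) := by
    calc _ ≤ ∑ r ∈ Icc 1 M, ∑ s ∈ Icc 1 M, (M : ℝ) ^ 2 *
          ((if s ≤ r then (1 : ℝ) / (r : ℝ) ^ 2 else 0) +
            (if r ≤ s then (1 : ℝ) / (s : ℝ) ^ 2 else 0)) :=
          sum_le_sum fun r hr => sum_le_sum fun s hs => h3 r hr s hs
      _ = (M : ℝ) ^ 2 * (∑ r ∈ Icc 1 M, ∑ s ∈ Icc 1 M, (if s ≤ r then (1 : ℝ) / (r : ℝ) ^ 2 else 0) +
            ∑ r ∈ Icc 1 M, ∑ s ∈ Icc 1 M, (if r ≤ s then (1 : ℝ) / (s : ℝ) ^ 2 else 0)) := by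
          rw [← sum_add_distrib, mul_sum]
          refine sum_congr rfl fun r _ => ?_
          rw [← sum_add_distrib, mul_sum]
      _ = (M : ℝ) ^ 2 * (∑ r ∈ Icc 1 M, (1 : ℝ) / r + ∑ s ∈ Icc 1 M, (1 : ℝ) / s) := by
          have hc : ∑ r ∈ Icc 1 M, ∑ s ∈ Icc 1 M, (if r ≤ s then (1 : ℝ) / (s : ℝ) ^ 2 else 0) =
              ∑ s ∈ Icc 1 M, ∑ r ∈ Icc 1 M, (if r ≤ s then (1 : ℝ) / (s : ℝ) ^ 2 else 0) :=
            sum_comm
          rw [hc, sum_congr rfl (fun r hr => inner M r hr)]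
  refine h4.trans ?_
  have h5 : ∑ r ∈ Icc 1 M, (1 : ℝ) / r ≤ 1 + Real.log M := by
    have h6 := harmonic_le_one_add_log M
    rw [harmonic_eq_sum_Icc] at h6
    push_cast at h6
    simpa [one_div] using h6
  have h7 : (0 : ℝ) ≤ (M : ℝ) ^ 2 := by positivity
  nlinarith

end Pool.Agent.H74.CD.T.ENE
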