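import Pool.Agent.H74.CD.Stm

set_option autoImplicit false

namespace Pool.Agent.H74.CD.T.FIN

open MeasureTheory Filter Topology Set

theorem main (hi : S_NSI) (hr : S_NSR) (hm : S_MAIN) : S_FIN := by
  intro A B c T hA hB hc hT u p hu h0 P κ F hP hF
  obtain ⟨wt, wx, wy, wxx, wyy, g, hheat⟩ := hr A B c T u p hA hB hc hT hu
  have hTz : ∀ x ∈ Ioo 0 A, ∀ y ∈ Ioo 0 B, (fun t x y => u t ![x, y, 0] 2) T x y = 0 := by
    intro x hx y hy
    have h1 : (![x, y, 0] : Fin 3 → ℝ) ∈ Duct A B c := by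
      refine ⟨?_, ?_, ?_, ?_, ?_⟩
      · simpa using hx.1
      · simpa using hx.2
      · simpa using hy.1
      · simpa using hy.2
      · simpa using hc
    have h2 := h0 _ h1
    show u T ![x, y, 0] 2 = 0
    rw [h2]
    rfl
  obtain ⟨hk, hz⟩ := hm A B T _ wt wx wy wxx wyy g hA hB hT hheat hTz P κ F hP hF
  refine ⟨hk, fun t ht x hx => ?_⟩
  obtain ⟨h1, h2⟩ := hu.axial t ht x hx
  have h3 := hi A B c T u p hA hB hc hT hu t ht x hx
  have h4 := hz t ht (x 0) ⟨hx.1, hx.2.1⟩ (x 1) ⟨hx.2.2.1, hx.2.2.2.1⟩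
  funext k
  fin_cases k
  · exact h1
  · exact h2
  · exact h3.trans h4

end Pool.Agent.H74.CD.T.FIN
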