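import Pool.Agent.H74.CD.Stm

/-! # CD-GRN (helper71) -/

set_option autoImplicit false

namespace Pool.Agent.H74.CD.T.GRN

open MeasureTheory Filter Topology Set intervalIntegral

lemma cont_int {a b c d : ℝ} (hab : a ≤ b) (hcd : c ≤ d) (F : ℝ → ℝ → ℝ)
    (hF : ContinuousOn (fun q : ℝ × ℝ => F q.1 q.2) (Icc a b ×ˢ Icc c d)) :
    ContinuousOn (fun x => ∫ y in c..d, F x y) (Icc a b) := by
  have h1 : Continuous (Function.uncurry fun x y : ℝ => F (max a (min b x)) (max c (min d y))) := by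
    have : Continuous fun q : ℝ × ℝ => ((max a (min b q.1), max c (min d q.2)) : ℝ × ℝ) := by
      fun_prop
    exact hF.comp_continuous this (fun q => ⟨⟨le_max_left _ _, max_le hab (min_le_left _ _)⟩,
      ⟨le_max_left _ _, max_le hcd (min_le_left _ _)⟩⟩)
  have h2 := intervalIntegral.continuous_parametric_intervalIntegral_of_continuous' (μ := volume) h1 c d
  refine h2.continuousOn.congr ?_
  intro x hx
  refine intervalIntegral.integral_congr fun y hy => ?_
  rw [uIcc_of_le hcd] at hy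
  have e1 : max a (min b x) = x := by rw [min_eq_right hx.2, max_eq_right hx.1]
  have e2 : max c (min d y) = y := by rw [min_eq_right hy.2, max_eq_right hy.1]
  simp only [e1, e2]

lemma swap {a b c d : ℝ} (hab : a ≤ b) (hcd : c ≤ d) (F : ℝ → ℝ → ℝ)
    (hF : ContinuousOn (fun q : ℝ × ℝ => F q.1 q.2) (Icc a b ×ˢ Icc c d)) :
    ∫ x in a..b, ∫ y in c..d, F x y = ∫ y in c..d, ∫ x in a..b, F x y := by
  apply intervalIntegral_intervalIntegral_swap
  rw [uIoc_of_le hab, uIoc_of_le hcd]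
  have h1 : IntegrableOn (fun q : ℝ × ℝ => F q.1 q.2) (Icc a b ×ˢ Icc c d) :=
    hF.integrableOn_compact (isCompact_Icc.prod isCompact_Icc)
  exact h1.mono_set (prod_mono Ioc_subset_Icc_self Ioc_subset_Icc_self)

lemma md_cont (m : ℕ) (p q : ℝ) : Continuous (md m p q) := by
  unfold md
  fun_prop

lemma half (h : S_IBP) {a1 a2 b1 b2 : ℝ} (ha : a1 ≤ a2) (hb : b1 < b2) (n : ℕ) (X : ℝ → ℝ)
    (hX : Continuous X) (v vy vyy : ℝ → ℝ → ℝ)
    (hv : ContinuousOn (fun q : ℝ × ℝ => v q.1 q.2) (Icc a1 a2 ×ˢ Icc b1 b2))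
    (hvyy : ContinuousOn (fun q : ℝ × ℝ => vyy q.1 q.2) (Icc a1 a2 ×ˢ Icc b1 b2))
    (d1 : ∀ x ∈ Icc a1 a2, ∀ y ∈ Icc b1 b2, HasDerivAt (fun z => v x z) (vy x y) y)
    (d2 : ∀ x ∈ Icc a1 a2, ∀ y ∈ Icc b1 b2, HasDerivAt (fun z => vy x z) (vyy x y) y) :
    ∫ x in a1..a2, ∫ y in b1..b2, vyy x y * (X x * md n b1 b2 y) =
      -(n * Real.pi / (b2 - b1)) * (∫ x in a1..a2, ((-1) ^ n * v x b2 - v x b1) * X x) -
      (n * Real.pi / (b2 - b1)) ^ 2 * ∫ x in a1..a2, ∫ y in b1..b2, v x y * (X x * md n b1 b2 y) := by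
  have hslice : ∀ x ∈ Icc a1 a2, ContinuousOn (vyy x) (Icc b1 b2) := by
    intro x hx
    exact hvyy.comp (f := fun y => ((x, y) : ℝ × ℝ)) (by fun_prop) (fun y hy => ⟨hx, hy⟩)
  have hsec : ∀ y ∈ Icc b1 b2, ContinuousOn (fun x => v x y) (Icc a1 a2) := by
    intro y hy
    exact hv.comp (f := fun x => ((x, y) : ℝ × ℝ)) (by fun_prop) (fun x hx => ⟨hx, hy⟩)
  have e1 : ∀ x ∈ uIcc a1 a2, ∫ y in b1..b2, vyy x y * (X x * md n b1 b2 y) =
      -(n * Real.pi / (b2 - b1)) * (((-1) ^ n * v x b2 - v x b1) * X x) -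
      (n * Real.pi / (b2 - b1)) ^ 2 * ∫ y in b1..b2, v x y * (X x * md n b1 b2 y) := by
    intro x hx
    rw [uIcc_of_le ha] at hx
    have g1 := h b1 b2 n hb (v x) (vy x) (vyy x) (d1 x hx) (d2 x hx) (hslice x hx)
    have g2 : ∫ y in b1..b2, vyy x y * (X x * md n b1 b2 y) =
        X x * ∫ y in b1..b2, vyy x y * md n b1 b2 y := by
      rw [← intervalIntegral.integral_const_mul]
      congr 1; funext y; ring
    have g3 : ∫ y in b1..b2, v x y * (X x * md n b1 b2 y) =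
        X x * ∫ y in b1..b2, v x y * md n b1 b2 y := by
      rw [← intervalIntegral.integral_const_mul]
      congr 1; funext y; ring
    rw [g2, g1, g3]
    ring
  rw [intervalIntegral.integral_congr e1, intervalIntegral.integral_sub,
    intervalIntegral.integral_const_mul, intervalIntegral.integral_const_mul]
  · apply IntervalIntegrable.const_mul
    apply ContinuousOn.intervalIntegrable
    rw [uIcc_of_le ha]
    exact ((continuousOn_const.mul (hsec b2 ⟨hb.le, le_rfl⟩)).sub (hsec b1 ⟨le_rfl, hb.le⟩)).mul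
      hX.continuousOn
  · apply IntervalIntegrable.const_mul
    apply ContinuousOn.intervalIntegrable
    rw [uIcc_of_le ha]
    refine cont_int ha hb.le (fun x y => v x y * (X x * md n b1 b2 y)) ?_
    refine hv.mul ?_
    have := md_cont n b1 b2
    fun_prop

theorem main (h : S_IBP) : S_GRN := by
  intro A B T w wt wx wy wxx wyy g hA hB hH m n ε hε hεA hεB t ht
  have ha : ε < A - ε := by linarith
  have hb : ε < B - ε := by linarith
  have hxin : ∀ x ∈ Icc ε (A - ε), x ∈ Ioo 0 A := fun x hx =>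
    ⟨by linarith [hx.1], by linarith [hx.2]⟩
  have hyin : ∀ y ∈ Icc ε (B - ε), y ∈ Ioo 0 B := fun y hy =>
    ⟨by linarith [hy.1], by linarith [hy.2]⟩
  have htI : t ∈ Icc 0 T := ⟨ht.1.le, ht.2.le⟩
  have hw : ContinuousOn (fun q : ℝ × ℝ => w t q.1 q.2) (Icc ε (A - ε) ×ˢ Icc ε (B - ε)) := by
    refine hH.cont.comp (f := fun q : ℝ × ℝ => ((t, q.1, q.2) : ℝ × ℝ × ℝ)) (by fun_prop) ?_
    rintro ⟨x, y⟩ ⟨hx, hy⟩
    exact ⟨htI, Ioo_subset_Icc_self (hxin x hx), Ioo_subset_Icc_self (hyin y hy)⟩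
  have hwxx : ContinuousOn (fun q : ℝ × ℝ => wxx t q.1 q.2) (Icc ε (A - ε) ×ˢ Icc ε (B - ε)) := by
    refine hH.cxx.comp (f := fun q : ℝ × ℝ => ((t, q.1, q.2) : ℝ × ℝ × ℝ)) (by fun_prop) ?_
    rintro ⟨x, y⟩ ⟨hx, hy⟩
    exact ⟨ht, hxin x hx, hyin y hy⟩
  have hwyy : ContinuousOn (fun q : ℝ × ℝ => wyy t q.1 q.2) (Icc ε (A - ε) ×ˢ Icc ε (B - ε)) := by
    refine hH.cyy.comp (f := fun q : ℝ × ℝ => ((t, q.1, q.2) : ℝ × ℝ × ℝ)) (by fun_prop) ?_
    rintro ⟨x, y⟩ ⟨hx, hy⟩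
    exact ⟨ht, hxin x hx, hyin y hy⟩
  have hXY : ContinuousOn (fun q : ℝ × ℝ => md m ε (A - ε) q.1 * md n ε (B - ε) q.2)
      (Icc ε (A - ε) ×ˢ Icc ε (B - ε)) := by
    have h1 := md_cont m ε (A - ε)
    have h2 := md_cont n ε (B - ε)
    fun_prop
  have hsw : ∀ {F : ℝ → ℝ → ℝ} {s t : Set ℝ}, ContinuousOn (fun q : ℝ × ℝ => F q.1 q.2) (s ×ˢ t) →
      ContinuousOn (fun q : ℝ × ℝ => F q.2 q.1) (t ×ˢ s) := by
    intro F s t hF
    exact hF.comp (f := fun q : ℝ × ℝ => ((q.2, q.1) : ℝ × ℝ)) (by fun_prop) (fun q hq => ⟨hq.2, hq.1⟩)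
  -- split
  have hsplit : coefE A B ε m n (fun x y => wxx t x y + wyy t x y) =
      (∫ x in ε..(A - ε), ∫ y in ε..(B - ε), wxx t x y * (md m ε (A - ε) x * md n ε (B - ε) y)) +
      ∫ x in ε..(A - ε), ∫ y in ε..(B - ε), wyy t x y * (md m ε (A - ε) x * md n ε (B - ε) y) := by
    unfold coefE
    rw [← intervalIntegral.integral_add]
    · refine intervalIntegral.integral_congr fun x hx => ?_
      rw [uIcc_of_le ha.le] at hx
      simp only
      rw [← intervalIntegral.integral_add]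
      · congr 1; funext y; ring
      · apply ContinuousOn.intervalIntegrable
        rw [uIcc_of_le hb.le]
        exact (hwxx.mul hXY).comp (f := fun y => ((x, y) : ℝ × ℝ)) (by fun_prop) (fun y hy => ⟨hx, hy⟩)
      · apply ContinuousOn.intervalIntegrable
        rw [uIcc_of_le hb.le]
        exact (hwyy.mul hXY).comp (f := fun y => ((x, y) : ℝ × ℝ)) (by fun_prop) (fun y hy => ⟨hx, hy⟩)
    · apply ContinuousOn.intervalIntegrable
      rw [uIcc_of_le ha.le]
      exact cont_int ha.le hb.le _ (hwxx.mul hXY)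
    · apply ContinuousOn.intervalIntegrable
      rw [uIcc_of_le ha.le]
      exact cont_int ha.le hb.le _ (hwyy.mul hXY)
  have hI2 := half h ha.le hb n (md m ε (A - ε)) (md_cont _ _ _) (w t) (wy t) (wyy t) hw hwyy
    (fun x hx y hy => hH.dy t ht x (hxin x hx) y (hyin y hy))
    (fun x hx y hy => hH.dyy t ht x (hxin x hx) y (hyin y hy))
  have hI1 := half h hb.le ha m (md n ε (B - ε)) (md_cont _ _ _) (fun y x => w t x y)
    (fun y x => wx t x y) (fun y x => wxx t x y) (hsw hw) (hsw hwxx)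
    (fun y hy x hx => hH.dx t ht x (hxin x hx) y (hyin y hy))
    (fun y hy x hx => hH.dxx t ht x (hxin x hx) y (hyin y hy))
  have s1 := swap ha.le hb.le (fun x y => wxx t x y * (md m ε (A - ε) x * md n ε (B - ε) y))
    (hwxx.mul hXY)
  have s2 := swap ha.le hb.le (fun x y => w t x y * (md m ε (A - ε) x * md n ε (B - ε) y))
    (hw.mul hXY)
  have c1 : ∀ x y, md n ε (B - ε) y * md m ε (A - ε) x = md m ε (A - ε) x * md n ε (B - ε) y :=
    fun x y => mul_comm _ _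
  simp only [c1] at hI1
  rw [hsplit, s1, hI1, hI2, ← s2]
  have eA : A - ε - ε = A - 2 * ε := by ring
  have eB : B - ε - ε = B - 2 * ε := by ring
  rw [eA, eB]
  unfold coefE bd lam
  ring

end Pool.Agent.H74.CD.T.GRN
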