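import Pool.Agent.H74.CD.Stm

set_option autoImplicit false

namespace Pool.Agent.H74.CD.T.HH

open MeasureTheory Filter Topology Set intervalIntegral
open Pool.Agent.H74.CD

theorem md_cont (m : ℕ) (p q : ℝ) : Continuous (md m p q) := by
  unfold md
  fun_prop

theorem coef_cont (A B T : ℝ) (hA : 0 < A) (hB : 0 < B) (hT : 0 < T) (w : ℝ → ℝ → ℝ → ℝ)
    (hc : ContinuousOn (fun q : ℝ × ℝ × ℝ => w q.1 q.2.1 q.2.2) (Icc 0 T ×ˢ (Icc 0 A ×ˢ Icc 0 B)))
    (m n : ℕ) : ContinuousOn (fun t => coef A B m n (w t)) (Icc 0 T) := by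
  obtain ⟨F, hF⟩ : ∃ F : ℝ → ℝ → ℝ → ℝ, F = fun t x y => w (projIcc 0 T hT.le t)
    (projIcc 0 A hA.le x) (projIcc 0 B hB.le y) := ⟨_, rfl⟩
  have h0 : Continuous (fun q : ℝ × ℝ × ℝ => ((projIcc 0 T hT.le q.1 : ℝ),
      (projIcc 0 A hA.le q.2.1 : ℝ), (projIcc 0 B hB.le q.2.2 : ℝ))) := by
    have a1 : Continuous fun q : ℝ × ℝ × ℝ => (projIcc 0 T hT.le q.1 : ℝ) :=
      continuous_subtype_val.comp (continuous_projIcc.comp continuous_fst)
    have a2 : Continuous fun q : ℝ × ℝ × ℝ => (projIcc 0 A hA.le q.2.1 : ℝ) :=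
      continuous_subtype_val.comp (continuous_projIcc.comp (continuous_fst.comp continuous_snd))
    have a3 : Continuous fun q : ℝ × ℝ × ℝ => (projIcc 0 B hB.le q.2.2 : ℝ) :=
      continuous_subtype_val.comp (continuous_projIcc.comp (continuous_snd.comp continuous_snd))
    exact a1.prodMk (a2.prodMk a3)
  have h1 : Continuous (fun q : ℝ × ℝ × ℝ => F q.1 q.2.1 q.2.2) := by
    rw [hF]
    exact hc.comp_continuous h0 (fun q => ⟨(projIcc 0 T hT.le q.1).2,
      (projIcc 0 A hA.le q.2.1).2, (projIcc 0 B hB.le q.2.2).2⟩)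
  have h2 : Continuous (fun t => coef A B m n (F t)) := by
    unfold coef
    refine continuous_parametric_intervalIntegral_of_continuous'
      (f := fun t x => ∫ y in (0:ℝ)..B, F t x y * (md m 0 A x * md n 0 B y)) ?_ 0 A
    refine continuous_parametric_intervalIntegral_of_continuous' (X := ℝ × ℝ)
      (f := fun (q : ℝ × ℝ) y => F q.1 q.2 y * (md m 0 A q.2 * md n 0 B y)) ?_ 0 B
    have h3 := md_cont m 0 A
    have h4 := md_cont n 0 B
    have h5 : Continuous fun q : (ℝ × ℝ) × ℝ => F q.1.1 q.1.2 q.2 :=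
      h1.comp (f := fun q : (ℝ × ℝ) × ℝ => (q.1.1, q.1.2, q.2)) (by fun_prop)
    exact h5.mul ((h3.comp (by fun_prop)).mul (h4.comp (by fun_prop)))
  refine h2.continuousOn.congr fun t ht => ?_
  unfold coef
  refine intervalIntegral.integral_congr fun x hx => ?_
  refine intervalIntegral.integral_congr fun y hy => ?_
  rw [uIcc_of_le hA.le] at hx
  rw [uIcc_of_le hB.le] at hy
  simp only [hF]
  rw [projIcc_of_mem _ ht, projIcc_of_mem _ hx, projIcc_of_mem _ hy]

theorem prim_der (T : ℝ) (φ : ℝ → ℝ) (h : ContinuousOn φ (Icc 0 T)) (t : ℝ) (ht : t ∈ Ioo 0 T) :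
    HasDerivAt (fun u => ∫ s in (0:ℝ)..u, φ s) (φ t) t := by
  have h' : ContinuousOn φ (Ioo 0 T) := h.mono Ioo_subset_Icc_self
  refine integral_hasDerivAt_right ?_ (h'.stronglyMeasurableAtFilter isOpen_Ioo t ht)
    (h'.continuousAt (Ioo_mem_nhds ht.1 ht.2))
  refine ContinuousOn.intervalIntegrable ?_
  rw [uIcc_of_le ht.1.le]
  exact h.mono (Icc_subset_Icc_right ht.2.le)

theorem prim_cont (T : ℝ) (hT : 0 < T) (φ : ℝ → ℝ) (h : ContinuousOn φ (Icc 0 T)) :
    ContinuousOn (fun u => ∫ s in (0:ℝ)..u, φ s) (Icc 0 T) := by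
  have := intervalIntegral.continuousOn_primitive_interval (a := 0) (b := T) (f := φ)
    (μ := volume) (by rw [uIcc_of_le hT.le]; exact h.integrableOn_Icc)
  rwa [uIcc_of_le hT.le] at this

theorem der (hl : S_LIM) (A B T : ℝ) (w wt wx wy wxx wyy : ℝ → ℝ → ℝ → ℝ) (g : ℝ → ℝ)
    (hA : 0 < A) (hB : 0 < B) (hH : Heat A B T w wt wx wy wxx wyy g) (m n : ℕ) (t : ℝ)
    (ht : t ∈ Ioo 0 T) :
    HasDerivAt (fun t => Real.exp (lam A B m n * t) * coef A B m n (w t))
      (coef A B m n (fun _ _ => 1) * (Real.exp (lam A B m n * t) * g t)) t := by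
  have ht1 := ht.1
  have ht2 := ht.2
  have h0 : 0 < t / 2 := by linarith
  have hcont : ContinuousOn (fun r => Real.exp (lam A B m n * r) * g r) (Ioo 0 T) :=
    ContinuousOn.mul (by fun_prop) hH.gc
  have hint : IntervalIntegrable (fun r => Real.exp (lam A B m n * r) * g r) volume (t / 2) t := by
    refine ContinuousOn.intervalIntegrable ?_
    rw [uIcc_of_le (by linarith)]
    exact hcont.mono (fun r hr => ⟨by linarith [hr.1], by linarith [hr.2]⟩)
  have h1 := integral_hasDerivAt_right hint (hcont.stronglyMeasurableAtFilter isOpen_Ioo t ht)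
    (hcont.continuousAt (Ioo_mem_nhds ht.1 ht.2))
  have h2 := (h1.const_mul (coef A B m n (fun _ _ => 1))).const_add
    (Real.exp (lam A B m n * (t / 2)) * coef A B m n (w (t / 2)))
  refine h2.congr_of_eventuallyEq ?_
  have h3 : Ioo (t / 2) T ∈ 𝓝 t := Ioo_mem_nhds (by linarith) ht.2
  filter_upwards [h3] with r hr
  have h4 := hl A B T w wt wx wy wxx wyy g hA hB hH m n (t / 2) r h0 hr.1.le hr.2
  linarith

theorem main (hl : S_LIM) (h1 : S_ONE) : S_HH := by
  intro A B T w wt wx wy wxx wyy g hA hB hT hH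
  have hW : ∀ m n, ContinuousOn (fun t => coef A B m n (w t)) (Icc 0 T) := fun m n =>
    coef_cont A B T hA hB hT w hH.cont m n
  obtain ⟨c₁, hc₁⟩ : ∃ c₁, c₁ = coef A B 1 1 (fun _ _ => 1) := ⟨_, rfl⟩
  have hc : 0 < c₁ := by rw [hc₁]; exact (h1 A B hA hB 1 1).1 odd_one odd_one
  obtain ⟨l₁, hl₁⟩ : ∃ l₁, l₁ = lam A B 1 1 := ⟨_, rfl⟩
  obtain ⟨h, hh⟩ : ∃ h : ℝ → ℝ, h = fun t => (coef A B 1 1 (w t) - coef A B 1 1 (w 0) +
    l₁ * ∫ s in (0:ℝ)..t, coef A B 1 1 (w s)) / c₁ := ⟨_, rfl⟩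
  have hhc : ContinuousOn h (Icc 0 T) := by
    rw [hh]
    exact (((hW 1 1).sub continuousOn_const).add
      (continuousOn_const.mul (prim_cont T hT _ (hW 1 1)))).div_const _
  have hh0 : h 0 = 0 := by rw [hh]; simp
  have hhd : ∀ t ∈ Ioo 0 T, HasDerivAt h (g t) t := by
    intro t ht
    have d1 := der hl A B T w wt wx wy wxx wyy g hA hB hH 1 1 t ht
    rw [← hc₁, ← hl₁] at d1
    have d2 : HasDerivAt (fun t => Real.exp (-(l₁ * t))) (Real.exp (-(l₁ * t)) * -l₁) t := by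
      have a1 : HasDerivAt (fun t => -(l₁ * t)) (-l₁) t := by
        have a0 := ((hasDerivAt_id t).const_mul l₁).neg
        rw [mul_one] at a0
        exact a0
      exact a1.exp
    have d3 := d2.mul d1
    have d4 : HasDerivAt (fun t => coef A B 1 1 (w t)) (-l₁ * coef A B 1 1 (w t) + c₁ * g t) t := by
      refine (d3.congr_of_eventuallyEq (Eventually.of_forall fun r => ?_)).congr_deriv ?_
      · show coef A B 1 1 (w r) = Real.exp (-(l₁ * r)) * (Real.exp (l₁ * r) * coef A B 1 1 (w r))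
        rw [← mul_assoc, ← Real.exp_add, neg_add_cancel, Real.exp_zero, one_mul]
      · have e : Real.exp (-(l₁ * t)) * Real.exp (l₁ * t) = 1 := by
          rw [← Real.exp_add, neg_add_cancel, Real.exp_zero]
        linear_combination (-l₁ * coef A B 1 1 (w t) + c₁ * g t) * e
    have d5 := prim_der T _ (hW 1 1) t ht
    have d6 := ((d4.sub_const (coef A B 1 1 (w 0))).add (d5.const_mul l₁)).div_const c₁
    rw [hh]
    refine d6.congr_deriv ?_
    field_simp
    ring
  refine ⟨h, hhc, fun m n t ht => ?_⟩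
  obtain ⟨l, hl'⟩ : ∃ l, l = lam A B m n := ⟨_, rfl⟩
  obtain ⟨c, hc'⟩ : ∃ c, c = coef A B m n (fun _ _ => 1) := ⟨_, rfl⟩
  rw [← hl', ← hc']
  have hφ : ContinuousOn (fun s => Real.exp (l * s) * h s) (Icc 0 T) :=
    ContinuousOn.mul (by fun_prop) hhc
  obtain ⟨E, hE⟩ : ∃ E : ℝ → ℝ, E = fun t => Real.exp (l * t) * coef A B m n (w t) -
    c * (Real.exp (l * t) * h t - l * ∫ s in (0:ℝ)..t, Real.exp (l * s) * h s) := ⟨_, rfl⟩
  have hEc : ContinuousOn E (Icc 0 T) := by
    rw [hE]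
    exact (ContinuousOn.mul (by fun_prop) (hW m n)).sub (continuousOn_const.mul
      (hφ.sub (continuousOn_const.mul (prim_cont T hT _ hφ))))
  have hEd : ∀ t ∈ Ioo 0 T, HasDerivAt E 0 t := by
    intro t ht
    have d1 := der hl A B T w wt wx wy wxx wyy g hA hB hH m n t ht
    rw [← hc', ← hl'] at d1
    have d2 : HasDerivAt (fun t => Real.exp (l * t)) (Real.exp (l * t) * l) t := by
      have a1 : HasDerivAt (fun t => l * t) l t := by
        simpa using (hasDerivAt_id t).const_mul l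
      exact a1.exp
    have d3 := d2.mul (hhd t ht)
    have d4 := prim_der T _ hφ t ht
    have d5 := d1.sub ((d3.sub (d4.const_mul l)).const_mul c)
    rw [hE]
    refine d5.congr_deriv ?_
    ring
  have hE0 : E 0 = coef A B m n (w 0) := by
    rw [hE]
    simp [hh0]
  have hEt : E t = E 0 := by
    rcases eq_or_lt_of_le ht.1 with h0 | h0
    · rw [← h0]
    · obtain ⟨ξ, hξ, he⟩ := exists_hasDerivAt_eq_slope E (fun _ => 0) h0
        (hEc.mono (Icc_subset_Icc_right ht.2)) (fun x hx => hEd x ⟨hx.1, hx.2.trans_le ht.2⟩)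
      rcases div_eq_zero_iff.1 he.symm with h2 | h2
      · linarith
      · linarith
  rw [hE0] at hEt
  rw [hE] at hEt
  linarith

end Pool.Agent.H74.CD.T.HH
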