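import Pool.Agent.H74.CD.Stm

/-! # CD-IBP (helper71) -/

set_option autoImplicit false

namespace Pool.Agent.H74.CD.T.IBP

open MeasureTheory Filter Topology Set intervalIntegral

theorem main : S_IBP := by
  intro p q m hpq f f' f'' hf hf' hc
  obtain ⟨ω, hω⟩ : ∃ ω : ℝ, ω = m * Real.pi / (q - p) := ⟨_, rfl⟩
  rw [← hω]
  have hqp : q - p ≠ 0 := by
    have : 0 < q - p := by linarith
    exact this.ne'
  have hmd : ∀ x, md m p q x = Real.sin (ω * (x - p)) := by
    intro x
    unfold md
    rw [hω]
    congr 1
    field_simp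
  have huIcc : uIcc p q = Icc p q := uIcc_of_le hpq.le
  have hlin : ∀ x, HasDerivAt (fun x => ω * (x - p)) ω x := by
    intro x
    have := ((hasDerivAt_id x).sub_const p).const_mul ω
    simpa using this
  have hs : ∀ x, HasDerivAt (md m p q) (ω * Real.cos (ω * (x - p))) x := by
    intro x
    have h1 := (Real.hasDerivAt_sin (ω * (x - p))).comp x (hlin x)
    have h2 : md m p q = Real.sin ∘ fun x => ω * (x - p) := by
      funext x
      exact hmd x
    rw [h2]
    refine h1.congr_deriv ?_
    ring
  have hcs : ∀ x, HasDerivAt (fun x => ω * Real.cos (ω * (x - p))) (-(ω ^ 2) * md m p q x) x := by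
    intro x
    have h1 := ((Real.hasDerivAt_cos (ω * (x - p))).comp x (hlin x)).const_mul ω
    refine h1.congr_deriv ?_
    rw [hmd]
    ring
  have hcontf : ContinuousOn f (Icc p q) := fun x hx => (hf x hx).continuousAt.continuousWithinAt
  have hcontf' : ContinuousOn f' (Icc p q) := fun x hx => (hf' x hx).continuousAt.continuousWithinAt
  have hcontmd : Continuous (md m p q) := by
    rw [continuous_iff_continuousAt]
    exact fun x => (hs x).continuousAt
  have hcontc : Continuous (fun x => ω * Real.cos (ω * (x - p))) := by fun_prop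
  have e1 := intervalIntegral.integral_mul_deriv_eq_deriv_mul (a := p) (b := q)
    (u := md m p q) (v := f') (u' := fun x => ω * Real.cos (ω * (x - p))) (v' := f'')
    (fun x _ => hs x) (fun x hx => hf' x (huIcc ▸ hx))
    (hcontc.intervalIntegrable _ _) (by
      apply ContinuousOn.intervalIntegrable
      rw [huIcc]; exact hc)
  have e2 := intervalIntegral.integral_mul_deriv_eq_deriv_mul (a := p) (b := q)
    (u := fun x => ω * Real.cos (ω * (x - p))) (v := f) (u' := fun x => -(ω ^ 2) * md m p q x) (v' := f')
    (fun x _ => hcs x) (fun x hx => hf x (huIcc ▸ hx))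
    ((continuous_const.mul hcontmd).intervalIntegrable _ _) (by
      apply ContinuousOn.intervalIntegrable
      rw [huIcc]; exact hcontf')
  have m1 : md m p q p = 0 := by rw [hmd]; simp
  have hqω : ω * (q - p) = m * Real.pi := by rw [hω]; field_simp
  have m2 : md m p q q = 0 := by
    rw [hmd, hqω]
    exact Real.sin_nat_mul_pi m
  have m3 : Real.cos (ω * (q - p)) = (-1) ^ m := by
    rw [hqω]
    exact Real.cos_nat_mul_pi m
  have m4 : Real.cos (ω * (p - p)) = 1 := by simp
  rw [m1, m2, zero_mul, zero_mul, sub_zero, zero_sub] at e1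
  simp only [m3, m4] at e2
  have e3 : ∫ x in p..q, f'' x * md m p q x = ∫ x in p..q, md m p q x * f'' x := by
    congr 1; funext x; ring
  have e4 : ∫ x in p..q, -(ω ^ 2) * md m p q x * f x = -(ω ^ 2) * ∫ x in p..q, f x * md m p q x := by
    rw [← intervalIntegral.integral_const_mul]
    congr 1; funext x; ring
  rw [e3, e1, e2, e4]
  ring

end Pool.Agent.H74.CD.T.IBP
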