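import Pool.Agent.H74.CD.Stm
import Pool.Agent.H74.CD.T.LAPM

/-!
Stub LAP (helper69): the entire function (Müntz type theorem for the Laplace transform).
-/

set_option autoImplicit false

namespace Pool.Agent.H74.CD.T.LAP

open MeasureTheory Filter Topology Set intervalIntegral Complex

/-- the Laplace transform is entire -/
lemma kdiff (T : ℝ) (hT : 0 ≤ T) (H : ℝ → ℝ) (hH : ContinuousOn H (Icc 0 T)) :
    Differentiable ℂ (fun z : ℂ => ∫ σ in (0 : ℝ)..T, cexp (-(z * σ)) * (H σ : ℂ)) := by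
  obtain ⟨C, hC⟩ := isCompact_Icc.exists_bound_of_continuousOn hH
  have hC0 : 0 ≤ C := (norm_nonneg _).trans (hC 0 ⟨le_rfl, hT⟩)
  intro z₀
  have hu : Set.uIoc 0 T ⊆ Icc 0 T := by rw [uIoc_of_le hT]; exact Ioc_subset_Icc_self
  have hH' : ContinuousOn (fun σ : ℝ => (H σ : ℂ)) (Icc 0 T) :=
    Complex.continuous_ofReal.comp_continuousOn hH
  have hcont : ∀ z : ℂ, ContinuousOn (fun σ : ℝ => cexp (-(z * σ)) * (H σ : ℂ)) (Icc 0 T) := by
    intro z
    refine ContinuousOn.mul ?_ hH'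
    fun_prop
  have hcont' : ∀ z : ℂ, ContinuousOn (fun σ : ℝ => cexp (-(z * σ)) * (-(σ : ℂ)) * (H σ : ℂ))
      (Icc 0 T) := by
    intro z
    refine ContinuousOn.mul ?_ hH'
    fun_prop
  have hmeas : ∀ f : ℝ → ℂ, ContinuousOn f (Icc 0 T) →
      AEStronglyMeasurable f (volume.restrict (Set.uIoc 0 T)) := fun f hf =>
    (hf.mono hu).aestronglyMeasurable measurableSet_uIoc
  have h := (intervalIntegral.hasDerivAt_integral_of_dominated_loc_of_deriv_le (μ := volume)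
    (F := fun z σ => cexp (-(z * σ)) * (H σ : ℂ))
    (F' := fun z σ => cexp (-(z * σ)) * (-(σ : ℂ)) * (H σ : ℂ)) (x₀ := z₀)
    (s := Metric.ball z₀ 1) (a := 0) (b := T)
    (bound := fun _ => Real.exp ((‖z₀‖ + 1) * T) * T * C) (Metric.ball_mem_nhds z₀ one_pos)
    (Eventually.of_forall fun z => hmeas _ (hcont z))
    ((hcont z₀).intervalIntegrable_of_Icc hT)
    (hmeas _ (hcont' z₀)) ?_ (by simp) ?_).2
  · exact h.differentiableAt
  · refine Eventually.of_forall fun σ hσ z hz => ?_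
    have hσ' := hu hσ
    rw [Metric.mem_ball, dist_eq_norm] at hz
    have hz1 : ‖z‖ ≤ ‖z₀‖ + 1 := by
      have : ‖z‖ ≤ ‖z₀‖ + ‖z - z₀‖ := by
        have := norm_add_le z₀ (z - z₀)
        rwa [add_sub_cancel] at this
      linarith
    rw [norm_mul, norm_mul, norm_neg, Complex.norm_exp]
    have h1 : (-(z * (σ : ℂ))).re ≤ (‖z₀‖ + 1) * T := by
      calc (-(z * (σ : ℂ))).re ≤ ‖-(z * (σ : ℂ))‖ := Complex.re_le_norm _
        _ = ‖z‖ * σ := by
            rw [norm_neg, norm_mul, Complex.norm_real, Real.norm_of_nonneg hσ'.1]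
        _ ≤ (‖z₀‖ + 1) * T := mul_le_mul hz1 hσ'.2 hσ'.1 (by positivity)
    have h2 : ‖(σ : ℂ)‖ ≤ T := by
      rw [Complex.norm_real, Real.norm_of_nonneg hσ'.1]; exact hσ'.2
    have h3 : ‖(H σ : ℂ)‖ ≤ C := by
      rw [Complex.norm_real]; exact hC σ hσ'
    exact mul_le_mul (mul_le_mul (Real.exp_le_exp.2 h1) h2 (norm_nonneg _) (Real.exp_pos _).le) h3
      (norm_nonneg _) (by positivity)
  · refine Eventually.of_forall fun σ _ z _ => ?_
    refine HasDerivAt.mul_const ?_ _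
    have h1 : HasDerivAt (fun z : ℂ => -(z * (σ : ℂ))) (-(σ : ℂ)) z := by
      have h2 : HasDerivAt (fun z : ℂ => z * (σ : ℂ)) (1 * (σ : ℂ)) z :=
        (hasDerivAt_id z).mul_const (σ : ℂ)
      rw [one_mul] at h2
      exact h2.neg
    exact h1.cexp

/-- the bound in the right half plane -/
lemma kbound (T : ℝ) (hT : 0 ≤ T) (H : ℝ → ℝ) (C : ℝ) (hC : ∀ σ ∈ Icc 0 T, |H σ| ≤ C)
    (z : ℂ) (hz : 0 ≤ z.re) : ‖∫ σ in (0 : ℝ)..T, cexp (-(z * σ)) * (H σ : ℂ)‖ ≤ C * T := by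
  have hu : Set.uIoc 0 T ⊆ Icc 0 T := by rw [uIoc_of_le hT]; exact Ioc_subset_Icc_self
  have h := intervalIntegral.norm_integral_le_of_norm_le_const (a := 0) (b := T) (C := C)
    (f := fun σ : ℝ => cexp (-(z * σ)) * (H σ : ℂ)) (fun σ hσ => ?_)
  · rwa [sub_zero, abs_of_nonneg hT] at h
  · have hσ' := hu hσ
    rw [norm_mul, Complex.norm_exp, Complex.norm_real, Real.norm_eq_abs]
    have h1 : (-(z * (σ : ℂ))).re ≤ 0 := by
      rw [Complex.neg_re, Complex.mul_re, Complex.ofReal_re, Complex.ofReal_im, mul_zero, sub_zero]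
      have := mul_nonneg hz hσ'.1
      linarith
    calc Real.exp (-(z * (σ : ℂ))).re * |H σ| ≤ 1 * |H σ| :=
          mul_le_mul_of_nonneg_right (Real.exp_le_one_iff.2 h1) (abs_nonneg _)
      _ ≤ C := by rw [one_mul]; exact hC σ hσ'

lemma zero_at {g : ℝ → ℂ} (hg : Continuous g) (h : ∀ x : ℝ, 0 < x → g x = 0) : g 0 = 0 := by
  have h1 : Tendsto g (𝓝[>] 0) (𝓝 (g 0)) := (hg.tendsto 0).mono_left nhdsWithin_le_nhds
  have h2 : Tendsto g (𝓝[>] 0) (𝓝 0) :=
    tendsto_const_nhds.congr' (eventually_mem_nhdsWithin.mono fun x hx => (h x hx).symm)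
  exact tendsto_nhds_unique h1 h2

theorem main (h : S_LAPI) : S_LAP := by
  intro T hT H hH κ η S hS hdiv hrel
  obtain ⟨C, hC⟩ := isCompact_Icc.exists_bound_of_continuousOn hH
  have hC' : ∀ σ ∈ Icc 0 T, |H σ| ≤ C := fun σ hσ => by
    have := hC σ hσ
    rwa [Real.norm_eq_abs] at this
  have hC0 : 0 ≤ C := (abs_nonneg _).trans (hC' 0 ⟨le_rfl, hT.le⟩)
  set K : ℂ → ℂ := fun z => ∫ σ in (0 : ℝ)..T, cexp (-(z * σ)) * (H σ : ℂ) with hK
  set E : ℂ → ℂ := fun z => ∫ σ in (0 : ℝ)..1, cexp (-(z * σ)) * ((1 : ℝ) : ℂ) with hE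
  have hKd : Differentiable ℂ K := kdiff T hT.le H hH
  have hEd : Differentiable ℂ E := kdiff 1 zero_le_one (fun _ => 1) continuousOn_const
  have hKb : ∀ z : ℂ, 0 ≤ z.re → ‖K z‖ ≤ C * T := kbound T hT.le H C hC'
  have hEb : ∀ z : ℂ, 0 ≤ z.re → ‖E z‖ ≤ 1 := by
    intro z hz
    have := kbound 1 zero_le_one (fun _ => 1) 1 (fun σ _ => by simp) z hz
    rwa [mul_one] at this
  have hE1 : ∀ z : ℂ, z * E z = 1 - cexp (-z) := by
    intro z
    rcases eq_or_ne z 0 with rfl | hz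
    · simp
    · have h1 : E z = (cexp ((-z) * ((1 : ℝ) : ℂ)) - cexp ((-z) * ((0 : ℝ) : ℂ))) / (-z) := by
        rw [hE, ← integral_exp_mul_complex (neg_ne_zero.2 hz)]
        simp only [Complex.ofReal_one, mul_one, neg_mul]
      rw [h1]
      simp only [Complex.ofReal_one, mul_one, Complex.ofReal_zero, mul_zero, Complex.exp_zero]
      field_simp
      ring
  -- the real integral
  have hKr : ∀ x : ℝ, K x = ((∫ σ in (0 : ℝ)..T, Real.exp (-(x * σ)) * H σ : ℝ) : ℂ) := by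
    intro x
    rw [hK, ← intervalIntegral.integral_ofReal]
    simp only
    congr 1
    funext σ
    push_cast
    rfl
  set f : ℂ → ℂ := fun z => (κ : ℂ) * cexp (-(z * T)) * E z ^ 2 +
    (1 - cexp (-z)) * ((η : ℂ) * E z - (1 - cexp (-z)) * K z) with hf
  have hfE : ∀ z : ℂ, f z = E z ^ 2 * ((κ : ℂ) * cexp (-(z * T)) + z * η - z ^ 2 * K z) := by
    intro z
    simp only [hf]
    rw [← hE1 z]
    ring
  have hfd : Differentiable ℂ f := by
    have h1 : Differentiable ℂ fun z : ℂ => cexp (-(z * T)) := by fun_prop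
    have h2 : Differentiable ℂ fun z : ℂ => (1 : ℂ) - cexp (-z) := by fun_prop
    exact (((h1.const_mul _).mul (hEd.pow 2))).add (h2.mul ((hEd.const_mul _).sub (h2.mul hKd)))
  have hexp1 : ∀ w : ℂ, w.re ≤ 0 → ‖cexp w‖ ≤ 1 := by
    intro w hw
    rw [Complex.norm_exp]
    exact Real.exp_le_one_iff.2 hw
  have hfb : ∀ z : ℂ, 0 ≤ z.re → ‖f z‖ ≤ |κ| * 1 * 1 ^ 2 + 2 * (|η| * 1 + 2 * (C * T)) := by
    intro z hz
    have hb1 : ‖cexp (-(z * T))‖ ≤ 1 := hexp1 _ (by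
      rw [Complex.neg_re, Complex.mul_re, Complex.ofReal_re, Complex.ofReal_im, mul_zero, sub_zero]
      have := mul_nonneg hz hT.le
      linarith)
    have hb2 : ‖(1 : ℂ) - cexp (-z)‖ ≤ 2 := by
      have := hexp1 (-z) (by rw [Complex.neg_re]; linarith)
      calc ‖(1 : ℂ) - cexp (-z)‖ ≤ ‖(1 : ℂ)‖ + ‖cexp (-z)‖ := norm_sub_le _ _
        _ ≤ 1 + 1 := by rw [norm_one]; linarith
        _ = 2 := by norm_num
    have hbE := hEb z hz
    have hbK := hKb z hz
    simp only [hf]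
    refine (norm_add_le _ _).trans (add_le_add ?_ ?_)
    · rw [norm_mul, norm_mul, norm_pow, Complex.norm_real, Real.norm_eq_abs]
      gcongr
    · rw [norm_mul]
      refine mul_le_mul hb2 ?_ (norm_nonneg _) (by norm_num)
      refine (norm_sub_le _ _).trans (add_le_add ?_ ?_)
      · rw [norm_mul, Complex.norm_real, Real.norm_eq_abs]
        gcongr
      · rw [norm_mul]
        gcongr
  have hfS : ∀ a ∈ S, f a = 0 := by
    intro a ha
    rw [hfE, hKr a]
    have h1 := hrel a ha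
    have h2 : (κ : ℂ) * cexp (-((a : ℂ) * T)) + a * η -
        (a : ℂ) ^ 2 * ((∫ σ in (0 : ℝ)..T, Real.exp (-(a * σ)) * H σ : ℝ) : ℂ) = 0 := by
      rw [sub_eq_zero]
      have h3 : ((κ * Real.exp (-(a * T)) + a * η : ℝ) : ℂ) =
          ((a ^ 2 * ∫ σ in (0 : ℝ)..T, Real.exp (-(a * σ)) * H σ : ℝ) : ℂ) := by rw [h1]
      rw [Complex.ofReal_mul (a ^ 2), Complex.ofReal_pow] at h3
      rw [← h3]
      push_cast
      rfl
    rw [h2, mul_zero]
  have hf0 := LAPM.muntz hfd hfb (fun a ha => (hS a ha).le) hdiv hfS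
  have hpos : ∀ x : ℝ, 0 < x → (κ : ℂ) * cexp (-((x : ℂ) * T)) + x * η - (x : ℂ) ^ 2 * K x = 0 := by
    intro x hx
    have h1 := hf0 x
    rw [hfE] at h1
    refine (mul_eq_zero.1 h1).resolve_left (pow_ne_zero 2 ?_)
    intro hz
    have h2 := hE1 x
    rw [hz, mul_zero] at h2
    have h3 : cexp (-(x : ℂ)) = 1 := (sub_eq_zero.1 h2.symm).symm
    have h4 : Real.exp (-x) = 1 := by
      have : ((Real.exp (-x) : ℝ) : ℂ) = 1 := by push_cast; exact h3
      exact_mod_cast this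
    have h5 : Real.exp (-x) < 1 := Real.exp_lt_one_iff.2 (by linarith)
    linarith
  have hKc : Continuous (fun x : ℝ => K x) := hKd.continuous.comp Complex.continuous_ofReal
  have hκ : κ = 0 := by
    have h1 := zero_at (g := fun x : ℝ => (κ : ℂ) * cexp (-((x : ℂ) * T)) + x * η - (x : ℂ) ^ 2 * K x)
      (by
        refine Continuous.sub ?_ (Continuous.mul ?_ hKc)
        · fun_prop
        · fun_prop) hpos
    simp at h1
    exact h1
  have hpos2 : ∀ x : ℝ, 0 < x → (η : ℂ) - (x : ℂ) * K x = 0 := by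
    intro x hx
    have h1 := hpos x hx
    rw [hκ] at h1
    have h2 : (x : ℂ) * ((η : ℂ) - (x : ℂ) * K x) = 0 := by
      rw [← h1]
      push_cast
      ring
    have hx0 : (x : ℂ) ≠ 0 := by exact_mod_cast hx.ne'
    exact (mul_eq_zero.1 h2).resolve_left hx0
  have hη : η = 0 := by
    have h1 := zero_at (g := fun x : ℝ => (η : ℂ) - (x : ℂ) * K x)
      (continuous_const.sub (Complex.continuous_ofReal.mul hKc)) hpos2
    simp at h1
    exact h1
  refine ⟨hκ, hη, h T hT H hH ?_⟩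
  intro x hx
  have h1 := hpos2 x hx
  rw [hη, hKr x] at h1
  have hx0 : (x : ℂ) ≠ 0 := by exact_mod_cast hx.ne'
  have h2 : (x : ℂ) * ((∫ σ in (0 : ℝ)..T, Real.exp (-(x * σ)) * H σ : ℝ) : ℂ) = 0 := by
    have : ((0 : ℝ) : ℂ) - (x : ℂ) * ((∫ σ in (0 : ℝ)..T, Real.exp (-(x * σ)) * H σ : ℝ) : ℂ) = 0 := h1
    rw [Complex.ofReal_zero, zero_sub, neg_eq_zero] at this
    exact this
  have h3 := (mul_eq_zero.1 h2).resolve_left hx0
  exact_mod_cast h3

end Pool.Agent.H74.CD.T.LAP
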