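import Pool.Agent.H74.CD.Stm

/-! # CD-LAPI: injectivity of the Laplace transform (helper56) -/

set_option autoImplicit false

namespace Pool.Agent.H74.CD.T.LAPI

open MeasureTheory Filter Topology Set Pool.Agent.H74.CD

theorem main : S_LAPI := by
  intro T hT H hH hL
  have hcE : Continuous fun σ : ℝ => Real.exp (-σ) := by fun_prop
  -- polynomials in `exp (-σ)`
  have hpoly : ∀ q : Polynomial ℝ,
      ∫ σ in (0 : ℝ)..T, q.eval (Real.exp (-σ)) * (Real.exp (-σ) * H σ) = 0 := by
    intro q
    have hint : ∀ n : ℕ, IntervalIntegrable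
        (fun σ => q.coeff n * Real.exp (-σ) ^ n * (Real.exp (-σ) * H σ)) volume 0 T := by
      intro n
      apply ContinuousOn.intervalIntegrable
      rw [uIcc_of_le hT.le]
      exact ContinuousOn.mul (by fun_prop) (ContinuousOn.mul (by fun_prop) hH)
    have h1 : ∀ σ : ℝ, q.eval (Real.exp (-σ)) * (Real.exp (-σ) * H σ) =
        ∑ n ∈ Finset.range (q.natDegree + 1),
          q.coeff n * Real.exp (-σ) ^ n * (Real.exp (-σ) * H σ) := by
      intro σ
      rw [Polynomial.eval_eq_sum_range, Finset.sum_mul]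
    simp only [h1]
    rw [intervalIntegral.integral_finsetSum fun n _ => hint n]
    refine Finset.sum_eq_zero fun n _ => ?_
    have h2 := hL ((n : ℝ) + 1) (by positivity)
    have h3 : ∀ σ : ℝ, q.coeff n * Real.exp (-σ) ^ n * (Real.exp (-σ) * H σ) =
        q.coeff n * (Real.exp (-(((n : ℝ) + 1) * σ)) * H σ) := by
      intro σ
      have h4 : Real.exp (-(((n : ℝ) + 1) * σ)) = Real.exp (-σ) ^ n * Real.exp (-σ) := by
        rw [← Real.exp_nat_mul, ← Real.exp_add]
        congr 1
        ring
      rw [h4]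
      ring
    simp only [h3]
    rw [intervalIntegral.integral_const_mul, h2, mul_zero]
  -- the integral of `exp (-σ) H ^ 2`
  have hI : IntervalIntegrable (fun σ => H σ * (Real.exp (-σ) * H σ)) volume 0 T := by
    apply ContinuousOn.intervalIntegrable
    rw [uIcc_of_le hT.le]
    exact ContinuousOn.mul hH (ContinuousOn.mul (by fun_prop) hH)
  have hAc : ContinuousOn (fun σ => |Real.exp (-σ) * H σ|) (Icc 0 T) :=
    (ContinuousOn.mul (by fun_prop) hH).abs
  have hA : IntervalIntegrable (fun σ => |Real.exp (-σ) * H σ|) volume 0 T := by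
    apply ContinuousOn.intervalIntegrable
    rw [uIcc_of_le hT.le]
    exact hAc
  obtain ⟨A, hAe⟩ : ∃ A, A = ∫ σ in (0 : ℝ)..T, |Real.exp (-σ) * H σ| := ⟨_, rfl⟩
  have hA0 : 0 ≤ A := by
    rw [hAe]
    exact intervalIntegral.integral_nonneg hT.le fun σ _ => abs_nonneg _
  have hle : ∀ ε : ℝ, 0 < ε → ∫ σ in (0 : ℝ)..T, H σ * (Real.exp (-σ) * H σ) ≤ ε * A := by
    intro ε hε
    have hc : ContinuousOn (fun u => H (-Real.log u)) (Icc (Real.exp (-T)) 1) := by
      apply hH.comp
      · apply ContinuousOn.neg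
        apply Real.continuousOn_log.mono
        intro u hu
        have := lt_of_lt_of_le (Real.exp_pos (-T)) hu.1
        exact ne_of_gt this
      · intro u hu
        have hu0 := lt_of_lt_of_le (Real.exp_pos (-T)) hu.1
        constructor
        · have := Real.log_nonpos hu0.le hu.2
          linarith
        · have := Real.log_le_log (Real.exp_pos (-T)) hu.1
          rw [Real.log_exp] at this
          linarith
    obtain ⟨q, hq⟩ := exists_polynomial_near_of_continuousOn (Real.exp (-T)) 1 _ hc ε hε
    have h1 : ∫ σ in (0 : ℝ)..T, H σ * (Real.exp (-σ) * H σ) =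
        ∫ σ in (0 : ℝ)..T, (H σ - q.eval (Real.exp (-σ))) * (Real.exp (-σ) * H σ) := by
      have h2 : ∀ σ : ℝ, (H σ - q.eval (Real.exp (-σ))) * (Real.exp (-σ) * H σ) =
          H σ * (Real.exp (-σ) * H σ) - q.eval (Real.exp (-σ)) * (Real.exp (-σ) * H σ) :=
        fun σ => by ring
      simp only [h2]
      rw [intervalIntegral.integral_sub hI, hpoly q, sub_zero]
      apply ContinuousOn.intervalIntegrable
      rw [uIcc_of_le hT.le]
      exact ContinuousOn.mul (q.continuous.comp hcE).continuousOn
        (ContinuousOn.mul (by fun_prop) hH)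
    rw [h1, hAe, ← intervalIntegral.integral_const_mul]
    apply intervalIntegral.integral_mono_on hT.le
    · apply ContinuousOn.intervalIntegrable
      rw [uIcc_of_le hT.le]
      exact ContinuousOn.mul (hH.sub (q.continuous.comp hcE).continuousOn)
        (ContinuousOn.mul (by fun_prop) hH)
    · exact hA.const_mul ε
    · intro σ hσ
      have h3 := hq (Real.exp (-σ)) ⟨Real.exp_le_exp.2 (by linarith [hσ.2]),
        Real.exp_le_one_iff.2 (by linarith [hσ.1])⟩
      simp only [Real.log_exp, neg_neg] at h3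
      refine (le_abs_self _).trans ?_
      rw [abs_mul]
      apply mul_le_mul_of_nonneg_right _ (abs_nonneg _)
      rw [abs_sub_comm]
      exact h3.le
  have hzero : ∫ σ in (0 : ℝ)..T, H σ * (Real.exp (-σ) * H σ) ≤ 0 := by
    by_contra hcon
    push Not at hcon
    obtain ⟨I, hIe⟩ : ∃ I, I = ∫ σ in (0 : ℝ)..T, H σ * (Real.exp (-σ) * H σ) := ⟨_, rfl⟩
    rw [← hIe] at hcon hle
    have h1 := hle (I / (2 * (A + 1))) (by positivity)
    have h2 : I / (2 * (A + 1)) * A ≤ I / 2 := by
      rw [div_mul_eq_mul_div, div_le_div_iff₀ (by positivity) (by norm_num)]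
      nlinarith
    linarith
  intro σ hσ
  by_contra hne
  have hpos : 0 < ∫ σ in (0 : ℝ)..T, H σ * (Real.exp (-σ) * H σ) := by
    apply intervalIntegral.integral_pos hT
    · exact ContinuousOn.mul hH (ContinuousOn.mul (by fun_prop) hH)
    · intro x _
      have : H x * (Real.exp (-x) * H x) = Real.exp (-x) * (H x) ^ 2 := by ring
      rw [this]
      positivity
    · refine ⟨σ, hσ, ?_⟩
      have : H σ * (Real.exp (-σ) * H σ) = Real.exp (-σ) * (H σ) ^ 2 := by ring
      rw [this]
      positivity
  linarith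

end Pool.Agent.H74.CD.T.LAPI
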