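import Pool.Agent.H74.CD.Stm

/-!
# Project CD: stub LIM
-/

set_option autoImplicit false

namespace Pool.Agent.H74.CD.T.LIM

open MeasureTheory Filter Topology Set intervalIntegral

theorem lam_nonneg (A B : ℝ) (m n : ℕ) : 0 ≤ lam A B m n := by
  unfold lam
  positivity

theorem lam_tendsto {A B : ℝ} (hA : 0 < A) (hB : 0 < B) (m n : ℕ) {δ : ℝ} (hδ : 0 < δ) :
    ∃ ε₁ : ℝ, 0 < ε₁ ∧ ∀ ε, 0 < ε → ε < ε₁ →
      |lam A B m n - lam (A - 2 * ε) (B - 2 * ε) m n| ≤ δ := by
  have h1 : ContinuousAt (fun ε : ℝ => lam (A - 2 * ε) (B - 2 * ε) m n) 0 := by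
    unfold lam
    refine ContinuousAt.add (ContinuousAt.pow (ContinuousAt.div ?_ ?_ ?_) 2)
      (ContinuousAt.pow (ContinuousAt.div ?_ ?_ ?_) 2)
    · exact continuousAt_const
    · fun_prop
    · simpa using hA.ne'
    · exact continuousAt_const
    · fun_prop
    · simpa using hB.ne'
  rw [Metric.continuousAt_iff] at h1
  obtain ⟨ε₁, h2, h3⟩ := h1 δ hδ
  refine ⟨ε₁, h2, fun ε h4 h5 => ?_⟩
  have h6 := h3 (x := ε) (by rw [Real.dist_eq, sub_zero, abs_of_pos h4]; exact h5)
  rw [Real.dist_eq, abs_sub_comm] at h6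
  simpa using h6.le

theorem md_abs (m : ℕ) (p q x : ℝ) : |md m p q x| ≤ 1 := Real.abs_sin_le_one _

theorem coefE_bound {A B : ℝ} (m n : ℕ) {K ε : ℝ} (hK : 0 ≤ K) (hε : 0 < ε)
    (hεA : 2 * ε < A) (hεB : 2 * ε < B) (v : ℝ → ℝ → ℝ)
    (hv : ∀ x ∈ Icc 0 A, ∀ y ∈ Icc 0 B, |v x y| ≤ K) :
    |coefE A B ε m n v| ≤ K * B * A := by
  unfold coefE
  have h1 : ∀ x ∈ uIoc ε (A - ε),
      ‖∫ y in ε..(B - ε), v x y * (md m ε (A - ε) x * md n ε (B - ε) y)‖ ≤ K * B := by
    intro x hx
    rw [uIoc_of_le (by linarith)] at hx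
    have h2 : ∀ y ∈ uIoc ε (B - ε),
        ‖v x y * (md m ε (A - ε) x * md n ε (B - ε) y)‖ ≤ K := by
      intro y hy
      rw [uIoc_of_le (by linarith)] at hy
      rw [norm_mul, norm_mul, Real.norm_eq_abs, Real.norm_eq_abs, Real.norm_eq_abs]
      calc |v x y| * (|md m ε (A - ε) x| * |md n ε (B - ε) y|)
          ≤ K * (1 * 1) := by
            apply mul_le_mul _ _ (by positivity) hK
            · exact hv x ⟨by linarith [hx.1], by linarith [hx.2]⟩ y
                ⟨by linarith [hy.1], by linarith [hy.2]⟩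
            · exact mul_le_mul (md_abs _ _ _ _) (md_abs _ _ _ _) (abs_nonneg _) zero_le_one
        _ = K := by ring
    refine (norm_integral_le_of_norm_le_const h2).trans ?_
    rw [abs_of_nonneg (by linarith)]
    exact mul_le_mul_of_nonneg_left (by linarith) hK
  rw [← Real.norm_eq_abs]
  refine (norm_integral_le_of_norm_le_const h1).trans ?_
  rw [abs_of_nonneg (by linarith)]
  have hB : 0 < B := by linarith
  exact mul_le_mul_of_nonneg_left (by linarith) (by positivity)

theorem main (ho : S_ODE) (hc : S_CEL) (hb : S_BDL) : S_LIM := by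
  intro A B T w wt wx wy wxx wyy g hA hB h m n s t hs hst htT
  set L := lam A B m n with hL
  have hL0 : 0 ≤ L := lam_nonneg A B m n
  have hsub : Icc s t ⊆ Ioo 0 T := fun r hr => ⟨by linarith [hr.1], by linarith [hr.2]⟩
  have hT : 0 ≤ T := by linarith
  -- bound for `w`
  obtain ⟨K₀, hK₀⟩ := (isCompact_Icc.prod (isCompact_Icc.prod isCompact_Icc)).exists_bound_of_continuousOn
    h.cont
  set K := |K₀| with hK
  have hK1 : ∀ r ∈ Icc s t, ∀ x ∈ Icc 0 A, ∀ y ∈ Icc 0 B, |w r x y| ≤ K := by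
    intro r hr x hx y hy
    have h1 := hK₀ (r, x, y) ⟨⟨(hsub hr).1.le, (hsub hr).2.le⟩, hx, hy⟩
    exact h1.trans (le_abs_self _)
  have hcont : ContinuousOn (fun q : ℝ × ℝ × ℝ => w q.1 q.2.1 q.2.2)
      (Icc s t ×ˢ (Icc 0 A ×ˢ Icc 0 B)) :=
    h.cont.mono (prod_mono_left fun r hr => ⟨(hsub hr).1.le, (hsub hr).2.le⟩)
  have hgc : ContinuousOn (fun r => Real.exp (L * r) * g r) (Ioo 0 T) :=
    (Continuous.continuousOn (by fun_prop)).mul h.gc
  set G := ∫ r in s..t, Real.exp (L * r) * g r with hG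
  set cw := coef A B m n (w t) with hcw
  set cs := coef A B m n (w s) with hcs
  set c1 := coef A B m n (fun _ _ => 1) with hc1
  set M := K * B * A with hM
  have hM0 : 0 ≤ M := by positivity
  -- the main estimate
  have key : ∀ δ : ℝ, 0 < δ → |Real.exp (L * t) * cw - Real.exp (L * s) * cs - c1 * G| ≤
      δ * (Real.exp (L * t) * (M + 1) * (t - s) + Real.exp (L * t) + Real.exp (L * s) + |G|) := by
    intro δ hδ
    obtain ⟨ε₁, he1, hA1, hB1, h1⟩ := hc A B s t w hA hB hcont m n δ hδ
    obtain ⟨ε₂, he2, hA2, hB2, h2⟩ := hc A B s t (fun _ _ _ => 1) hA hB continuousOn_const m n δ hδ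
    obtain ⟨ε₃, he3, hA3, hB3, h3⟩ := hb A B s t w hA hB hcont
      (fun r hr x hx y hy hxy => h.wall r (hsub hr) x hx y hy hxy) m n δ hδ
    obtain ⟨ε₄, he4, h4⟩ := lam_tendsto hA hB m n hδ
    obtain ⟨ε, hε0, hε⟩ := exists_between (show 0 < min (min ε₁ ε₂) (min ε₃ ε₄) by
      simp only [lt_min_iff]; exact ⟨⟨he1, he2⟩, he3, he4⟩)
    simp only [lt_min_iff] at hε
    obtain ⟨⟨hε1, hε2⟩, hε3, hε4⟩ := hε
    have hεA : 2 * ε < A := by linarith
    have hεB : 2 * ε < B := by linarith
    set Le := lam (A - 2 * ε) (B - 2 * ε) m n with hLe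
    set ce := coefE A B ε m n (fun _ _ => 1) with hce
    set I : ℝ → ℝ := fun r => coefE A B ε m n (w r) with hI
    set b : ℝ → ℝ := fun r => bd A B ε m n (w r) with hbd
    have hode : ∀ r ∈ Icc s t, HasDerivAt I (-Le * I r - b r + g r * ce) r := fun r hr =>
      ho A B T w wt wx wy wxx wyy g hA hB h m n ε hε0 hεA hεB r (hsub hr)
    have hIb : ∀ r ∈ Icc s t, |I r| ≤ M := fun r hr =>
      coefE_bound m n (abs_nonneg _) hε0 hεA hεB (w r) (hK1 r hr)
    set D : ℝ → ℝ := fun r => Real.exp (L * r) * I r -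
      ce * ∫ ρ in s..r, Real.exp (L * ρ) * g ρ with hD
    have hDd : ∀ r ∈ Icc s t, HasDerivWithinAt D (Real.exp (L * r) * ((L - Le) * I r - b r))
        (Icc s t) r := by
      intro r hr
      have e1 : HasDerivAt (fun r => Real.exp (L * r)) (Real.exp (L * r) * L) r := by
        have := ((hasDerivAt_id r).const_mul L).exp
        simpa using this
      have e2 := e1.mul (hode r hr)
      have e3 : HasDerivAt (fun u => ∫ ρ in s..u, Real.exp (L * ρ) * g ρ)
          (Real.exp (L * r) * g r) r := by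
        have hr' := hsub hr
        refine intervalIntegral.integral_hasDerivAt_right ?_ ?_ ?_
        · apply ContinuousOn.intervalIntegrable
          rw [uIcc_of_le hr.1]
          exact hgc.mono fun x hx => ⟨by linarith [hx.1], by linarith [hx.2, hr'.2]⟩
        · exact hgc.stronglyMeasurableAtFilter isOpen_Ioo r hr'
        · exact hgc.continuousAt (isOpen_Ioo.mem_nhds hr')
      have e4 := e2.sub (e3.const_mul ce)
      refine (e4.congr_deriv ?_).hasDerivWithinAt
      ring
    have hbound : ∀ r ∈ Icc s t, ‖Real.exp (L * r) * ((L - Le) * I r - b r)‖ ≤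
        Real.exp (L * t) * (δ * (M + 1)) := by
      intro r hr
      rw [norm_mul, Real.norm_eq_abs, Real.norm_eq_abs, abs_of_pos (Real.exp_pos _)]
      apply mul_le_mul _ _ (abs_nonneg _) (Real.exp_pos _).le
      · exact Real.exp_le_exp.2 (mul_le_mul_of_nonneg_left hr.2 hL0)
      · calc |(L - Le) * I r - b r| ≤ |(L - Le) * I r| + |b r| := abs_sub _ _
          _ ≤ δ * M + δ := by
              apply add_le_add
              · rw [abs_mul]
                exact mul_le_mul (h4 ε hε0 hε4) (hIb r hr) (abs_nonneg _) hδ.le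
              · exact h3 ε hε0 hε3 r hr
          _ = δ * (M + 1) := by ring
    have hmv := (convex_Icc s t).norm_image_sub_le_of_norm_hasDerivWithin_le hDd hbound
      (left_mem_Icc.2 hst) (right_mem_Icc.2 hst)
    have hDs : D s = Real.exp (L * s) * I s := by
      simp only [hD, integral_same, mul_zero, sub_zero]
    have hDt : D t = Real.exp (L * t) * I t - ce * G := rfl
    rw [hDs, hDt, Real.norm_eq_abs, Real.norm_eq_abs, abs_of_nonneg (sub_nonneg.2 hst)] at hmv
    have k1 : |I t - cw| ≤ δ := h1 ε hε0 hε1 t (right_mem_Icc.2 hst)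
    have k2 : |I s - cs| ≤ δ := h1 ε hε0 hε1 s (left_mem_Icc.2 hst)
    have k3 : |ce - c1| ≤ δ := h2 ε hε0 hε2 t (right_mem_Icc.2 hst)
    have e : Real.exp (L * t) * cw - Real.exp (L * s) * cs - c1 * G =
        (Real.exp (L * t) * I t - ce * G - Real.exp (L * s) * I s) -
          Real.exp (L * t) * (I t - cw) + Real.exp (L * s) * (I s - cs) + (ce - c1) * G := by ring
    rw [e]
    have a1 : |Real.exp (L * t) * (I t - cw)| ≤ Real.exp (L * t) * δ := by
      rw [abs_mul, abs_of_pos (Real.exp_pos _)]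
      exact mul_le_mul_of_nonneg_left k1 (Real.exp_pos _).le
    have a2 : |Real.exp (L * s) * (I s - cs)| ≤ Real.exp (L * s) * δ := by
      rw [abs_mul, abs_of_pos (Real.exp_pos _)]
      exact mul_le_mul_of_nonneg_left k2 (Real.exp_pos _).le
    have a3 : |(ce - c1) * G| ≤ δ * |G| := by
      rw [abs_mul]
      exact mul_le_mul_of_nonneg_right k3 (abs_nonneg _)
    calc |(Real.exp (L * t) * I t - ce * G - Real.exp (L * s) * I s) -
          Real.exp (L * t) * (I t - cw) + Real.exp (L * s) * (I s - cs) + (ce - c1) * G|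
        ≤ |Real.exp (L * t) * I t - ce * G - Real.exp (L * s) * I s| +
          |Real.exp (L * t) * (I t - cw)| + |Real.exp (L * s) * (I s - cs)| + |(ce - c1) * G| := by
          refine (abs_add_le _ _).trans (add_le_add ?_ le_rfl)
          refine (abs_add_le _ _).trans (add_le_add ?_ le_rfl)
          exact abs_sub _ _
      _ ≤ Real.exp (L * t) * (δ * (M + 1)) * (t - s) + Real.exp (L * t) * δ +
          Real.exp (L * s) * δ + δ * |G| := by
          linarith
      _ = _ := by ring
  by_contra hne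
  have hX : 0 < |Real.exp (L * t) * cw - Real.exp (L * s) * cs - c1 * G| := by
    rw [abs_pos]
    intro h0
    exact hne (by linarith)
  set X := |Real.exp (L * t) * cw - Real.exp (L * s) * cs - c1 * G| with hXd
  set N := Real.exp (L * t) * (M + 1) * (t - s) + Real.exp (L * t) + Real.exp (L * s) + |G| with hN
  have hN0 : 0 ≤ N := by
    have : 0 ≤ t - s := sub_nonneg.2 hst
    positivity
  have h1 := key (X / (2 * (N + 1))) (by positivity)
  have h2 : X / (2 * (N + 1)) * N < X := by
    rw [div_mul_eq_mul_div, div_lt_iff₀ (by positivity)]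
    nlinarith
  linarith

end Pool.Agent.H74.CD.T.LIM
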