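import Pool.Agent.H74.CD.Stm

/-! # CD-MAIN (helper63): the theorem for the heat equation -/

set_option autoImplicit false

namespace Pool.Agent.H74.CD.T.MAIN

open MeasureTheory Filter Topology Set intervalIntegral

/-- zero in the open rectangle implies zero on the closed one -/
lemma ext_zero {A B : ℝ} (hA : 0 < A) (hB : 0 < B) {v : ℝ → ℝ → ℝ}
    (hv : ContinuousOn (fun q : ℝ × ℝ => v q.1 q.2) (Icc 0 A ×ˢ Icc 0 B))
    (h0 : ∀ x ∈ Ioo 0 A, ∀ y ∈ Ioo 0 B, v x y = 0) :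
    ∀ x ∈ Icc 0 A, ∀ y ∈ Icc 0 B, v x y = 0 := by
  have h1 : EqOn (fun q : ℝ × ℝ => v q.1 q.2) (fun _ => 0) (Ioo 0 A ×ˢ Ioo 0 B) := by
    intro q hq
    exact h0 q.1 hq.1 q.2 hq.2
  have h2 : Icc 0 A ×ˢ Icc 0 B ⊆ closure (Ioo 0 A ×ˢ Ioo 0 B) := by
    rw [closure_prod_eq, closure_Ioo hA.ne, closure_Ioo hB.ne]
  have h3 := h1.of_subset_closure hv continuousOn_const
    (Set.prod_mono Ioo_subset_Icc_self Ioo_subset_Icc_self) h2
  intro x hx y hy
  exact h3 (show (x, y) ∈ Icc 0 A ×ˢ Icc 0 B from ⟨hx, hy⟩)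

lemma coef_zero {A B : ℝ} (hA : 0 < A) (hB : 0 < B) {v : ℝ → ℝ → ℝ}
    (h0 : ∀ x ∈ Icc 0 A, ∀ y ∈ Icc 0 B, v x y = 0) (m n : ℕ) : coef A B m n v = 0 := by
  unfold coef
  have h1 : ∫ x in (0 : ℝ)..A, ∫ y in (0 : ℝ)..B, v x y * (md m 0 A x * md n 0 B y) =
      ∫ _x in (0 : ℝ)..A, (0 : ℝ) := by
    refine intervalIntegral.integral_congr fun x hx => ?_
    rw [uIcc_of_le hA.le] at hx
    have h2 : ∫ y in (0 : ℝ)..B, v x y * (md m 0 A x * md n 0 B y) = ∫ _y in (0 : ℝ)..B, (0 : ℝ) := by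
      refine intervalIntegral.integral_congr fun y hy => ?_
      rw [uIcc_of_le hB.le] at hy
      rw [h0 x hx y hy, zero_mul]
    rw [h2]
    simp
  rw [h1]
  simp

lemma lam_pos {A B : ℝ} (hA : 0 < A) (_hB : 0 < B) {m n : ℕ} (hm : 1 ≤ m) : 0 < lam A B m n := by
  unfold lam
  have h1 : (0 : ℝ) < m := by exact_mod_cast hm
  have h2 := Real.pi_pos
  positivity

theorem main (hh : S_HH) (h1 : S_ONE) (hp : S_PCO) (hc : S_CPL) (hl : S_LAP) (hd : S_DIV) :
    S_MAIN := by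
  classical
  intro A B T w wt wx wy wxx wyy g hA hB hT hHeat hwT P κ F hP hF
  obtain ⟨h, hcont, hform⟩ := hh A B T w wt wx wy wxx wyy g hA hB hT hHeat
  have hslice : ∀ t ∈ Icc 0 T,
      ContinuousOn (fun q : ℝ × ℝ => w t q.1 q.2) (Icc 0 A ×ˢ Icc 0 B) := by
    intro t ht
    have h2 : ContinuousOn (fun q : ℝ × ℝ => (t, q)) (Icc 0 A ×ˢ Icc 0 B) :=
      (continuous_const.prodMk continuous_id).continuousOn
    exact hHeat.cont.comp h2 (fun q hq => ⟨ht, hq⟩)
  have hT0 : T ∈ Icc 0 T := ⟨hT.le, le_rfl⟩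
  have hwT' := ext_zero hA hB (hslice T hT0) hwT
  have hcT : ∀ m n, coef A B m n (w T) = 0 := fun m n => coef_zero hA hB hwT' m n
  -- the relation for the good pairs
  have hrel : ∀ m n : ℕ, Odd m → Odd n → (m, n) ∉ F →
      κ * Real.exp (-(lam A B m n * T)) + lam A B m n * h T =
        lam A B m n ^ 2 * ∫ σ in (0 : ℝ)..T, Real.exp (-(lam A B m n * σ)) * h (T - σ) := by
    intro m n hm hn hmn
    have hm1 : 1 ≤ m := hm.pos
    have hn1 : 1 ≤ n := hn.pos
    have hlam := lam_pos (n := n) hA hB hm1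
    obtain ⟨l, hldef⟩ : ∃ l : ℝ, l = lam A B m n := ⟨_, rfl⟩
    obtain ⟨c, hcdef⟩ : ∃ c : ℝ, c = coef A B m n (fun _ _ => 1) := ⟨_, rfl⟩
    have hcpos : 0 < c := by rw [hcdef]; exact (h1 A B hA hB m n).1 hm hn
    have hw0 : l * coef A B m n (w 0) = κ * c := by
      rw [hF m n hm1 hn1 hmn]
      by_cases hκ : κ = 0
      · rw [hκ]; ring
      · have h3 := hp A B P hA hB (hP hκ) m n hm1 hn1
        rw [← hldef, ← hcdef] at h3
        rw [← h3]; ring
    have h2 := hform m n T hT0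
    rw [hcT, mul_zero, zero_sub, ← hldef, ← hcdef] at h2
    rw [← hldef] at hlam ⊢
    have hsub : ∫ σ in (0 : ℝ)..T, Real.exp (-(l * σ)) * h (T - σ) =
        Real.exp (-(l * T)) * ∫ s in (0 : ℝ)..T, Real.exp (l * s) * h s := by
      have h3 := intervalIntegral.integral_comp_sub_left (a := 0) (b := T)
        (fun s => Real.exp (-(l * (T - s))) * h s) T
      rw [sub_self, sub_zero] at h3
      calc ∫ σ in (0 : ℝ)..T, Real.exp (-(l * σ)) * h (T - σ) =
          ∫ σ in (0 : ℝ)..T, Real.exp (-(l * (T - (T - σ)))) * h (T - σ) := by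
            refine intervalIntegral.integral_congr fun σ _ => ?_
            rw [sub_sub_cancel]
        _ = ∫ s in (0 : ℝ)..T, Real.exp (-(l * (T - s))) * h s := h3
        _ = ∫ s in (0 : ℝ)..T, Real.exp (-(l * T)) * (Real.exp (l * s) * h s) := by
            refine intervalIntegral.integral_congr fun s _ => ?_
            rw [← mul_assoc, ← Real.exp_add]
            congr 2
            ring
        _ = _ := intervalIntegral.integral_const_mul _ _
    rw [hsub]
    obtain ⟨I, hI⟩ : ∃ I : ℝ, I = ∫ s in (0 : ℝ)..T, Real.exp (l * s) * h s := ⟨_, rfl⟩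
    rw [← hI] at h2 ⊢
    have he : Real.exp (-(l * T)) * Real.exp (l * T) = 1 := by
      rw [← Real.exp_add]; simp
    -- `κ c = - l c (e h - l I)`
    have h4 : κ * c = -(l * (c * (Real.exp (l * T) * h T - l * I))) := by
      rw [← hw0, ← h2]; ring
    have h5 : κ = -(l * (Real.exp (l * T) * h T - l * I)) := by
      have h6 : κ * c = (-(l * (Real.exp (l * T) * h T - l * I))) * c := by rw [h4]; ring
      exact mul_right_cancel₀ hcpos.ne' h6
    rw [h5]
    linear_combination (-(l * h T)) * he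
  -- the set of eigenvalues
  obtain ⟨F', hF'⟩ : ∃ F' : Finset ℝ, F' = F.image (fun p => lam A B p.1 p.2) := ⟨_, rfl⟩
  have hHcont : ContinuousOn (fun σ => h (T - σ)) (Icc 0 T) := by
    refine hcont.comp (by fun_prop) ?_
    intro σ hσ
    exact ⟨by linarith [hσ.2], by linarith [hσ.1]⟩
  obtain ⟨hκ, hη, hH⟩ := hl T hT (fun σ => h (T - σ)) hHcont κ (h T) (Lam A B \ (F' : Set ℝ))
    (by
      rintro a ⟨⟨m, n, hm, hn, rfl⟩, -⟩
      exact lam_pos hA hB hm.pos)
    (hd A B hA hB F')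
    (by
      rintro a ⟨⟨m, n, hm, hn, rfl⟩, ha⟩
      refine hrel m n hm hn fun hmem => ha ?_
      rw [hF', Finset.mem_coe, Finset.mem_image]
      exact ⟨(m, n), hmem, rfl⟩)
  have hh0 : ∀ s ∈ Icc 0 T, h s = 0 := by
    intro s hs
    have h2 := hH (T - s) ⟨by linarith [hs.2], by linarith [hs.1]⟩
    rwa [sub_sub_cancel] at h2
  refine ⟨hκ, ?_⟩
  have hcw : ∀ m n : ℕ, ∀ t ∈ Icc 0 T,
      Real.exp (lam A B m n * t) * coef A B m n (w t) = coef A B m n (w 0) := by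
    intro m n t ht
    have h2 := hform m n t ht
    have h3 : ∫ s in (0 : ℝ)..t, Real.exp (lam A B m n * s) * h s = 0 := by
      have h4 : ∫ s in (0 : ℝ)..t, Real.exp (lam A B m n * s) * h s = ∫ _s in (0 : ℝ)..t, (0 : ℝ) := by
        refine intervalIntegral.integral_congr fun s hs => ?_
        rw [uIcc_of_le ht.1] at hs
        rw [hh0 s ⟨hs.1, hs.2.trans ht.2⟩, mul_zero]
      rw [h4]; simp
    rw [h3, hh0 t ht, mul_zero, mul_zero, sub_zero, mul_zero] at h2
    linarith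
  intro t ht
  refine ext_zero hA hB (hslice t ht) (hc A B (w t) hA hB (hslice t ht) ?_)
  intro m n _ _
  have h2 := hcw m n T hT0
  rw [hcT, mul_zero] at h2
  have h3 := hcw m n t ht
  rw [← h2] at h3
  rcases mul_eq_zero.1 h3 with h4 | h4
  · exact absurd h4 (Real.exp_pos _).ne'
  · exact h4

end Pool.Agent.H74.CD.T.MAIN
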