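import Pool.Agent.H74.CD.Stm

set_option autoImplicit false

namespace Pool.Agent.H74.CD.T.NSI

open MeasureTheory Filter Topology Set intervalIntegral Pool.Agent.H74.CD

theorem isOpen_duct (A B c : ℝ) : IsOpen (Duct A B c) := by
  have h0 : Continuous fun x : Fin 3 → ℝ => x 0 := continuous_apply 0
  have h1 : Continuous fun x : Fin 3 → ℝ => x 1 := continuous_apply 1
  have h2 : Continuous fun x : Fin 3 → ℝ => |x 2| := (continuous_apply 2).abs
  have e : Duct A B c = ((({x : Fin 3 → ℝ | 0 < x 0} ∩ {x | x 0 < A}) ∩ {x | 0 < x 1}) ∩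
      {x | x 1 < B}) ∩ {x | |x 2| < c} := by
    ext x
    simp only [Duct, mem_inter_iff, mem_ofPred_eq]
    tauto
  rw [e]
  exact ((((isOpen_lt continuous_const h0).inter (isOpen_lt h0 continuous_const)).inter
    (isOpen_lt continuous_const h1)).inter (isOpen_lt h1 continuous_const)).inter
      (isOpen_lt h2 continuous_const)

theorem duct_subset (A B c : ℝ) : Duct A B c ⊆ Walled A B c := fun _ hx =>
  ⟨hx.1.le, hx.2.1.le, hx.2.2.1.le, hx.2.2.2.1.le, hx.2.2.2.2⟩

/-- A component which vanishes on the open piece has zero partial derivatives there. -/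
theorem pd_zero {A B c : ℝ} {f : (Fin 3 → ℝ) → ℝ} (hf : ∀ x ∈ Duct A B c, f x = 0)
    {x : Fin 3 → ℝ} (hx : x ∈ Duct A B c) (i : Fin 3) : pd i f x = 0 := by
  have h : f =ᶠ[𝓝 x] fun _ => (0 : ℝ) := by
    filter_upwards [(isOpen_duct A B c).mem_nhds hx] with y hy using hf y hy
  unfold pd
  rw [h.fderiv_eq]
  simp

theorem interior {A B c T : ℝ} {u : ℝ → (Fin 3 → ℝ) → (Fin 3 → ℝ)} {p : ℝ → (Fin 3 → ℝ) → ℝ}
    (hc : 0 < c) (hu : Parallel A B c T u p) {t : ℝ} (ht : t ∈ Ioo 0 T) {x : Fin 3 → ℝ}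
    (hx : x ∈ Duct A B c) : u t x 2 = u t ![x 0, x 1, 0] 2 := by
  have hmem : ∀ z ∈ Ioo (-c) c, (![x 0, x 1, z] : Fin 3 → ℝ) ∈ Duct A B c := by
    intro z hz
    refine ⟨hx.1, hx.2.1, hx.2.2.1, hx.2.2.2.1, ?_⟩
    exact abs_lt.2 hz
  have hder : ∀ z ∈ Ioo (-c) c, HasDerivAt (fun z => u t ![x 0, x 1, z] 2) 0 z := by
    intro z hz
    have hm := hmem z hz
    have hdiff : DifferentiableAt ℝ (u t) ![x 0, x 1, z] :=
      ((hu.two t ht).differentiableOn (by norm_num)).differentiableAt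
        ((isOpen_duct A B c).mem_nhds hm)
    have hd2 : DifferentiableAt ℝ (fun y => u t y 2) ![x 0, x 1, z] :=
      differentiableAt_pi.1 hdiff 2
    have hcurve : HasDerivAt (fun z : ℝ => (![x 0, x 1, z] : Fin 3 → ℝ)) (Pi.single 2 1) z := by
      rw [hasDerivAt_pi]
      intro i
      fin_cases i
      · simpa using hasDerivAt_const z (x 0)
      · simpa using hasDerivAt_const z (x 1)
      · simpa using hasDerivAt_id' z
    have hcomp := hd2.hasFDerivAt.comp_hasDerivAt z hcurve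
    have hpd : pd 2 (fun y => u t y 2) ![x 0, x 1, z] = 0 := by
      have hdiv := hu.div t ht _ hm
      rw [Fin.sum_univ_three] at hdiv
      rw [pd_zero (f := fun y => u t y 0) (fun y hy =>
          (hu.axial t (Ioo_subset_Icc_self ht) y (duct_subset A B c hy)).1) hm 0,
        pd_zero (f := fun y => u t y 1) (fun y hy =>
          (hu.axial t (Ioo_subset_Icc_self ht) y (duct_subset A B c hy)).2) hm 1] at hdiv
      simpa using hdiv
    unfold pd at hpd
    rw [hpd] at hcomp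
    exact hcomp
  have h2 : x 2 ∈ Ioo (-c) c := abs_lt.1 hx.2.2.2.2
  have h0 : (0 : ℝ) ∈ Ioo (-c) c := ⟨by linarith, hc⟩
  have hmv := Convex.norm_image_sub_le_of_norm_hasDerivWithin_le (C := 0)
    (f := fun z => u t ![x 0, x 1, z] 2) (f' := fun _ => 0) (s := Ioo (-c) c)
    (fun z hz => (hder z hz).hasDerivWithinAt) (fun z _ => by simp) (convex_Ioo _ _) h0 h2
  rw [zero_mul] at hmv
  have h3 := norm_le_zero_iff.1 hmv
  have h4 : (![x 0, x 1, x 2] : Fin 3 → ℝ) = x := by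
    ext i
    fin_cases i <;> rfl
  simp only [h4] at h3
  linarith

theorem main : S_NSI := by
  intro A B c T u p hA hB hc hT hu t ht x hx
  have hx0 : (![x 0, x 1, 0] : Fin 3 → ℝ) ∈ Walled A B c :=
    ⟨hx.1, hx.2.1, hx.2.2.1, hx.2.2.2.1, by
      show |(0 : ℝ)| < c
      rw [abs_zero]; exact hc⟩
  have hin : EqOn (fun s => u s x 2) (fun s => u s ![x 0, x 1, 0] 2) (Ioo 0 T) := by
    intro s hs
    by_cases hxd : x ∈ Duct A B c
    · exact interior hc hu hs hxd
    · have h1 := hu.wall s hs x hx hxd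
      have h2 : (![x 0, x 1, 0] : Fin 3 → ℝ) ∉ Duct A B c := by
        intro h
        exact hxd ⟨h.1, h.2.1, h.2.2.1, h.2.2.2.1, hx.2.2.2.2⟩
      have h3 := hu.wall s hs _ hx0 h2
      show u s x 2 = u s ![x 0, x 1, 0] 2
      rw [h1, h3]
  have hcont : ∀ y ∈ Walled A B c, ContinuousOn (fun s => u s y 2) (Icc 0 T) := by
    intro y hy
    have h1 : ContinuousOn (fun s : ℝ => ((s, y) : ℝ × (Fin 3 → ℝ))) (Icc 0 T) := by fun_prop
    have h2 := hu.cont.comp h1 (fun s hs => ⟨hs, hy⟩)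
    have h3 : ContinuousOn (fun s => u s y) (Icc 0 T) := h2
    exact (continuousOn_pi.1 h3) 2
  refine hin.of_subset_closure (hcont x hx) (hcont _ hx0) Ioo_subset_Icc_self ?_ ht
  rw [closure_Ioo hT.ne]

end Pool.Agent.H74.CD.T.NSI
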