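import Pool.Agent.H74.CD.Stm

/-!
Stub NSR of project CD: reduction of a parallel flow to the heat equation on the cross section.
-/

set_option autoImplicit false

namespace Pool.Agent.H74.CD.T.NSR

open Pool.Agent.H74.CD MeasureTheory Filter Topology Set

lemma duct_open (A B c : ℝ) : IsOpen (Duct A B c) := by
  have h : Duct A B c = {x | 0 < x 0} ∩ ({x | x 0 < A} ∩ ({x | 0 < x 1} ∩
      ({x | x 1 < B} ∩ {x : Fin 3 → ℝ | |x 2| < c}))) := by
    ext x; simp [Duct]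
  rw [h]
  exact (isOpen_lt continuous_const (continuous_apply 0)).inter
    ((isOpen_lt (continuous_apply 0) continuous_const).inter
    ((isOpen_lt continuous_const (continuous_apply 1)).inter
    ((isOpen_lt (continuous_apply 1) continuous_const).inter
    (isOpen_lt (continuous_apply 2).abs continuous_const))))

lemma mem_duct {A B c x y : ℝ} (hc : 0 < c) (hx : x ∈ Ioo 0 A) (hy : y ∈ Ioo 0 B) :
    (![x, y, 0] : Fin 3 → ℝ) ∈ Duct A B c := by
  refine ⟨?_, ?_, ?_, ?_, ?_⟩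
  · simpa using hx.1
  · simpa using hx.2
  · simpa using hy.1
  · simpa using hy.2
  · simpa using hc

lemma mem_walled {A B c x y : ℝ} (hc : 0 < c) (hx : x ∈ Icc 0 A) (hy : y ∈ Icc 0 B) :
    (![x, y, 0] : Fin 3 → ℝ) ∈ Walled A B c := by
  refine ⟨?_, ?_, ?_, ?_, ?_⟩
  · simpa using hx.1
  · simpa using hx.2
  · simpa using hy.1
  · simpa using hy.2
  · simpa using hc

lemma duct_sub (A B c : ℝ) : Duct A B c ⊆ Walled A B c :=
  fun _ h => ⟨h.1.le, h.2.1.le, h.2.2.1.le, h.2.2.2.1.le, h.2.2.2.2⟩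

lemma curve0 (x y : ℝ) :
    HasDerivAt (fun z : ℝ => (![z, y, 0] : Fin 3 → ℝ)) (Pi.single 0 1) x := by
  rw [hasDerivAt_pi]
  intro i
  fin_cases i
  · simpa using hasDerivAt_id' x
  · simpa using hasDerivAt_const x y
  · simpa using hasDerivAt_const x (0 : ℝ)

lemma curve1 (x y : ℝ) :
    HasDerivAt (fun z : ℝ => (![x, z, 0] : Fin 3 → ℝ)) (Pi.single 1 1) y := by
  rw [hasDerivAt_pi]
  intro i
  fin_cases i
  · simpa using hasDerivAt_const y x
  · simpa using hasDerivAt_id' y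
  · simpa using hasDerivAt_const y (0 : ℝ)

lemma line0 {f : (Fin 3 → ℝ) → ℝ} {x y : ℝ} (h : DifferentiableAt ℝ f ![x, y, 0]) :
    HasDerivAt (fun z : ℝ => f ![z, y, 0]) (pd 0 f ![x, y, 0]) x :=
  h.hasFDerivAt.comp_hasDerivAt x (curve0 x y)

lemma line1 {f : (Fin 3 → ℝ) → ℝ} {x y : ℝ} (h : DifferentiableAt ℝ f ![x, y, 0]) :
    HasDerivAt (fun z : ℝ => f ![x, z, 0]) (pd 1 f ![x, y, 0]) y :=
  h.hasFDerivAt.comp_hasDerivAt y (curve1 x y)

lemma emb_cont : Continuous (fun q : ℝ × ℝ × ℝ => (q.1, (![q.2.1, q.2.2, 0] : Fin 3 → ℝ))) := by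
  refine continuous_fst.prodMk ?_
  refine continuous_pi fun i => ?_
  fin_cases i
  · simpa using continuous_snd.fst
  · simpa using continuous_snd.snd
  · simpa using continuous_const

/-- a function which vanishes on an open set has zero partial derivatives there -/
lemma pd_zero {D : Set (Fin 3 → ℝ)} (hD : IsOpen D) {f : (Fin 3 → ℝ) → ℝ}
    (h : ∀ x ∈ D, f x = 0) (i : Fin 3) : ∀ x ∈ D, pd i f x = 0 := by
  intro x hx
  have h1 : f =ᶠ[𝓝 x] fun _ => (0 : ℝ) := by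
    filter_upwards [hD.mem_nhds hx] with y hy using h y hy
  have h2 : fderiv ℝ f x = 0 := by
    rw [h1.fderiv_eq]; simp
  simp [pd, h2]

/-- the pressure depends only on the axial variable -/
lemma const_p {A B c : ℝ} {q : (Fin 3 → ℝ) → ℝ} (hq : DifferentiableOn ℝ q (Duct A B c))
    (h0 : ∀ x ∈ Duct A B c, pd 0 q x = 0) (h1 : ∀ x ∈ Duct A B c, pd 1 q x = 0)
    {X Y : Fin 3 → ℝ} (hX : X ∈ Duct A B c) (hY : Y ∈ Duct A B c) (h2 : X 2 = Y 2) : q X = q Y := by
  set v : Fin 3 → ℝ := Y - X with hv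
  have hv2 : v 2 = 0 := by simp [hv, h2]
  have hseg : ∀ s ∈ Icc (0 : ℝ) 1, X + s • v ∈ Duct A B c := by
    intro s hs
    obtain ⟨a1, a2, a3, a4, a5⟩ := hX
    obtain ⟨b1, b2, b3, b4, b5⟩ := hY
    have e : ∀ i, (X + s • v) i = (1 - s) * X i + s * Y i := by
      intro i; simp [hv]; ring
    have hs0 := hs.1
    have hs1 : 0 ≤ 1 - s := by linarith [hs.2]
    have key : ∀ (r : ℝ) (a b : ℝ), r < a → r < b → r < (1 - s) * a + s * b := by
      intro r a b ha hb
      rcases eq_or_lt_of_le hs0 with h | h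
      · rw [← h]; simpa using ha
      · nlinarith
    refine ⟨?_, ?_, ?_, ?_, ?_⟩
    · rw [e]; exact key _ _ _ a1 b1
    · rw [e]; have := key (-A) (-(X 0)) (-(Y 0)) (by linarith) (by linarith); linarith
    · rw [e]; exact key _ _ _ a3 b3
    · rw [e]; have := key (-B) (-(X 1)) (-(Y 1)) (by linarith) (by linarith); linarith
    · have : (X + s • v) 2 = X 2 := by simp [hv2]
      rw [this]; exact a5
  have hder : ∀ s ∈ Icc (0 : ℝ) 1, HasDerivAt (fun s : ℝ => q (X + s • v)) 0 s := by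
    intro s hs
    have hd : DifferentiableAt ℝ q (X + s • v) :=
      (hq _ (hseg s hs)).differentiableAt ((duct_open A B c).mem_nhds (hseg s hs))
    have hc : HasDerivAt (fun s : ℝ => X + s • v) v s := by
      have := ((hasDerivAt_id s).smul_const v).const_add X
      simpa using this
    have := hd.hasFDerivAt.comp_hasDerivAt s hc
    have hv' : v = v 0 • (Pi.single 0 1 : Fin 3 → ℝ) + v 1 • (Pi.single 1 1 : Fin 3 → ℝ) := by
      ext i
      fin_cases i
      · simp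
      · simp
      · simp [hv2]
    have hz : fderiv ℝ q (X + s • v) v = 0 := by
      have e0 := h0 _ (hseg s hs)
      have e1 := h1 _ (hseg s hs)
      unfold pd at e0 e1
      conv_lhs => rw [hv']
      rw [map_add, map_smul, map_smul]
      rw [← hv', e0, e1]; simp
    rw [hz] at this
    exact this
  have hcont : ContinuousOn (fun s : ℝ => q (X + s • v)) (Icc 0 1) :=
    fun s hs => (hder s hs).continuousAt.continuousWithinAt
  have := constant_of_has_deriv_right_zero hcont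
    (fun s hs => (hder s (Ico_subset_Icc_self hs)).hasDerivWithinAt) 1 (by simp)
  simp [hv] at this
  exact this.symm

lemma pd2_p {A B c : ℝ} {q : (Fin 3 → ℝ) → ℝ} (hq : DifferentiableOn ℝ q (Duct A B c))
    (h0 : ∀ x ∈ Duct A B c, pd 0 q x = 0) (h1 : ∀ x ∈ Duct A B c, pd 1 q x = 0)
    {X Y : Fin 3 → ℝ} (hX : X ∈ Duct A B c) (hY : Y ∈ Duct A B c) (h2 : X 2 = Y 2) :
    pd 2 q X = pd 2 q Y := by
  have hD := duct_open A B c
  have h3 : ∀ᶠ Z in 𝓝 X, Z + (Y - X) ∈ Duct A B c := by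
    have hc : ContinuousAt (fun Z : Fin 3 → ℝ => Z + (Y - X)) X := by fun_prop
    apply hc.eventually_mem
    apply hD.mem_nhds
    simpa using hY
  have h4 : q =ᶠ[𝓝 X] fun Z => q (Z + (Y - X)) := by
    filter_upwards [hD.mem_nhds hX, h3] with Z hZ hZ'
    exact const_p hq h0 h1 hZ hZ' (by simp [h2])
  unfold pd
  rw [h4.fderiv_eq, fderiv_comp_add_right]
  simp

theorem main (_h : S_NSI) : S_NSR := by
  intro A B c T u p hA hB hc hT hu
  have hD := duct_open A B c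
  have hU : IsOpen (Ioo 0 T ×ˢ Duct A B c) := isOpen_Ioo.prod hD
  -- the component functions
  have hC2 : ∀ t ∈ Ioo 0 T, ∀ X ∈ Duct A B c, ContDiffAt ℝ 2 (fun z => u t z 2) X := by
    intro t ht X hX
    have h1 := (hu.two t ht).contDiffAt (hD.mem_nhds hX)
    exact (contDiffAt_pi.mp h1) 2
  have hdiff : ∀ t ∈ Ioo 0 T, ∀ X ∈ Duct A B c, DifferentiableAt ℝ (fun z => u t z 2) X :=
    fun t ht X hX => (hC2 t ht X hX).differentiableAt (by norm_num)
  have hdiff2 : ∀ t ∈ Ioo 0 T, ∀ X ∈ Duct A B c, ∀ i : Fin 3,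
      DifferentiableAt ℝ (fun Y => pd i (fun z => u t z 2) Y) X := by
    intro t ht X hX i
    have h1 : ContDiffAt ℝ 1 (fderiv ℝ (fun z => u t z 2)) X :=
      (hC2 t ht X hX).fderiv_right (by norm_num)
    have h2 : DifferentiableAt ℝ (fderiv ℝ (fun z => u t z 2)) X := h1.differentiableAt (by norm_num)
    exact h2.clm_apply (differentiableAt_const _)
  have hF : ContDiffOn ℝ 1 (fun q : ℝ × (Fin 3 → ℝ) => u q.1 q.2 2) (Ioo 0 T ×ˢ Duct A B c) :=
    (contDiffOn_pi.mp hu.one) 2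
  have hFd : ∀ t ∈ Ioo 0 T, ∀ X ∈ Duct A B c,
      HasDerivAt (fun s => u s X 2)
        (fderiv ℝ (fun q : ℝ × (Fin 3 → ℝ) => u q.1 q.2 2) (t, X) (1, 0)) t := by
    intro t ht X hX
    have h1 : DifferentiableAt ℝ (fun q : ℝ × (Fin 3 → ℝ) => u q.1 q.2 2) (t, X) :=
      (hF.contDiffAt (hU.mem_nhds ⟨ht, hX⟩)).differentiableAt (by norm_num)
    have h2 : HasDerivAt (fun s : ℝ => (s, X)) ((1 : ℝ), (0 : Fin 3 → ℝ)) t :=
      (hasDerivAt_id t).prodMk (hasDerivAt_const t X)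
    exact HasFDerivAt.comp_hasDerivAt t (f := fun s : ℝ => (s, X)) h1.hasFDerivAt h2
  have hFc : ContinuousOn (fun q : ℝ × (Fin 3 → ℝ) => deriv (fun s => u s q.2 2) q.1)
      (Ioo 0 T ×ˢ Duct A B c) := by
    have h1 : ContinuousOn (fun q => fderiv ℝ (fun q : ℝ × (Fin 3 → ℝ) => u q.1 q.2 2) q
        ((1 : ℝ), (0 : Fin 3 → ℝ))) (Ioo 0 T ×ˢ Duct A B c) :=
      (hF.continuousOn_fderiv_of_isOpen hU le_rfl).clm_apply continuousOn_const
    refine h1.congr ?_
    rintro ⟨t, X⟩ ⟨ht, hX⟩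
    exact (hFd t ht X hX).deriv
  -- the embedding
  have hemb : MapsTo (fun q : ℝ × ℝ × ℝ => (q.1, (![q.2.1, q.2.2, 0] : Fin 3 → ℝ)))
      (Ioo 0 T ×ˢ (Ioo 0 A ×ˢ Ioo 0 B)) (Ioo 0 T ×ˢ Duct A B c) := by
    rintro ⟨t, x, y⟩ ⟨ht, hx, hy⟩
    exact ⟨ht, mem_duct hc hx hy⟩
  have hemb' : MapsTo (fun q : ℝ × ℝ × ℝ => (q.1, (![q.2.1, q.2.2, 0] : Fin 3 → ℝ)))
      (Icc 0 T ×ˢ (Icc 0 A ×ˢ Icc 0 B)) (Icc 0 T ×ˢ Walled A B c) := by
    rintro ⟨t, x, y⟩ ⟨ht, hx, hy⟩
    exact ⟨ht, mem_walled hc hx hy⟩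
  -- vanishing components
  have hv0 : ∀ t ∈ Ioo 0 T, ∀ X ∈ Duct A B c, u t X 0 = 0 := fun t ht X hX =>
    (hu.axial t (Ioo_subset_Icc_self ht) X (duct_sub A B c hX)).1
  have hv1 : ∀ t ∈ Ioo 0 T, ∀ X ∈ Duct A B c, u t X 1 = 0 := fun t ht X hX =>
    (hu.axial t (Ioo_subset_Icc_self ht) X (duct_sub A B c hX)).2
  have hdz : ∀ k : Fin 3, (∀ t ∈ Ioo 0 T, ∀ X ∈ Duct A B c, u t X k = 0) →
      ∀ t ∈ Ioo 0 T, ∀ X ∈ Duct A B c, deriv (fun s => u s X k) t = 0 := by
    intro k hk t ht X hX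
    have h1 : (fun s => u s X k) =ᶠ[𝓝 t] fun _ => (0 : ℝ) := by
      filter_upwards [isOpen_Ioo.mem_nhds ht] with s hs using hk s hs X hX
    rw [h1.deriv_eq]; simp
  have hp2 : ∀ t ∈ Ioo 0 T, ∀ X ∈ Duct A B c, pd 2 (fun z => u t z 2) X = 0 := by
    intro t ht X hX
    have h1 := hu.div t ht X hX
    rw [Fin.sum_univ_three, pd_zero hD (hv0 t ht) 0 X hX, pd_zero hD (hv1 t ht) 1 X hX] at h1
    simpa using h1
  have hp22 : ∀ t ∈ Ioo 0 T, ∀ X ∈ Duct A B c,
      pd 2 (fun Y => pd 2 (fun z => u t z 2) Y) X = 0 := fun t ht X hX =>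
    pd_zero hD (hp2 t ht) 2 X hX
  -- the pressure
  have hpk : ∀ k : Fin 3, (∀ t ∈ Ioo 0 T, ∀ X ∈ Duct A B c, u t X k = 0) →
      ∀ t ∈ Ioo 0 T, ∀ X ∈ Duct A B c, pd k (p t) X = 0 := by
    intro k hk t ht X hX
    have h1 := hu.momentum t ht X hX k
    have h2 : ∀ i : Fin 3, pd i (fun y => u t y k) X = 0 := fun i => pd_zero hD (hk t ht) i X hX
    have h3 : ∀ i : Fin 3, pd i (fun y => pd i (fun z => u t z k) y) X = 0 := fun i =>
      pd_zero hD (fun Y hY => pd_zero hD (hk t ht) i Y hY) i X hX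
    rw [hdz k hk t ht X hX] at h1
    simp only [h2, h3, mul_zero, Finset.sum_const_zero, add_zero, zero_sub] at h1
    linarith
  have hpress : ∀ t ∈ Ioo 0 T, ∀ X ∈ Duct A B c,
      deriv (fun s => u s X 2) t = pd 0 (fun Y => pd 0 (fun z => u t z 2) Y) X +
        pd 1 (fun Y => pd 1 (fun z => u t z 2) Y) X - pd 2 (p t) X := by
    intro t ht X hX
    have h1 := hu.momentum t ht X hX 2
    rw [Fin.sum_univ_three, Fin.sum_univ_three, hv0 t ht X hX, hv1 t ht X hX, hp2 t ht X hX,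
      hp22 t ht X hX] at h1
    linarith
  have hcen : ∀ t : ℝ, t ∈ Ioo 0 T → (t, (![A / 2, B / 2, 0] : Fin 3 → ℝ)) ∈ Ioo 0 T ×ˢ Duct A B c :=
    fun t ht => ⟨ht, mem_duct hc ⟨by linarith, by linarith⟩ ⟨by linarith, by linarith⟩⟩
  refine ⟨fun t x y => deriv (fun s => u s ![x, y, 0] 2) t,
    fun t x y => pd 0 (fun z => u t z 2) ![x, y, 0],
    fun t x y => pd 1 (fun z => u t z 2) ![x, y, 0],
    fun t x y => pd 0 (fun Y => pd 0 (fun z => u t z 2) Y) ![x, y, 0],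
    fun t x y => pd 1 (fun Y => pd 1 (fun z => u t z 2) Y) ![x, y, 0],
    fun t => deriv (fun s => u s ![A / 2, B / 2, 0] 2) t -
      pd 0 (fun Y => pd 0 (fun z => u t z 2) Y) ![A / 2, B / 2, 0] -
      pd 1 (fun Y => pd 1 (fun z => u t z 2) Y) ![A / 2, B / 2, 0], ?_⟩
  have hcc : Continuous (fun t : ℝ => (t, (![A / 2, B / 2, 0] : Fin 3 → ℝ))) :=
    continuous_id.prodMk continuous_const
  constructor
  · have h1 : ContinuousOn (fun q : ℝ × (Fin 3 → ℝ) => u q.1 q.2 2) (Icc 0 T ×ˢ Walled A B c) :=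
      (continuousOn_pi.mp hu.cont) 2
    exact h1.comp emb_cont.continuousOn hemb'
  · intro t ht x hx y hy hb
    have h1 := hu.wall t ht ![x, y, 0] (mem_walled hc hx hy) (by
      rintro ⟨a1, a2, a3, a4, a5⟩
      simp at a1 a2 a3 a4
      rcases hb with h | h | h | h
      · rw [h] at a1; exact lt_irrefl _ a1
      · rw [h] at a2; exact lt_irrefl _ a2
      · rw [h] at a3; exact lt_irrefl _ a3
      · rw [h] at a4; exact lt_irrefl _ a4)
    simp [h1]
  · exact hFc.comp emb_cont.continuousOn hemb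
  · exact (hu.second 0 2).comp emb_cont.continuousOn hemb
  · exact (hu.second 1 2).comp emb_cont.continuousOn hemb
  · intro t ht x hx y hy
    exact (hFd t ht _ (mem_duct hc hx hy)).differentiableAt.hasDerivAt
  · intro t ht x hx y hy
    exact line0 (hdiff t ht _ (mem_duct hc hx hy))
  · intro t ht x hx y hy
    exact line1 (hdiff t ht _ (mem_duct hc hx hy))
  · intro t ht x hx y hy
    exact line0 (hdiff2 t ht _ (mem_duct hc hx hy) 0)
  · intro t ht x hx y hy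
    exact line1 (hdiff2 t ht _ (mem_duct hc hx hy) 1)
  · refine ContinuousOn.sub (ContinuousOn.sub ?_ ?_) ?_
    · exact hFc.comp hcc.continuousOn hcen
    · exact (hu.second 0 2).comp hcc.continuousOn hcen
    · exact (hu.second 1 2).comp hcc.continuousOn hcen
  · intro t ht x hx y hy
    have hX := mem_duct (A := A) (B := B) hc hx hy
    have hY := (hcen t ht).2
    have e1 := hpress t ht _ hX
    have e2 := hpress t ht _ hY
    have e3 : pd 2 (p t) ![x, y, 0] = pd 2 (p t) ![A / 2, B / 2, 0] :=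
      pd2_p (hu.pressure t ht) (hpk 0 hv0 t ht) (hpk 1 hv1 t ht) hX hY (by simp)
    linarith

end Pool.Agent.H74.CD.T.NSR
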