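import Pool.Agent.H74.CD.Stm

/-!
# Stub CD-ODE: differentiation of the coefficient on the smaller rectangle
-/

set_option autoImplicit false

open MeasureTheory Filter Topology Set intervalIntegral

namespace Pool.Agent.H74.CD.T.ODE

/-- a parametric integral of a function continuous on a box is continuous -/
theorem par {p q a b c d : ℝ} (hpq : p ≤ q) (hab : a ≤ b) (hcd : c ≤ d) (H : ℝ → ℝ → ℝ → ℝ)
    (hH : ContinuousOn (fun z : ℝ × ℝ × ℝ => H z.1 z.2.1 z.2.2) (Icc p q ×ˢ (Icc a b ×ˢ Icc c d))) :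
    ContinuousOn (fun z : ℝ × ℝ => ∫ y in c..d, H z.1 z.2 y) (Icc p q ×ˢ Icc a b) := by
  have hc : Continuous (Function.uncurry fun (z : ℝ × ℝ) (y : ℝ) =>
      H (projIcc p q hpq z.1) (projIcc a b hab z.2) (projIcc c d hcd y)) := by
    have h1 : Continuous (fun u : (ℝ × ℝ) × ℝ => (((projIcc p q hpq u.1.1 : ℝ)),
        ((projIcc a b hab u.1.2 : ℝ)), ((projIcc c d hcd u.2 : ℝ)))) := by
      refine Continuous.prodMk ?_ (Continuous.prodMk ?_ ?_)
      · exact continuous_subtype_val.comp (continuous_projIcc.comp (continuous_fst.comp continuous_fst))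
      · exact continuous_subtype_val.comp (continuous_projIcc.comp (continuous_snd.comp continuous_fst))
      · exact continuous_subtype_val.comp (continuous_projIcc.comp continuous_snd)
    exact hH.comp_continuous h1 fun u => ⟨(projIcc p q hpq u.1.1).2, (projIcc a b hab u.1.2).2,
      (projIcc c d hcd u.2).2⟩
  have h2 := continuous_parametric_intervalIntegral_of_continuous' (μ := volume) hc c d
  refine h2.continuousOn.congr ?_
  intro z hz
  refine intervalIntegral.integral_congr ?_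
  intro y hy
  rw [uIcc_of_le hcd] at hy
  simp only [projIcc_of_mem hpq hz.1, projIcc_of_mem hab hz.2, projIcc_of_mem hcd hy]

/-- differentiation under the integral sign, one variable -/
theorem one {c d t δ : ℝ} (hδ : 0 < δ) (hcd : c ≤ d) (F F' : ℝ → ℝ → ℝ)
    (hF : ∀ s ∈ Icc (t - δ) (t + δ), ContinuousOn (F s) (Icc c d))
    (hF' : ContinuousOn (fun z : ℝ × ℝ => F' z.1 z.2) (Icc (t - δ) (t + δ) ×ˢ Icc c d))
    (hd : ∀ s ∈ Icc (t - δ) (t + δ), ∀ y ∈ Icc c d, HasDerivAt (fun r => F r y) (F' s y) s) :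
    HasDerivAt (fun s => ∫ y in c..d, F s y) (∫ y in c..d, F' t y) t := by
  have hs : Icc (t - δ) (t + δ) ∈ 𝓝 t := Icc_mem_nhds (by linarith) (by linarith)
  have ht : t ∈ Icc (t - δ) (t + δ) := ⟨by linarith, by linarith⟩
  obtain ⟨M, hM⟩ := (isCompact_Icc.prod isCompact_Icc).exists_bound_of_continuousOn hF'
  have hsub : uIoc c d ⊆ Icc c d := by rw [uIoc_of_le hcd]; exact Ioc_subset_Icc_self
  refine (intervalIntegral.hasDerivAt_integral_of_dominated_loc_of_deriv_le (μ := volume)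
    (bound := fun _ => M) (F := F) (F' := F') hs ?_ ?_ ?_ ?_ ?_ ?_).2
  · filter_upwards [hs] with s hs
    exact ((hF s hs).mono hsub).aestronglyMeasurable measurableSet_uIoc
  · exact ContinuousOn.intervalIntegrable (by rw [uIcc_of_le hcd]; exact hF t ht)
  · have h1 : ContinuousOn (F' t) (Icc c d) := hF'.comp (f := fun y : ℝ => (t, y))
      (by fun_prop) fun y hy => ⟨ht, hy⟩
    exact (h1.mono hsub).aestronglyMeasurable measurableSet_uIoc
  · exact Eventually.of_forall fun y hy s hs => hM (s, y) ⟨hs, hsub hy⟩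
  · exact intervalIntegrable_const
  · exact Eventually.of_forall fun y hy s hs => hd s hs y (hsub hy)

/-- differentiation under the integral sign, two variables -/
theorem two {a b c d t δ : ℝ} (hδ : 0 < δ) (hab : a ≤ b) (hcd : c ≤ d) (F F' : ℝ → ℝ → ℝ → ℝ)
    (hF : ContinuousOn (fun z : ℝ × ℝ × ℝ => F z.1 z.2.1 z.2.2)
      (Icc (t - 2 * δ) (t + 2 * δ) ×ˢ (Icc a b ×ˢ Icc c d)))
    (hF' : ContinuousOn (fun z : ℝ × ℝ × ℝ => F' z.1 z.2.1 z.2.2)
      (Icc (t - 2 * δ) (t + 2 * δ) ×ˢ (Icc a b ×ˢ Icc c d)))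
    (hd : ∀ s ∈ Icc (t - 2 * δ) (t + 2 * δ), ∀ x ∈ Icc a b, ∀ y ∈ Icc c d,
      HasDerivAt (fun r => F r x y) (F' s x y) s) :
    HasDerivAt (fun s => ∫ x in a..b, ∫ y in c..d, F s x y) (∫ x in a..b, ∫ y in c..d, F' t x y) t := by
  have hpq : t - 2 * δ ≤ t + 2 * δ := by linarith
  have h1 := par hpq hab hcd F hF
  have h2 := par hpq hab hcd F' hF'
  have hs1 : Icc (t - δ) (t + δ) ⊆ Icc (t - 2 * δ) (t + 2 * δ) :=
    Icc_subset_Icc (by linarith) (by linarith)
  refine one (δ := δ) hδ hab (fun s x => ∫ y in c..d, F s x y) (fun s x => ∫ y in c..d, F' s x y) ?_ ?_ ?_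
  · intro s hs
    exact h1.comp (f := fun x : ℝ => (s, x)) (by fun_prop) fun x hx => ⟨hs1 hs, hx⟩
  · exact h2.mono (prod_mono hs1 le_rfl)
  · intro s hs x hx
    have hs2 : Icc (s - δ) (s + δ) ⊆ Icc (t - 2 * δ) (t + 2 * δ) :=
      Icc_subset_Icc (by linarith [hs.1]) (by linarith [hs.2])
    refine one (t := s) (δ := δ) hδ hcd (fun s y => F s x y) (fun s y => F' s x y) ?_ ?_ ?_
    · intro r hr
      exact hF.comp (f := fun y : ℝ => (r, x, y)) (by fun_prop) fun y hy => ⟨hs2 hr, hx, hy⟩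
    · exact hF'.comp (f := fun z : ℝ × ℝ => (z.1, x, z.2)) (by fun_prop)
        fun z hz => ⟨hs2 hz.1, hx, hz.2⟩
    · intro r hr y hy
      exact hd r (hs2 hr) x hx y hy

theorem main (h : S_GRN) : S_ODE := by
  intro A B T w wt wx wy wxx wyy g hA hB H m n ε hε hεA hεB t ht
  have hg := h A B T w wt wx wy wxx wyy g hA hB H m n ε hε hεA hεB t ht
  have hab : ε ≤ A - ε := by linarith
  have hcd : ε ≤ B - ε := by linarith
  have hxs : ∀ x ∈ Icc ε (A - ε), x ∈ Ioo 0 A := fun x hx => ⟨by linarith [hx.1], by linarith [hx.2]⟩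
  have hys : ∀ y ∈ Icc ε (B - ε), y ∈ Ioo 0 B := fun y hy => ⟨by linarith [hy.1], by linarith [hy.2]⟩
  obtain ⟨δ, hδ, hδt⟩ : ∃ δ : ℝ, 0 < δ ∧ Icc (t - 2 * δ) (t + 2 * δ) ⊆ Ioo 0 T := by
    refine ⟨min (t / 3) ((T - t) / 3), ?_, ?_⟩
    · exact lt_min (by linarith [ht.1]) (by linarith [ht.2])
    · intro s hs
      have h1 := min_le_left (t / 3) ((T - t) / 3)
      have h2 := min_le_right (t / 3) ((T - t) / 3)
      exact ⟨by linarith [hs.1, ht.1], by linarith [hs.2, ht.2]⟩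
  have hmc : Continuous (fun z : ℝ × ℝ × ℝ => md m ε (A - ε) z.2.1 * md n ε (B - ε) z.2.2) := by
    unfold md; fun_prop
  have hcw : ContinuousOn (fun z : ℝ × ℝ × ℝ => w z.1 z.2.1 z.2.2)
      (Icc (t - 2 * δ) (t + 2 * δ) ×ˢ (Icc ε (A - ε) ×ˢ Icc ε (B - ε))) :=
    H.cont.mono fun z hz => ⟨Ioo_subset_Icc_self (hδt hz.1), Ioo_subset_Icc_self (hxs _ hz.2.1),
      Ioo_subset_Icc_self (hys _ hz.2.2)⟩
  have hct : ContinuousOn (fun z : ℝ × ℝ × ℝ => wt z.1 z.2.1 z.2.2)
      (Icc (t - 2 * δ) (t + 2 * δ) ×ˢ (Icc ε (A - ε) ×ˢ Icc ε (B - ε))) :=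
    H.ct.mono fun z hz => ⟨hδt hz.1, hxs _ hz.2.1, hys _ hz.2.2⟩
  have h2 := two (t := t) hδ hab hcd (fun s x y => w s x y * (md m ε (A - ε) x * md n ε (B - ε) y))
    (fun s x y => wt s x y * (md m ε (A - ε) x * md n ε (B - ε) y))
    (hcw.mul hmc.continuousOn) (hct.mul hmc.continuousOn)
    (fun s hs x hx y hy => (H.dt s (hδt hs) x (hxs x hx) y (hys y hy)).mul_const _)
  have h3 : HasDerivAt (fun s => coefE A B ε m n (w s)) (coefE A B ε m n (wt t)) t := h2
  convert h3 using 1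
  rw [← hg]
  have htt : t ∈ Icc t t := ⟨le_rfl, le_rfl⟩
  have hcu : ContinuousOn (fun z : ℝ × ℝ × ℝ => (wxx z.1 z.2.1 z.2.2 + wyy z.1 z.2.1 z.2.2) *
      (md m ε (A - ε) z.2.1 * md n ε (B - ε) z.2.2))
      (Icc t t ×ˢ (Icc ε (A - ε) ×ˢ Icc ε (B - ε))) := by
    refine ContinuousOn.mul ?_ hmc.continuousOn
    refine (H.cxx.mono ?_).add (H.cyy.mono ?_)
    · exact fun z hz => ⟨⟨ht.1.trans_le hz.1.1, hz.1.2.trans_lt ht.2⟩, hxs _ hz.2.1, hys _ hz.2.2⟩
    · exact fun z hz => ⟨⟨ht.1.trans_le hz.1.1, hz.1.2.trans_lt ht.2⟩, hxs _ hz.2.1, hys _ hz.2.2⟩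
  have hcm : ContinuousOn (fun z : ℝ × ℝ × ℝ => (1 : ℝ) *
      (md m ε (A - ε) z.2.1 * md n ε (B - ε) z.2.2))
      (Icc t t ×ˢ (Icc ε (A - ε) ×ˢ Icc ε (B - ε))) := (continuous_const.mul hmc).continuousOn
  have pu := par le_rfl hab hcd (fun s x y => (wxx s x y + wyy s x y) *
      (md m ε (A - ε) x * md n ε (B - ε) y)) hcu
  have pm := par le_rfl hab hcd (fun _ x y => (1 : ℝ) *
      (md m ε (A - ε) x * md n ε (B - ε) y)) hcm
  unfold coefE
  rw [← intervalIntegral.integral_const_mul, ← intervalIntegral.integral_add]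
  · refine intervalIntegral.integral_congr ?_
    intro x hx
    rw [uIcc_of_le hab] at hx
    simp only
    rw [← intervalIntegral.integral_const_mul, ← intervalIntegral.integral_add]
    · refine intervalIntegral.integral_congr ?_
      intro y hy
      rw [uIcc_of_le hcd] at hy
      simp only
      rw [H.eq t ht x (hxs x hx) y (hys y hy)]
      ring
    · refine ContinuousOn.intervalIntegrable ?_
      rw [uIcc_of_le hcd]
      exact hcu.comp (f := fun y : ℝ => (t, x, y)) (by fun_prop) fun y hy => ⟨htt, hx, hy⟩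
    · refine ContinuousOn.intervalIntegrable ?_
      rw [uIcc_of_le hcd]
      exact continuousOn_const.mul (hcm.comp (f := fun y : ℝ => (t, x, y)) (by fun_prop)
        fun y hy => ⟨htt, hx, hy⟩)
  · refine ContinuousOn.intervalIntegrable ?_
    rw [uIcc_of_le hab]
    exact pu.comp (f := fun x : ℝ => (t, x)) (by fun_prop) fun x hx => ⟨htt, hx⟩
  · refine ContinuousOn.intervalIntegrable ?_
    rw [uIcc_of_le hab]
    exact continuousOn_const.mul (pm.comp (f := fun x : ℝ => (t, x)) (by fun_prop) fun x hx => ⟨htt, hx⟩)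

end Pool.Agent.H74.CD.T.ODE
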