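import Pool.Agent.H74.CD.Stm

/-! CD-ONE: the coefficients of the constant one. -/

set_option autoImplicit false

namespace Pool.Agent.H74.CD.T.ONE

open MeasureTheory Filter Topology Set intervalIntegral

theorem int_md {A : ℝ} (hA : 0 < A) {m : ℕ} (hm : Odd m) : 0 < ∫ x in (0 : ℝ)..A, md m 0 A x := by
  have hm0 : (0 : ℝ) < m := by exact_mod_cast hm.pos
  have hc : (m * Real.pi / A : ℝ) ≠ 0 := by positivity
  have e1 : (fun x : ℝ => md m 0 A x) = fun x => Real.sin (m * Real.pi / A * x) := by
    ext x
    unfold md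
    congr 1
    rw [sub_zero, sub_zero]
    ring
  rw [e1, intervalIntegral.integral_comp_mul_left (fun x => Real.sin x) hc, integral_sin, mul_zero, Real.cos_zero]
  have e2 : m * Real.pi / A * A = m * Real.pi := by field_simp
  rw [e2, Real.cos_nat_mul_pi, hm.neg_one_pow]
  simp only [smul_eq_mul]
  positivity

theorem main : S_ONE := by
  intro A B hA hB m n
  have e : coef A B m n (fun _ _ => 1) =
      (∫ x in (0 : ℝ)..A, md m 0 A x) * ∫ y in (0 : ℝ)..B, md n 0 B y := by
    unfold coef
    simp only [one_mul, intervalIntegral.integral_const_mul, intervalIntegral.integral_mul_const]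
  exact ⟨fun h1 h2 => by rw [e]; exact mul_pos (int_md hA h1) (int_md hB h2), e⟩

end Pool.Agent.H74.CD.T.ONE
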