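import Pool.Agent.H74.CD.Stm

/-! CD-PCO: coefficients of the Poiseuille profile -/

set_option autoImplicit false

namespace Pool.Agent.H74.CD.T.PCO

open MeasureTheory Filter Topology Set intervalIntegral Pool.Agent.H74.CD

theorem integral_exp_mul {l : ℝ} (hl : l ≠ 0) (a b : ℝ) :
    ∫ r in a..b, Real.exp (l * r) * 1 = (Real.exp (l * b) - Real.exp (l * a)) / l := by
  simp only [mul_one]
  rw [intervalIntegral.integral_comp_mul_left (fun x => Real.exp x) hl, integral_exp, smul_eq_mul]
  field_simp

theorem main (hl : S_LIM) : S_PCO := by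
  intro A B P hA hB hP m n hm hn
  obtain ⟨hc, hw, Px, Py, Pxx, Pyy, hxx, hyy, hd⟩ := hP
  have hheat : Heat A B 3 (fun _ x y => P x y) (fun _ _ _ => 0) (fun _ x y => Px x y)
      (fun _ x y => Py x y) (fun _ x y => Pxx x y) (fun _ x y => Pyy x y) (fun _ => 1) :=
    { cont := hc.comp continuousOn_snd fun q hq => hq.2
      wall := fun t _ x hx y hy h => hw x hx y hy h
      ct := continuousOn_const
      cxx := hxx.comp continuousOn_snd fun q hq => hq.2
      cyy := hyy.comp continuousOn_snd fun q hq => hq.2
      dt := fun t _ x _ y _ => hasDerivAt_const t _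
      dx := fun t _ x hx y hy => (hd x hx y hy).1
      dy := fun t _ x hx y hy => (hd x hx y hy).2.1
      dxx := fun t _ x hx y hy => (hd x hx y hy).2.2.1
      dyy := fun t _ x hx y hy => (hd x hx y hy).2.2.2.1
      gc := continuousOn_const
      eq := fun t _ x hx y hy => by
        have := (hd x hx y hy).2.2.2.2
        linarith }
  have hlam : 0 < lam A B m n := by
    unfold lam
    have h1 : (0 : ℝ) < m := by exact_mod_cast hm
    have h2 : (0 : ℝ) < n := by exact_mod_cast hn
    have := Real.pi_pos
    positivity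
  have h := hl A B 3 _ _ _ _ _ _ _ hA hB hheat m n 1 2 (by norm_num) (by norm_num) (by norm_num)
  rw [integral_exp_mul hlam.ne'] at h
  set L := lam A B m n with hL
  have hlt : Real.exp (L * 1) < Real.exp (L * 2) := Real.exp_lt_exp.2 (by linarith)
  set E1 := Real.exp (L * 1)
  set E2 := Real.exp (L * 2)
  set c := coef A B m n (fun _ _ => 1)
  have hp : E2 * coef A B m n P - E1 * coef A B m n P = c * ((E2 - E1) / L) := h
  have h3 : (E2 - E1) * (L * coef A B m n P) = (E2 - E1) * c := by
    have h4 : L * (E2 * coef A B m n P - E1 * coef A B m n P) = L * (c * ((E2 - E1) / L)) := by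
      rw [hp]
    have h5 : L * (c * ((E2 - E1) / L)) = c * (E2 - E1) := by
      field_simp
    rw [h5] at h4
    linarith
  exact mul_left_cancel₀ (sub_ne_zero.2 hlt.ne') h3

end Pool.Agent.H74.CD.T.PCO
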